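import Pool.Agent.TH610.RB.Spec
import Pool.Agent.W695.KH.Wrap

/-!
# The weak Poincare inequality in the form used by `KH`
-/

set_option autoImplicit false

namespace Pool.Agent.TH610.RB

open MeasureTheory Set
open scoped ENNReal InnerProductSpace
open Pool.Agent.H212R2.KLS (mu)

variable {b : ℕ} {k m : Fin b → ℕ}

/-- invariance of a set under the isometries of the class -/
theorem set_inv (K : Set (V (Idx b k m)))
    (hi : ∀ F : ∀ β, Equiv.Perm (Fin (k β)), ∀ x y : V (Idx b k m),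
      (∀ β j, Real.sqrt (∑ i, y ⟨β, j, i⟩ ^ 2) = Real.sqrt (∑ i, x ⟨β, F β j, i⟩ ^ 2)) →
      x ∈ K → y ∈ K) : ∀ e ∈ G (pp (m := m)) (gg (k := k)), ∀ x, e x ∈ K ↔ x ∈ K := by
  rintro e ⟨a, a', haa, he⟩ x
  obtain ⟨F, hF⟩ := exch a a' haa
  constructor
  · intro hx
    refine hi F (e x) x (fun β j => ?_) hx
    rw [vn_eq, vn_eq, he]
    have h1 : (⟨β, F β j⟩ : At b k) = Equiv.swap a a' ⟨β, j⟩ := (hF ⟨β, j⟩).symm
    rw [h1, Equiv.swap_apply_self]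
  · intro hx
    refine hi F x (e x) (fun β j => ?_) hx
    rw [vn_eq, vn_eq, he, hF]

/-- the weak Poincare inequality, second moments, invariance under all isometries which preserve a
set `D` invariant under the isometries of the class -/
theorem weakD (hk : ∀ β, 1 ≤ k β) (hm : ∀ β, 1 ≤ m β) (T : ℝ) (hT0 : 0 ≤ T)
    (hT : ∑ β, Real.exp (-(T * (k β * m β))) ≤ 1) (D : Set (V (Idx b k m)))
    (hD : ∀ e ∈ G (pp (m := m)) (gg (k := k)), ∀ x, e x ∈ D ↔ x ∈ D)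
    (ρ : V (Idx b k m) → ℝ) (h0 : ∀ x, 0 ≤ ρ x) (hme : Measurable ρ)
    (hl : ∀ x y, ∀ t : ℝ, 0 < t → t < 1 → ρ x ^ (1 - t) * ρ y ^ t ≤ ρ ((1 - t) • x + t • y))
    (hi : ∀ e : V (Idx b k m) ≃ₗᵢ[ℝ] V (Idx b k m), (∀ x, e x ∈ D ↔ x ∈ D) →
      ∀ x, ρ (e x) = ρ x) (h1 : mu ρ univ = 1) (s : ℝ) (hs : 0 < s)
    (hmom : ∀ θ : V (Idx b k m),
      ∫⁻ x, ENNReal.ofReal (⟪θ, x⟫_ℝ ^ 2) ∂(mu ρ) ≤ ENNReal.ofReal (s * ‖θ‖ ^ 2))
    (v : V (Idx b k m) → ℝ) (hv : ContDiff ℝ 1 v) (hvb : ∀ x, |v x| ≤ 1) :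
    ENNReal.ofReal ((∫ x, (v x - ∫ y, v y ∂(mu ρ)) ^ 2 ∂(mu ρ)) ^ 2) ≤
      ENNReal.ofReal (8 * CC * (1 + T) ^ 2 * s) *
        ∫⁻ x, ENNReal.ofReal (‖fderiv ℝ v x‖ ^ 2) ∂(mu ρ) := by
  have hG : Pool.Agent.TH594.KP.GD (G (pp (m := m)) (gg (k := k))) ρ :=
    ⟨h0, hme, hl, fun e he x => hi e (hD e he) x⟩
  have hCC := CC_pos
  have key := mainc (by positivity) (sc hk hm T hT0 hT) ρ hG h1 s hs hmom v hv hvb
  have e : 8 * (CC * (1 + T) ^ 2) * s = 8 * CC * (1 + T) ^ 2 * s := by ring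
  rw [e] at key
  exact key

end Pool.Agent.TH610.RB
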