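import Pool.Agent.TH610.RB.Geo
import Pool.Agent.H888R2.KC.R2
import Pool.Agent.H212R2.KLS.T1

/-!
# The marginal of a block

Adapted from the module `H888R2.KT.T1` of the starting files.
-/

set_option autoImplicit false

namespace Pool.Agent.TH610.RB

open MeasureTheory Set
open scoped ENNReal InnerProductSpace
open Pool.Agent.H212R2.KLS (mu Bdd)

section

variable {κ : Type} [Fintype κ] (q : κ → Prop) [DecidablePred q]

/-- the vector with given coordinates in `q` and outside of `q` -/
noncomputable def mg (z : V {i // q i} × V {i // ¬ q i}) : V κ :=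
  WithLp.toLp 2 fun i => if h : q i then z.1 ⟨i, h⟩ else z.2 ⟨i, h⟩

/-- the restriction to the coordinates in `q` -/
noncomputable def rs : V κ →ₗ[ℝ] V {i // q i} where
  toFun x := WithLp.toLp 2 fun i => x i.1
  map_add' x y := by ext i; simp
  map_smul' c x := by ext i; simp

omit [Fintype κ] in
theorem mg_1 (z : V {i // q i} × V {i // ¬ q i}) (i : κ) (h : q i) : mg q z i = z.1 ⟨i, h⟩ := by
  unfold mg
  simp [h]

omit [Fintype κ] in
theorem mg_2 (z : V {i // q i} × V {i // ¬ q i}) (i : κ) (h : ¬ q i) : mg q z i = z.2 ⟨i, h⟩ := by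
  unfold mg
  simp [h]

omit [Fintype κ] in
theorem rs_mg (x : V {i // q i}) (y : V {i // ¬ q i}) : rs q (mg q (x, y)) = x := by
  ext i
  exact mg_1 q (x, y) i.1 i.2

theorem mg_mp : MeasurePreserving (mg q)
    ((volume : Measure (V {i // q i})).prod (volume : Measure (V {i // ¬ q i}))) volume := by
  have h1 : MeasurePreserving (fun z : V {i // q i} × V {i // ¬ q i} =>
      ((z.1.ofLp, z.2.ofLp) : ({i // q i} → ℝ) × ({i // ¬ q i} → ℝ)))
      ((volume : Measure (V {i // q i})).prod (volume : Measure (V {i // ¬ q i})))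
      ((volume : Measure ({i // q i} → ℝ)).prod (volume : Measure ({i // ¬ q i} → ℝ))) :=
    (PiLp.volume_preserving_ofLp _).prod (PiLp.volume_preserving_ofLp _)
  have h2 := (volume_preserving_piEquivPiSubtypeProd (fun _ : κ => ℝ) q).symm
  have h4 := PiLp.volume_preserving_toLp κ
  have h5 := h4.comp (h2.comp h1)
  exact h5

theorem norm_mg (z : V {i // q i} × V {i // ¬ q i}) : ‖mg q z‖ ^ 2 = ‖z.1‖ ^ 2 + ‖z.2‖ ^ 2 := by
  rw [EuclideanSpace.norm_sq_eq, EuclideanSpace.norm_sq_eq, EuclideanSpace.norm_sq_eq,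
    ← Fintype.sum_subtype_add_sum_subtype q]
  congr 1
  · exact Finset.sum_congr rfl fun i _ => by rw [mg_1 q z i.1 i.2]
  · exact Finset.sum_congr rfl fun i _ => by rw [mg_2 q z i.1 i.2]

theorem le_norm_mg (x : V {i // q i}) (y : V {i // ¬ q i}) : ‖x‖ ≤ ‖mg q (x, y)‖ := by
  have h := norm_mg q (x, y)
  simp only at h
  exact le_of_sq_le_sq (by nlinarith [sq_nonneg ‖y‖]) (norm_nonneg _)

theorem le_norm_mg' (x : V {i // q i}) (y : V {i // ¬ q i}) : ‖y‖ ≤ ‖mg q (x, y)‖ := by
  have h := norm_mg q (x, y)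
  simp only at h
  exact le_of_sq_le_sq (by nlinarith [sq_nonneg ‖x‖]) (norm_nonneg _)

omit [Fintype κ] in
theorem mg_lin (a b : ℝ) (x x' : V {i // q i}) (y y' : V {i // ¬ q i}) :
    mg q (a • x + b • x', a • y + b • y') = a • mg q (x, y) + b • mg q (x', y') := by
  ext i
  by_cases h : q i
  · rw [mg_1 q _ i h]
    simp [mg_1 q _ i h]
  · rw [mg_2 q _ i h]
    simp [mg_2 q _ i h]

/-- the marginal density (extended) -/
noncomputable def me (ρ : V κ → ℝ) (x : V {i // q i}) : ℝ≥0∞ :=
  ∫⁻ y : V {i // ¬ q i}, ENNReal.ofReal (ρ (mg q (x, y)))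

theorem me_meas (ρ : V κ → ℝ) (hm : Measurable ρ) : Measurable (me q ρ) := by
  have h : Measurable fun z : V {i // q i} × V {i // ¬ q i} => ENNReal.ofReal (ρ (mg q z)) :=
    (hm.comp (mg_mp q).measurable).ennreal_ofReal
  exact h.lintegral_prod_right'

theorem me_lt (ρ : V κ → ℝ) (hb : Bdd ρ) (B : ℝ) (hB : ∀ x, ρ x ≤ B) (x : V {i // q i}) :
    me q ρ x < ⊤ := by
  obtain ⟨R, hR⟩ := hb
  have h1 : me q ρ x ≤ ∫⁻ _y in Metric.closedBall (0 : V {i // ¬ q i}) R, ENNReal.ofReal B := by
    rw [← lintegral_indicator Metric.isClosed_closedBall.measurableSet]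
    refine lintegral_mono fun y => ?_
    by_cases hy : y ∈ Metric.closedBall (0 : V {i // ¬ q i}) R
    · rw [indicator_of_mem hy]
      exact ENNReal.ofReal_le_ofReal (hB _)
    · have : R < ‖mg q (x, y)‖ := by
        refine lt_of_lt_of_le ?_ (le_norm_mg' q x y)
        simpa [Metric.mem_closedBall, dist_zero_right] using hy
      rw [hR _ this]
      simp
  refine lt_of_le_of_lt h1 ?_
  rw [setLIntegral_const]
  exact ENNReal.mul_lt_top ENNReal.ofReal_lt_top measure_closedBall_lt_top

theorem me_logc (ρ : V κ → ℝ) (h0 : ∀ x, 0 ≤ ρ x) (hm : Measurable ρ)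
    (hlog : ∀ x y : V κ, ∀ t : ℝ, 0 < t → t < 1 → ρ x ^ (1 - t) * ρ y ^ t ≤ ρ ((1 - t) • x + t • y))
    (hfin : ∀ x, me q ρ x < ⊤) (x y : V {i // q i}) (t : ℝ) (ht0 : 0 < t) (ht1 : t < 1) :
    (me q ρ x).toReal ^ (1 - t) * (me q ρ y).toReal ^ t ≤
      (me q ρ ((1 - t) • x + t • y)).toReal := by
  have t1 : 0 < 1 - t := by linarith
  have hsec : ∀ x : V {i // q i}, Measurable fun u : V {i // ¬ q i} =>
      ENNReal.ofReal (ρ (mg q (x, u))) := fun x =>
    (hm.comp ((mg_mp q).measurable.comp measurable_prodMk_left)).ennreal_ofReal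
  have key := Pool.Agent.H212R2.KLS.PL (volume : Measure (V {i // ¬ q i})) t ht0 ht1
    (fun u => ENNReal.ofReal (ρ (mg q (x, u)))) (fun u => ENNReal.ofReal (ρ (mg q (y, u))))
    (fun u => ENNReal.ofReal (ρ (mg q ((1 - t) • x + t • y, u)))) (hsec _) (hsec _) (hsec _) (by
      intro u v
      rw [ENNReal.ofReal_rpow_of_nonneg (h0 _) t1.le,
        ENNReal.ofReal_rpow_of_nonneg (h0 _) ht0.le,
        ← ENNReal.ofReal_mul (Real.rpow_nonneg (h0 _) _), mg_lin]
      exact ENNReal.ofReal_le_ofReal (hlog _ _ t ht0 ht1))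
  rw [ENNReal.toReal_rpow, ENNReal.toReal_rpow, ← ENNReal.toReal_mul]
  exact ENNReal.toReal_mono (hfin _).ne key

theorem me_map (ρ : V κ → ℝ) (hm : Measurable ρ) (hfin : ∀ x, me q ρ x < ⊤) :
    (mu ρ).map (rs q) = mu fun x => (me q ρ x).toReal := by
  have hcp : Measurable (rs q) := (LinearMap.continuous_of_finiteDimensional _).measurable
  ext S hS
  rw [Measure.map_apply hcp hS, mu, mu, withDensity_apply _ (hcp hS), withDensity_apply _ hS,
    ← lintegral_indicator (hcp hS), ← lintegral_indicator hS]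
  have hF : Measurable ((rs q ⁻¹' S).indicator fun z => ENNReal.ofReal (ρ z)) :=
    hm.ennreal_ofReal.indicator (hcp hS)
  have hG : AEMeasurable (fun z : V {i // q i} × V {i // ¬ q i} =>
      (rs q ⁻¹' S).indicator (fun z => ENNReal.ofReal (ρ z)) (mg q z))
      ((volume : Measure (V {i // q i})).prod (volume : Measure (V {i // ¬ q i}))) :=
    (hF.comp (mg_mp q).measurable).aemeasurable
  rw [← (mg_mp q).lintegral_comp hF, lintegral_prod _ hG]
  refine lintegral_congr fun x => ?_
  by_cases hx : x ∈ S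
  · rw [indicator_of_mem hx, ENNReal.ofReal_toReal (hfin x).ne]
    refine lintegral_congr fun y => ?_
    rw [indicator_of_mem]
    rw [mem_preimage, rs_mg]
    exact hx
  · rw [indicator_of_notMem hx]
    have : ∀ y : V {i // ¬ q i}, (rs q ⁻¹' S).indicator
        (fun z => ENNReal.ofReal (ρ z)) (mg q (x, y)) = 0 := by
      intro y
      rw [indicator_of_notMem]
      rw [mem_preimage, rs_mg]
      exact hx
    simp [this]

end

variable {κ A B : Type} [Fintype κ] [DecidableEq A] [DecidableEq B]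
variable {p : κ → A} {g : A → B} {ρ : V κ → ℝ}

theorem norm_P_mg (q : κ → Prop) [DecidablePred q] (c : A) (x : V {i // q i})
    (y : V {i // ¬ q i}) : ‖P p c (mg q (x, y))‖ ^ 2 =
      ‖P (fun i : {i // q i} => p i.1) c x‖ ^ 2 + ‖P (fun i : {i // ¬ q i} => p i.1) c y‖ ^ 2 := by
  rw [norm_sq_P, norm_sq_P, norm_sq_P, ← Fintype.sum_subtype_add_sum_subtype q]
  congr 1
  · exact Finset.sum_congr rfl fun i _ => by rw [mg_1 q _ i.1 i.2]
  · exact Finset.sum_congr rfl fun i _ => by rw [mg_2 q _ i.1 i.2]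

/-- the marginal of a block is in the class -/
theorem marginal (hρ : RD p g ρ) (hb : Bdd ρ) (h1 : mu ρ univ = 1) (β : B) :
    ∃ ρ' : V {i // g (p i) = β} → ℝ, RD (fun i : {i // g (p i) = β} => p i.1) g ρ' ∧ Bdd ρ' ∧
      (mu ρ).map (rs fun i => g (p i) = β) = mu ρ' := by
  obtain ⟨B', hB'⟩ := Pool.Agent.H888R2.KC.bdd_of_finite ρ hρ.nonneg hρ.meas hρ.logc
    (by rw [h1]; exact ENNReal.one_ne_top)
    (by
      intro h0
      rw [h0] at h1
      simp at h1)
  have hfin := me_lt (fun i => g (p i) = β) ρ hb B' hB'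
  have hmeas := me_meas (fun i => g (p i) = β) ρ hρ.meas
  refine ⟨fun x => (me (fun i => g (p i) = β) ρ x).toReal, ⟨fun x => ENNReal.toReal_nonneg,
    hmeas.ennreal_toReal, me_logc _ ρ hρ.nonneg hρ.meas hρ.logc hfin, ?_⟩, ?_,
    me_map _ ρ hρ.meas hfin⟩
  · intro a a' haa x y hn
    have h3 : me (fun i => g (p i) = β) ρ y = me (fun i => g (p i) = β) ρ x := by
      unfold me
      refine lintegral_congr fun z => ?_
      congr 1
      have z1 : ∀ c, g c ≠ β → ∀ u : V {i // g (p i) = β},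
          P (fun i : {i // g (p i) = β} => p i.1) c u = 0 := by
        intro c hc u
        ext i
        have h4 : p i.1 ≠ c := fun h4 => hc (by rw [← h4]; exact i.2)
        rw [P_apply, if_neg h4]
        rfl
      have z2 : ∀ c, g c = β → ∀ u : V {i // ¬ g (p i) = β},
          P (fun i : {i // ¬ g (p i) = β} => p i.1) c u = 0 := by
        intro c hc u
        ext i
        have h4 : p i.1 ≠ c := fun h4 => i.2 (by rw [h4]; exact hc)
        rw [P_apply, if_neg h4]
        rfl
      by_cases ha : g a = β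
      · refine hρ.inv a a' haa _ _ fun c => ?_
        rw [← sq_eq_sq₀ (norm_nonneg _) (norm_nonneg _), norm_P_mg, norm_P_mg]
        by_cases hc : g c = β
        · have hc' : g (Equiv.swap a a' c) = β := by
            by_cases h5 : c = a
            · rw [h5, Equiv.swap_apply_left, ← haa, ha]
            · by_cases h6 : c = a'
              · rw [h6, Equiv.swap_apply_right, ha]
              · rw [Equiv.swap_apply_of_ne_of_ne h5 h6, hc]
          rw [z2 c hc, z2 _ hc', hn c]
        · have h5 : c ≠ a := fun h5 => hc (by rw [h5, ha])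
          have h6 : c ≠ a' := fun h6 => hc (by rw [h6, ← haa, ha])
          rw [Equiv.swap_apply_of_ne_of_ne h5 h6, z1 c hc, z1 c hc]
      · refine hρ.flat a _ _ fun c => ?_
        rw [← sq_eq_sq₀ (norm_nonneg _) (norm_nonneg _), norm_P_mg, norm_P_mg]
        by_cases hc : g c = β
        · have h5 : c ≠ a := fun h5 => ha (by rw [← h5, hc])
          have h6 : c ≠ a' := fun h6 => ha (by rw [haa, ← h6, hc])
          have h7 := hn c
          rw [Equiv.swap_apply_of_ne_of_ne h5 h6] at h7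
          rw [z2 c hc, h7]
        · rw [z1 c hc, z1 c hc]
    show (me (fun i => g (p i) = β) ρ y).toReal = (me (fun i => g (p i) = β) ρ x).toReal
    rw [h3]
  · obtain ⟨R, hR⟩ := hb
    refine ⟨R, fun x hx => ?_⟩
    have h3 : me (fun i => g (p i) = β) ρ x = 0 := by
      unfold me
      have : ∀ y : V {i // ¬ g (p i) = β},
          ENNReal.ofReal (ρ (mg (fun i => g (p i) = β) (x, y))) = 0 := by
        intro y
        rw [hR _ (lt_of_lt_of_le hx (le_norm_mg _ x y))]
        simp
      simp [this]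
    show (me (fun i => g (p i) = β) ρ x).toReal = 0
    rw [h3]
    simp

end Pool.Agent.TH610.RB
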