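import Pool.Agent.TH594.KP.Defs
import Pool.Agent.H888R2.KC.R2

/-!
# Stability of the class of invariant log-concave densities

Copied from the modules `TH594.KP.Bas` and `H888R2.KT.G2` (to avoid their imports).
-/

set_option autoImplicit false

namespace Pool.Agent.TH610.RB

open MeasureTheory Set
open scoped ENNReal InnerProductSpace
open Pool.Agent.H212R2.KLS (mu Bdd)
open Pool.Agent.TH594.KP (V GD)

theorem intg {F : Type*} [NormedAddCommGroup F] [NormedSpace ℝ F] [FiniteDimensional ℝ F]
    [MeasurableSpace F] [BorelSpace F] (μ : Measure F) [IsFiniteMeasure μ]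
    (hb : ∃ R, μ (Metric.closedBall 0 R)ᶜ = 0) (g : F → ℝ) (hg : Continuous g) :
    Integrable g μ := by
  obtain ⟨R, hR⟩ := hb
  have : ProperSpace F := FiniteDimensional.proper ℝ F
  obtain ⟨C, hC⟩ := (isCompact_closedBall (0 : F) R).exists_bound_of_continuousOn hg.continuousOn
  have h1 : Metric.closedBall (0 : F) R ∈ ae μ := mem_ae_iff.2 hR
  refine Integrable.of_bound hg.aestronglyMeasurable C ?_
  filter_upwards [h1] with x hx using hC x hx

/-- restriction of the density -/
theorem mu_indicator {F : Type*} [MeasureSpace F] (ρ : F → ℝ) (U : Set F)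
    (hU : MeasurableSet U) : mu (U.indicator ρ) = (mu ρ).restrict U := by
  rw [mu, mu, restrict_withDensity hU, ← withDensity_indicator hU]
  congr 1
  ext x
  by_cases hx : x ∈ U <;> simp [hx]

theorem mu_mono {F : Type*} [MeasureSpace F] (ρ w : F → ℝ) (h : ∀ x, w x ≤ ρ x) (U : Set F) :
    mu w U ≤ mu ρ U := by
  have : mu w ≤ mu ρ := withDensity_mono (ae_of_all _ fun x => ENNReal.ofReal_le_ofReal (h x))
  exact this U

variable {κ : Type} [Fintype κ] {G : Set (V κ ≃ₗᵢ[ℝ] V κ)} {ρ : V κ → ℝ}

theorem gd_map (hρ : GD G ρ) (g : V κ ≃ₗᵢ[ℝ] V κ) (hg : g ∈ G) : (mu ρ).map g = mu ρ := by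
  have hmp : MeasurePreserving (g : V κ → V κ) volume volume := g.measurePreserving
  ext s hs
  rw [Measure.map_apply hmp.measurable hs]
  unfold mu
  rw [withDensity_apply _ (hmp.measurable hs), withDensity_apply _ hs,
    ← hmp.setLIntegral_comp_preimage hs hρ.meas.ennreal_ofReal]
  simp only [hρ.inv g hg]

theorem gd_indicator (hρ : GD G ρ) (B : Set (V κ)) (hB : Convex ℝ B) (hBm : MeasurableSet B)
    (hBi : ∀ g ∈ G, ∀ x, g x ∈ B ↔ x ∈ B) : GD G (B.indicator ρ) where
  nonneg x := indicator_nonneg (fun x _ => hρ.nonneg x) x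
  meas := hρ.meas.indicator hBm
  logc x y t ht0 ht1 := by
    have hn : 0 ≤ B.indicator ρ ((1 - t) • x + t • y) :=
      indicator_nonneg (fun x _ => hρ.nonneg x) _
    by_cases hx : x ∈ B
    · by_cases hy : y ∈ B
      · have hz : (1 - t) • x + t • y ∈ B := hB hx hy (by linarith) ht0.le (by ring)
        rw [indicator_of_mem hx, indicator_of_mem hy, indicator_of_mem hz]
        exact hρ.logc x y t ht0 ht1
      · rw [indicator_of_notMem hy, Real.zero_rpow ht0.ne', mul_zero]
        exact hn
    · rw [indicator_of_notMem hx, Real.zero_rpow (by linarith : 1 - t ≠ 0), zero_mul]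
      exact hn
  inv g hg x := by
    by_cases hx : x ∈ B
    · rw [indicator_of_mem hx, indicator_of_mem ((hBi g hg x).2 hx), hρ.inv g hg]
    · rw [indicator_of_notMem hx, indicator_of_notMem (fun h => hx ((hBi g hg x).1 h))]

theorem gd_ball (hρ : GD G ρ) (r : ℝ) : GD G ({x | ‖x‖ ≤ r}.indicator ρ) := by
  refine gd_indicator hρ _ ?_ ?_ (fun g _ x => ?_)
  · have : {x : V κ | ‖x‖ ≤ r} = Metric.closedBall 0 r := by
      ext x
      simp
    rw [this]
    exact convex_closedBall 0 r
  · exact (isClosed_le continuous_norm continuous_const).measurableSet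
  · show ‖g x‖ ≤ r ↔ ‖x‖ ≤ r
    rw [g.norm_map]

theorem gd_smul (h : GD G ρ) (c : ℝ) (hc : 0 ≤ c) : GD G (fun x => c * ρ x) where
  nonneg x := mul_nonneg hc (h.nonneg x)
  meas := h.meas.const_mul c
  logc x y t ht0 ht1 := by
    have h1 := h.logc x y t ht0 ht1
    rw [Real.mul_rpow hc (h.nonneg x), Real.mul_rpow hc (h.nonneg y)]
    have h2 : c ^ (1 - t) * c ^ t ≤ c := by
      rcases hc.eq_or_lt with h3 | h3
      · rw [← h3, Real.zero_rpow ht0.ne']
        simp
      · rw [← Real.rpow_add h3]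
        simp
    calc c ^ (1 - t) * ρ x ^ (1 - t) * (c ^ t * ρ y ^ t)
        = (c ^ (1 - t) * c ^ t) * (ρ x ^ (1 - t) * ρ y ^ t) := by ring
      _ ≤ c * ρ ((1 - t) • x + t • y) := by
        apply mul_le_mul h2 h1 _ hc
        exact mul_nonneg (Real.rpow_nonneg (h.nonneg x) _) (Real.rpow_nonneg (h.nonneg y) _)
  inv g hg x := by rw [h.inv g hg x]

theorem gd_trans (h : GD G ρ) (v : V κ) (hv : ∀ g ∈ G, g v = v) : GD G (fun x => ρ (x + v)) where
  nonneg x := h.nonneg _
  meas := h.meas.comp (by fun_prop)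
  logc x y t ht0 ht1 := by
    have h1 := h.logc (x + v) (y + v) t ht0 ht1
    have e : (1 - t) • (x + v) + t • (y + v) = (1 - t) • x + t • y + v := by
      module
    rw [e] at h1
    exact h1
  inv g hg x := by
    have e : g x + v = g (x + v) := by rw [map_add, hv g hg]
    rw [e]
    exact h.inv g hg _


end Pool.Agent.TH610.RB
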