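import Pool.Agent.TH610.RB.Up

/-!
# The tail of the sum of the norms of the atoms, when all coordinates are in one block

Adapted from the modules `W632.SK.Low` and `W58.SK.Tail` of the starting files.
-/

set_option autoImplicit false

namespace Pool.Agent.TH610.RB

open MeasureTheory Set
open scoped ENNReal InnerProductSpace
open Pool.Agent.H212R2.KLS (mu Bdd)

theorem int_exp_abs (c : ℝ) (hc : 0 < c) : ∫ t : ℝ, Real.exp (-|t| / c) = 2 * c := by
  have h1 := integral_comp_abs (f := fun t : ℝ => Real.exp (-t / c))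
  rw [h1]
  have h2 := integral_exp_mul_Ioi (a := -(1 / c)) (by
    have : 0 < 1 / c := by positivity
    linarith) 0
  have h3 : (fun t : ℝ => Real.exp (-t / c)) = fun t : ℝ => Real.exp (-(1 / c) * t) := by
    funext t
    congr 1
    ring
  rw [h3, h2]
  simp

theorem int_prod {κ : Type} [Fintype κ] (c : ℝ) (hc : 0 < c) :
    ∫ x : V κ, ∏ i, Real.exp (-|x i| / c) = (2 * c) ^ Fintype.card κ := by
  have h1 := (EuclideanSpace.volume_preserving_symm_measurableEquiv_toLp κ).integral_comp'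
    (fun y : κ → ℝ => ∏ i, Real.exp (-|y i| / c))
  have h2 : ∫ x : V κ, ∏ i, Real.exp (-|x i| / c) =
      ∫ y : κ → ℝ, ∏ i, Real.exp (-|y i| / c) := h1
  rw [h2, integral_fintype_prod_volume_eq_pow (fun t : ℝ => Real.exp (-|t| / c)),
    int_exp_abs c hc]

theorem ae_bdd {κ : Type} [Fintype κ] (ρ : V κ → ℝ) (R : ℝ) (hR : ∀ x, R < ‖x‖ → ρ x = 0) :
    ∀ᵐ x ∂(mu ρ), ‖x‖ ≤ R := by
  rw [ae_iff]
  have hm : MeasurableSet {x : V κ | ¬ ‖x‖ ≤ R} :=
    (measurableSet_le measurable_norm measurable_const).compl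
  unfold mu
  rw [withDensity_apply _ hm]
  have : ∀ x ∈ {x : V κ | ¬ ‖x‖ ≤ R}, ENNReal.ofReal (ρ x) = 0 := by
    intro x hx
    rw [hR x (not_le.1 hx), ENNReal.ofReal_zero]
  rw [setLIntegral_congr_fun hm this]
  simp

variable {κ A B : Type} [Fintype κ] [DecidableEq A]
variable {p : κ → A} {g : A → B} {ρ : V κ → ℝ}

theorem max_zero (h : RD p g ρ) (x : V κ) : ρ x ≤ ρ 0 := by
  rcases isEmpty_or_nonempty κ with h0 | ⟨⟨i⟩⟩
  · exact le_of_eq (congrArg ρ (Subsingleton.elim _ _))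
  have h2 : ρ (-x) = ρ x := h.flat (p i) x (-x) (fun c => by rw [map_neg, norm_neg])
  have h1 := h.comb x (-x) h2 (1 / 2) (by norm_num) (by norm_num)
  have h3 : (1 - 1 / 2 : ℝ) • x + (1 / 2 : ℝ) • (-x) = 0 := by
    rw [smul_neg, ← sub_eq_add_neg, ← sub_smul]
    norm_num
  rw [h3] at h1
  exact h1

theorem meas_le {S : Finset A} {m : ℕ} (h : OB p g S m) (hρ : RD p g ρ) (c : ℝ) (hc0 : 0 < c)
    (T : Set (V κ)) (hTm : MeasurableSet T)
    (hle : ∀ x ∈ T, NN p S m x ≤ 2 * Fintype.card κ * c) :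
    (mu ρ).real T ≤ ρ 0 * Real.exp (2 * Fintype.card κ) * (2 * c) ^ Fintype.card κ := by
  obtain ⟨n, hn⟩ : ∃ n, n = Fintype.card κ := ⟨_, rfl⟩
  have hprod := int_prod (κ := κ) c hc0
  rw [← hn] at hle hprod ⊢
  have hρ0 : 0 ≤ ρ 0 := hρ.nonneg 0
  obtain ⟨K, hK⟩ : ∃ K : ℝ, K = ρ 0 * Real.exp (2 * n) := ⟨_, rfl⟩
  rw [← hK]
  have hK0 : 0 ≤ K := by rw [hK]; positivity
  have hpint : Integrable (fun x : V κ => ∏ i, Real.exp (-|x i| / c)) := by
    apply Integrable.of_integral_ne_zero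
    rw [hprod]
    positivity
  have hgint : Integrable (fun x : V κ => K * ∏ i, Real.exp (-|x i| / c)) := hpint.const_mul _
  have hpos : ∀ x : V κ, 0 ≤ K * ∏ i, Real.exp (-|x i| / c) := fun x =>
    mul_nonneg hK0 (Finset.prod_nonneg fun i _ => (Real.exp_pos _).le)
  have hint : ∫ x : V κ, K * ∏ i, Real.exp (-|x i| / c) = K * (2 * c) ^ n := by
    rw [integral_const_mul, hprod]
  have hpt : ∀ x ∈ T, ρ x ≤ K * ∏ i, Real.exp (-|x i| / c) := by
    intro x hx
    have h1 : ∏ i, Real.exp (-|x i| / c) = Real.exp (-(∑ i, |x i|) / c) := by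
      rw [← Real.exp_sum]
      congr 1
      rw [← Finset.sum_div, Finset.sum_neg_distrib]
    rw [h1, hK, mul_assoc, ← Real.exp_add]
    have h2 : 0 ≤ 2 * (n : ℝ) + -(∑ i, |x i|) / c := by
      have h3 : ∑ i, |x i| ≤ 2 * n * c := (h.abs_le x).trans (hle x hx)
      have h4 : (∑ i, |x i|) / c ≤ 2 * n := by
        rw [div_le_iff₀ hc0]
        exact h3
      rw [neg_div]
      linarith
    have h5 : 1 ≤ Real.exp (2 * (n : ℝ) + -(∑ i, |x i|) / c) := Real.one_le_exp h2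
    calc ρ x ≤ ρ 0 := max_zero hρ x
      _ = ρ 0 * 1 := (mul_one _).symm
      _ ≤ ρ 0 * Real.exp (2 * (n : ℝ) + -(∑ i, |x i|) / c) := mul_le_mul_of_nonneg_left h5 hρ0
  have h0 : mu ρ T = ∫⁻ x in T, ENNReal.ofReal (ρ x) := by
    unfold mu
    exact withDensity_apply _ hTm
  have h1 : ∫⁻ x in T, ENNReal.ofReal (ρ x) ≤
      ∫⁻ x in T, ENNReal.ofReal (K * ∏ i, Real.exp (-|x i| / c)) :=
    setLIntegral_mono' hTm fun x hx => ENNReal.ofReal_le_ofReal (hpt x hx)
  have h2 : ∫⁻ x in T, ENNReal.ofReal (K * ∏ i, Real.exp (-|x i| / c)) ≤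
      ∫⁻ x : V κ, ENNReal.ofReal (K * ∏ i, Real.exp (-|x i| / c)) := setLIntegral_le_lintegral _ _
  have h3 : ∫⁻ x : V κ, ENNReal.ofReal (K * ∏ i, Real.exp (-|x i| / c)) =
      ENNReal.ofReal (K * (2 * c) ^ n) := by
    rw [← hint]
    exact (ofReal_integral_eq_lintegral_ofReal hgint (ae_of_all _ hpos)).symm
  have h4 : mu ρ T ≤ ENNReal.ofReal (K * (2 * c) ^ n) := by
    rw [h0, ← h3]
    exact h1.trans h2
  rw [measureReal_def]
  exact ENNReal.toReal_le_of_le_ofReal (by positivity) h4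

theorem low {S : Finset A} {m : ℕ} (h : OB p g S m) (hρ : RD p g ρ) (hn : 1 ≤ Fintype.card κ)
    (hB : Bdd ρ) (hmu : mu ρ univ = 1) (s : ℝ) (hs : 0 < s)
    (hv : ∀ i, ∫ x, x i ^ 2 ∂(mu ρ) ≤ s) :
    3 / 4 ≤ ρ 0 * (2 * Real.exp 2 * Real.sqrt s) ^ Fintype.card κ := by
  obtain ⟨R, hR⟩ := hB
  obtain ⟨c, hc⟩ : ∃ c : ℝ, c = Real.sqrt s := ⟨_, rfl⟩
  rw [← hc]
  have hc0 : 0 < c := by rw [hc]; exact Real.sqrt_pos.2 hs
  have hcs : c ^ 2 = s := by rw [hc]; exact Real.sq_sqrt hs.le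
  obtain ⟨n, hn'⟩ : ∃ n, n = Fintype.card κ := ⟨_, rfl⟩
  have hle' := meas_le h hρ c hc0
  have hsq := h.sq_le
  rw [← hn'] at hn hle' hsq ⊢
  have hn0 : (0 : ℝ) < n := by exact_mod_cast hn
  have : IsProbabilityMeasure (mu ρ) := ⟨hmu⟩
  have hae := ae_bdd ρ R hR
  have hcoord : ∀ i : κ, Measurable (fun x : V κ => x i) := fun i => by fun_prop
  have hint : ∀ i : κ, Integrable (fun x : V κ => x i ^ 2) (mu ρ) := by
    intro i
    refine Integrable.of_bound ((hcoord i).pow_const 2).aestronglyMeasurable (R ^ 2) ?_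
    filter_upwards [hae] with x hx
    rw [Real.norm_eq_abs, abs_of_nonneg (sq_nonneg _)]
    have h1 : |x i| ≤ ‖x‖ := by
      have h2 := PiLp.norm_apply_le x i
      rwa [Real.norm_eq_abs] at h2
    have h3 : |x i| ≤ R := h1.trans hx
    calc x i ^ 2 = |x i| ^ 2 := (sq_abs _).symm
      _ ≤ R ^ 2 := pow_le_pow_left₀ (abs_nonneg _) h3 2
  have hnmM : Measurable (NN (κ := κ) p S m) := (NN_cont S m).measurable
  have hintsum : Integrable (fun x : V κ => (n : ℝ) * ∑ i, x i ^ 2) (mu ρ) :=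
    (integrable_finsetSum _ fun i _ => hint i).const_mul _
  have hintnm : Integrable (fun x : V κ => NN p S m x ^ 2) (mu ρ) := by
    refine hintsum.mono' (hnmM.pow_const 2).aestronglyMeasurable (ae_of_all _ fun x => ?_)
    rw [Real.norm_eq_abs, abs_of_nonneg (sq_nonneg _)]
    exact hsq x
  have hnm2 : ∫ x, NN p S m x ^ 2 ∂(mu ρ) ≤ n ^ 2 * s := by
    calc ∫ x, NN p S m x ^ 2 ∂(mu ρ) ≤ ∫ x : V κ, (n : ℝ) * ∑ i, x i ^ 2 ∂(mu ρ) :=
          integral_mono hintnm hintsum hsq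
      _ = n * ∑ i : κ, ∫ x : V κ, x i ^ 2 ∂(mu ρ) := by
          rw [integral_const_mul, integral_finsetSum _ fun i _ => hint i]
      _ ≤ n * ∑ i : κ, s := by
          gcongr with i hi
          exact hv i
      _ = n ^ 2 * s := by
          rw [Finset.sum_const, Finset.card_univ, ← hn', nsmul_eq_mul]
          ring
  have hmark := mul_meas_ge_le_integral_of_nonneg (μ := mu ρ) (f := fun x : V κ => NN p S m x ^ 2)
    (ae_of_all _ fun x => sq_nonneg _) hintnm (4 * n ^ 2 * s)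
  have hmark2 : (mu ρ).real {x : V κ | 4 * n ^ 2 * s ≤ NN p S m x ^ 2} ≤ 1 / 4 := by
    have h1 := hmark.trans hnm2
    have h2 : (0 : ℝ) < n ^ 2 * s := by positivity
    have h3 : (n ^ 2 * s) * (4 * (mu ρ).real {x : V κ | 4 * n ^ 2 * s ≤ NN p S m x ^ 2}) ≤
        (n ^ 2 * s) * 1 := by linarith
    have h4 := le_of_mul_le_mul_left h3 h2
    linarith
  obtain ⟨T, hT⟩ : ∃ T : Set (V κ), T = {x : V κ | NN p S m x ≤ 2 * n * c} := ⟨_, rfl⟩
  have hTm : MeasurableSet T := by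
    rw [hT]
    exact measurableSet_le hnmM measurable_const
  have hsub : Tᶜ ⊆ {x : V κ | 4 * n ^ 2 * s ≤ NN p S m x ^ 2} := by
    intro x hx
    have h1 : 2 * n * c < NN p S m x := by
      by_contra hcon
      refine hx ?_
      rw [hT]
      exact not_lt.1 hcon
    show 4 * n ^ 2 * s ≤ NN p S m x ^ 2
    have h2 : (4 : ℝ) * n ^ 2 * s = (2 * n * c) ^ 2 := by
      rw [← hcs]
      ring
    rw [h2]
    have : 0 ≤ 2 * n * c := by positivity
    exact pow_le_pow_left₀ this h1.le 2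
  have hTcompl : (mu ρ).real Tᶜ ≤ 1 / 4 := (measureReal_mono hsub).trans hmark2
  have hTge : 3 / 4 ≤ (mu ρ).real T := by
    have h1 := probReal_compl_eq_one_sub (μ := mu ρ) hTm
    linarith
  have hle2 := hle' T hTm fun x hx => by
    rw [hT] at hx
    exact hx
  refine (hTge.trans hle2).trans (le_of_eq ?_)
  have h6 : Real.exp (2 * n) = Real.exp 2 ^ n := by
    rw [← Real.exp_nat_mul]
    congr 1
    ring
  rw [h6, mul_assoc, ← mul_pow]
  congr 2
  ring

theorem exp6 : Real.exp 6 ≤ 405 := by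
  have h1 : Real.exp 1 < 2.7182818286 := Real.exp_one_lt_d9
  have h2 : Real.exp 6 = Real.exp 1 ^ 6 := by
    rw [← Real.exp_nat_mul]; norm_num
  rw [h2]
  calc Real.exp 1 ^ 6 ≤ (2.7182818286 : ℝ) ^ 6 :=
        pow_le_pow_left₀ (Real.exp_pos 1).le h1.le 6
    _ ≤ 405 := by norm_num

theorem step1 {n : ℕ} (hn : 1 ≤ n) (a q s : ℝ) (ha : 0 ≤ a) (hs : 0 < s)
    (hq : 3 / 4 ≤ q * (2 * Real.exp 2 * Real.sqrt s) ^ n)
    (h : a * (2 * (540 * Real.sqrt s)) ^ n ≤ 1) :
    a * Real.exp (4 * n) ≤ q := by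
  have hs' : 0 < Real.sqrt s := Real.sqrt_pos.2 hs
  obtain ⟨D, hD⟩ : ∃ D : ℝ, D = (2 * Real.exp 2 * Real.sqrt s) ^ n := ⟨_, rfl⟩
  rw [← hD] at hq
  have hDpos : 0 < D := by rw [hD]; positivity
  have key : 4 / 3 * D * Real.exp (4 * n) ≤ (2 * (540 * Real.sqrt s)) ^ n := by
    have e4 : Real.exp (4 * n) = Real.exp 4 ^ n := by
      rw [← Real.exp_nat_mul]; congr 1; ring
    have h43 : (4 / 3 : ℝ) ≤ (4 / 3) ^ n := by
      calc (4 / 3 : ℝ) = (4 / 3) ^ 1 := by norm_num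
        _ ≤ (4 / 3) ^ n := pow_le_pow_right₀ (by norm_num) hn
    calc 4 / 3 * D * Real.exp (4 * n) ≤ (4 / 3) ^ n * D * Real.exp (4 * n) := by
          gcongr
      _ = (4 / 3 * (2 * Real.exp 2 * Real.sqrt s) * Real.exp 4) ^ n := by
          rw [hD, e4, ← mul_pow, ← mul_pow]
      _ ≤ (2 * (540 * Real.sqrt s)) ^ n := by
          apply pow_le_pow_left₀ (by positivity)
          have e6 : Real.exp 2 * Real.exp 4 = Real.exp 6 := by
            rw [← Real.exp_add]; norm_num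
          calc 4 / 3 * (2 * Real.exp 2 * Real.sqrt s) * Real.exp 4
              = 8 / 3 * (Real.exp 2 * Real.exp 4) * Real.sqrt s := by ring
            _ = 8 / 3 * Real.exp 6 * Real.sqrt s := by rw [e6]
            _ ≤ 8 / 3 * 405 * Real.sqrt s := by
                have := exp6
                gcongr
            _ = 2 * (540 * Real.sqrt s) := by ring
  have h1 : a * (4 / 3 * D * Real.exp (4 * n)) ≤ 4 / 3 * D * q := by
    calc a * (4 / 3 * D * Real.exp (4 * n)) ≤ a * (2 * (540 * Real.sqrt s)) ^ n := by gcongr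
      _ ≤ 1 := h
      _ ≤ 4 / 3 * D * q := by nlinarith
  have h2 : 0 < 4 / 3 * D := by positivity
  have h3 : (4 / 3 * D) * (a * Real.exp (4 * n)) ≤ (4 / 3 * D) * q := by
    calc (4 / 3 * D) * (a * Real.exp (4 * n)) = a * (4 / 3 * D * Real.exp (4 * n)) := by ring
      _ ≤ _ := h1
  exact le_of_mul_le_mul_left h3 h2

theorem step2 {n : ℕ} (a b q l : ℝ) (ha : 0 ≤ a) (hb : 0 ≤ b) (hq : 0 < q) (hl : 1 < l)
    (h : q ^ (1 - 1 / l) * b ^ (1 / l) ≤ a) (h1 : a * Real.exp (4 * n) ≤ q) :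
    b ≤ a * Real.exp (-(4 * n * (l - 1))) := by
  have hl0 : 0 < l := by linarith
  have h2 : q ^ (l - 1) * b ≤ a ^ l := by
    have h3 : (q ^ (1 - 1 / l) * b ^ (1 / l)) ^ l ≤ a ^ l :=
      Real.rpow_le_rpow (by positivity) h hl0.le
    rw [Real.mul_rpow (by positivity) (by positivity), ← Real.rpow_mul hq.le,
      ← Real.rpow_mul hb] at h3
    have e1 : (1 - 1 / l) * l = l - 1 := by field_simp
    have e2 : 1 / l * l = 1 := by field_simp
    rw [e1, e2, Real.rpow_one] at h3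
    exact h3
  have h4 : a ^ l = a * a ^ (l - 1) := by
    have : l = 1 + (l - 1) := by ring
    conv_lhs => rw [this]
    rw [Real.rpow_add_of_nonneg ha (by norm_num) (by linarith), Real.rpow_one]
  have h5 : a ≤ q * Real.exp (-(4 * n)) := by
    rw [Real.exp_neg]
    rw [← div_eq_mul_inv, le_div_iff₀ (Real.exp_pos _)]
    exact h1
  have h6 : a ^ (l - 1) ≤ q ^ (l - 1) * Real.exp (-(4 * n * (l - 1))) := by
    calc a ^ (l - 1) ≤ (q * Real.exp (-(4 * n))) ^ (l - 1) :=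
          Real.rpow_le_rpow ha h5 (by linarith)
      _ = q ^ (l - 1) * Real.exp (-(4 * n)) ^ (l - 1) :=
          Real.mul_rpow hq.le (Real.exp_pos _).le
      _ = q ^ (l - 1) * Real.exp (-(4 * n * (l - 1))) := by
          rw [← Real.exp_mul]; congr 2; ring
  have hqp : 0 < q ^ (l - 1) := Real.rpow_pos_of_pos hq _
  have h7 : q ^ (l - 1) * b ≤ q ^ (l - 1) * (a * Real.exp (-(4 * n * (l - 1)))) := by
    calc q ^ (l - 1) * b ≤ a * a ^ (l - 1) := by rw [← h4]; exact h2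
      _ ≤ a * (q ^ (l - 1) * Real.exp (-(4 * n * (l - 1)))) := by gcongr
      _ = _ := by ring
  exact le_of_mul_le_mul_left h7 hqp

theorem scale (l : ℝ) (hl : 0 < l) (g : V κ → ℝ≥0∞) :
    ∫⁻ x, g x = ENNReal.ofReal (l ^ Fintype.card κ) * ∫⁻ y, g (l • y) := by
  obtain ⟨n, hn⟩ : ∃ n, n = Fintype.card κ := ⟨_, rfl⟩
  rw [← hn]
  have h := Measure.map_addHaar_smul (volume : Measure (V κ)) hl.ne'
  have hfin : Module.finrank ℝ (V κ) = n := by simp [hn]
  rw [hfin] at h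
  have e : MeasurableEmbedding fun y : V κ => l • y :=
    (Homeomorph.smulOfNeZero l hl.ne').measurableEmbedding
  have h2 : ∫⁻ y, g (l • y) = ENNReal.ofReal |(l ^ n)⁻¹| * ∫⁻ x, g x := by
    have h3 : ∫⁻ x, g x ∂(Measure.map (fun y : V κ => l • y) volume) = ∫⁻ y, g (l • y) :=
      e.lintegral_map g
    rw [← h3]
    have h4 : Measure.map (fun y : V κ => l • y) volume
        = ENNReal.ofReal |(l ^ n)⁻¹| • (volume : Measure (V κ)) := h
    rw [h4, lintegral_smul_measure, smul_eq_mul]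
  rw [h2, ← mul_assoc, ← ENNReal.ofReal_mul (by positivity)]
  have : l ^ n * |(l ^ n)⁻¹| = 1 := by
    rw [abs_of_pos (by positivity)]
    field_simp
  rw [this, ENNReal.ofReal_one, one_mul]

theorem tail {S : Finset A} {m : ℕ} (h : OB p g S m) (hρ : RD p g ρ) (hn : 1 ≤ Fintype.card κ)
    (hB : Bdd ρ) (h1 : mu ρ univ = 1) (s : ℝ) (hs : 0 < s)
    (hv : ∀ i, ∫ x, x i ^ 2 ∂(mu ρ) ≤ s) (l : ℝ) (hl : 1 ≤ l) :
    mu ρ {x | l * (540 * Real.sqrt s) * Fintype.card κ < NN p S m x} ≤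
      ENNReal.ofReal (Real.exp (-(3 * Fintype.card κ * (l - 1)))) := by
  have hlow := low h hρ hn hB h1 s hs hv
  have hup := up h hρ hn h1
  have hsc := scale (κ := κ) l (by linarith)
  obtain ⟨n, hn'⟩ : ∃ n, n = Fintype.card κ := ⟨_, rfl⟩
  rw [← hn'] at hn hlow hup hsc ⊢
  have hs' : 0 < Real.sqrt s := Real.sqrt_pos.2 hs
  have hl0 : 0 < l := by linarith
  have hn0 : (0 : ℝ) < n := by exact_mod_cast hn
  have hq : 0 < ρ 0 := by
    by_contra hcon
    have hD : 0 < (2 * Real.exp 2 * Real.sqrt s) ^ n := by positivity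
    have : ρ 0 * (2 * Real.exp 2 * Real.sqrt s) ^ n ≤ 0 :=
      mul_nonpos_of_nonpos_of_nonneg (not_lt.1 hcon) hD.le
    linarith
  have hpt : ∀ y : V κ, 540 * Real.sqrt s * n < NN p S m y →
      ρ (l • y) ≤ ρ y * Real.exp (-(4 * n * (l - 1))) := by
    intro y hy
    have ha := hρ.nonneg y
    have h2 : ρ y * (2 * (540 * Real.sqrt s)) ^ n ≤ 1 := by
      refine le_trans ?_ (hup y)
      apply mul_le_mul_of_nonneg_left _ ha
      apply pow_le_pow_left₀ (by positivity)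
      have : 540 * Real.sqrt s ≤ NN p S m y / n := by
        rw [le_div_iff₀ hn0]; exact hy.le
      linarith
    have h3 := step1 hn (ρ y) (ρ 0) s ha hs hlow h2
    rcases eq_or_lt_of_le hl with h | h
    · subst h
      simp
    · refine step2 (ρ y) (ρ (l • y)) (ρ 0) l ha (hρ.nonneg _) hq h ?_ h3
      have ht0 : 0 < 1 / l := by positivity
      have ht1 : 1 / l < 1 := by rw [div_lt_one hl0]; exact h
      have h4 := hρ.logc 0 (l • y) (1 / l) ht0 ht1
      have e : (1 - 1 / l) • (0 : V κ) + (1 / l) • (l • y) = y := by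
        rw [smul_zero, zero_add, smul_smul]
        have : 1 / l * l = 1 := by field_simp
        rw [this, one_smul]
      rw [e] at h4
      exact h4
  obtain ⟨X, hX⟩ : ∃ X : Set (V κ), X = {x | l * (540 * Real.sqrt s) * n < NN p S m x} :=
    ⟨_, rfl⟩
  obtain ⟨Y, hY⟩ : ∃ Y : Set (V κ), Y = {y | 540 * Real.sqrt s * n < NN p S m y} := ⟨_, rfl⟩
  rw [← hX]
  have hXm : MeasurableSet X := by
    rw [hX]
    exact measurableSet_lt measurable_const (NN_cont S m).measurable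
  have hXY : ∀ y : V κ, l • y ∈ X ↔ y ∈ Y := by
    intro y
    rw [hX, hY]
    show l * (540 * Real.sqrt s) * n < NN p S m (l • y) ↔ 540 * Real.sqrt s * n < NN p S m y
    rw [NN_smul S m l hl0.le, mul_assoc, mul_lt_mul_iff_right₀ hl0]
  have e1 : mu ρ X = ∫⁻ x, X.indicator (fun x => ENNReal.ofReal (ρ x)) x := by
    unfold mu
    rw [withDensity_apply _ hXm, lintegral_indicator hXm]
  rw [e1, hsc]
  have e2 : ∫⁻ y, X.indicator (fun x => ENNReal.ofReal (ρ x)) (l • y)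
      ≤ ENNReal.ofReal (Real.exp (-(4 * n * (l - 1)))) := by
    have e3 : ∀ y : V κ, X.indicator (fun x => ENNReal.ofReal (ρ x)) (l • y)
        ≤ ENNReal.ofReal (Real.exp (-(4 * n * (l - 1)))) * ENNReal.ofReal (ρ y) := by
      intro y
      by_cases hy : y ∈ Y
      · rw [indicator_of_mem ((hXY y).2 hy), ← ENNReal.ofReal_mul (Real.exp_pos _).le]
        apply ENNReal.ofReal_le_ofReal
        rw [mul_comm]
        rw [hY] at hy
        exact hpt y hy
      · rw [indicator_of_notMem (fun h => hy ((hXY y).1 h))]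
        exact zero_le
    calc ∫⁻ y, X.indicator (fun x => ENNReal.ofReal (ρ x)) (l • y)
        ≤ ∫⁻ y : V κ, ENNReal.ofReal (Real.exp (-(4 * n * (l - 1)))) * ENNReal.ofReal (ρ y) :=
          lintegral_mono e3
      _ = ENNReal.ofReal (Real.exp (-(4 * n * (l - 1)))) * ∫⁻ y : V κ, ENNReal.ofReal (ρ y) := by
          rw [lintegral_const_mul]
          exact hρ.meas.ennreal_ofReal
      _ = ENNReal.ofReal (Real.exp (-(4 * n * (l - 1)))) := by
          have : ∫⁻ y : V κ, ENNReal.ofReal (ρ y) = 1 := by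
            rw [← h1]; unfold mu
            rw [withDensity_apply _ MeasurableSet.univ, Measure.restrict_univ]
          rw [this, mul_one]
  calc ENNReal.ofReal (l ^ n) * ∫⁻ y, X.indicator (fun x => ENNReal.ofReal (ρ x)) (l • y)
      ≤ ENNReal.ofReal (l ^ n) * ENNReal.ofReal (Real.exp (-(4 * n * (l - 1)))) := by gcongr
    _ = ENNReal.ofReal (l ^ n * Real.exp (-(4 * n * (l - 1)))) := by
        rw [ENNReal.ofReal_mul (by positivity)]
    _ ≤ ENNReal.ofReal (Real.exp (-(3 * n * (l - 1)))) := by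
        apply ENNReal.ofReal_le_ofReal
        have h5 : l ≤ Real.exp (l - 1) := by
          have := Real.add_one_le_exp (l - 1); linarith
        calc l ^ n * Real.exp (-(4 * n * (l - 1)))
            ≤ Real.exp (l - 1) ^ n * Real.exp (-(4 * n * (l - 1))) := by gcongr
          _ = Real.exp (-(3 * n * (l - 1))) := by
              rw [← Real.exp_nat_mul, ← Real.exp_add]; congr 1; ring

end Pool.Agent.TH610.RB
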