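import Pool.Agent.TH610.RB.Hardy
import Pool.Agent.TH610.RB.Tail
import Pool.Agent.TH610.RB.Marg
import Pool.Agent.TH610.RB.Main
import Pool.Agent.TH594.KP.Multi

/-!
# The bound for densities of bounded support, from the parts
-/

set_option autoImplicit false

namespace Pool.Agent.TH610.RB

open MeasureTheory Set
open scoped ENNReal InnerProductSpace
open Pool.Agent.H212R2.KLS (mu Bdd)
open Pool.Agent.H888R2.KT (LC)
open Pool.Agent.TH594.KP (GD)

section lev

variable {κ A B : Type} [Fintype κ] [Fintype A] [DecidableEq A] [DecidableEq B]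
variable {p : κ → A} {g : A → B} {ρ : V κ → ℝ}

/-- the atoms of a block -/
def blk (g : A → B) (β : B) : Finset A := Finset.univ.filter fun a => g a = β

omit [DecidableEq A] in
theorem mem_blk (β : B) (a : A) : a ∈ blk g β ↔ g a = β := by
  unfold blk
  simp

/-- the number of coordinates of a block -/
def nb (g : A → B) (m : B → ℕ) (β : B) : ℕ := (blk g β).card * m β

/-- the set where the norms of the atoms of every block are small on average -/
def lev (p : κ → A) (g : A → B) (m : B → ℕ) (a : ℝ) : Set (V κ) :=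
  {x | ∀ β, NN p (blk g β) (m β) x ≤ a * nb g m β}

theorem lev_closed (m : B → ℕ) (a : ℝ) : IsClosed (lev p g m a) := by
  have h1 : lev p g m a = ⋂ β, {x | NN p (blk g β) (m β) x ≤ a * nb g m β} := by
    ext x
    simp [lev]
  rw [h1]
  exact isClosed_iInter fun β => isClosed_le (NN_cont _ _) continuous_const

theorem lev_mono (m : B → ℕ) {a b : ℝ} (hab : a ≤ b) : lev p g m a ⊆ lev p g m b := by
  intro x hx β
  exact (hx β).trans (mul_le_mul_of_nonneg_right hab (Nat.cast_nonneg _))

theorem lev_convex (m : B → ℕ) (a : ℝ) : Convex ℝ (lev p g m a) := by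
  intro x hx y hy s t hs ht hst β
  have h1 : NN p (blk g β) (m β) (s • x + t • y) ≤
      s * NN p (blk g β) (m β) x + t * NN p (blk g β) (m β) y := by
    rw [← NN_smul _ _ s hs, ← NN_smul _ _ t ht]
    unfold NN nS
    rw [← mul_add, ← Finset.sum_add_distrib]
    refine mul_le_mul_of_nonneg_left (Finset.sum_le_sum fun c _ => ?_) (Real.sqrt_nonneg _)
    rw [map_add]
    exact norm_add_le _ _
  have h2 := mul_le_mul_of_nonneg_left (hx β) hs
  have h3 := mul_le_mul_of_nonneg_left (hy β) ht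
  have h4 : a * nb g m β = s * (a * nb g m β) + t * (a * nb g m β) := by
    rw [← add_mul, hst, one_mul]
  show NN p (blk g β) (m β) (s • x + t • y) ≤ a * nb g m β
  rw [h4]
  linarith

omit [Fintype A] [DecidableEq B] in
theorem g_swap {a a' : A} (haa : g a = g a') (c : A) : g (Equiv.swap a a' c) = g c := by
  by_cases h1 : c = a
  · rw [h1, Equiv.swap_apply_left, haa]
  · by_cases h2 : c = a'
    · rw [h2, Equiv.swap_apply_right, haa]
    · rw [Equiv.swap_apply_of_ne_of_ne h1 h2]

theorem lev_inv (m : B → ℕ) (a : ℝ) (e : V κ ≃ₗᵢ[ℝ] V κ) (he : e ∈ G p g) (x : V κ) :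
    e x ∈ lev p g m a ↔ x ∈ lev p g m a := by
  obtain ⟨c, c', hcc, he⟩ := he
  have h1 : ∀ β, NN p (blk g β) (m β) (e x) = NN p (blk g β) (m β) x := by
    intro β
    unfold NN nS
    congr 1
    refine Finset.sum_equiv (Equiv.swap c c') (fun d => ?_) fun d _ => he d x
    rw [mem_blk, mem_blk, g_swap hcc]
  unfold lev
  simp only [mem_ofPred_eq, h1]

theorem gd_lev (h : GD (G p g) ρ) (m : B → ℕ) (a : ℝ) :
    GD (G p g) ((lev p g m a).indicator ρ) :=
  gd_indicator h _ (lev_convex m a) (lev_closed m a).measurableSet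
    fun e he x => lev_inv m a e he x

end lev

variable {κ A B : Type} [Fintype κ] [Fintype A] [DecidableEq A] [DecidableEq B] [DecidableEq κ]
variable {p : κ → A} {g : A → B} {ρ : V κ → ℝ}

/-- the local Poincaré inequality -/
theorem loc (hρ : GD (G p g) ρ) (hbd : Bdd ρ) (h1 : mu ρ univ = 1) (hSw : Sw p g) (m : B → ℕ)
    (hm : ∀ a, (Finset.univ.filter fun i => p i = a).card = m (g a)) (a : ℝ) (ha : 0 < a)
    (hne : mu ρ (lev p g m a) ≠ 0) (f : V κ → ℝ) (hf : ContDiff ℝ 1 f) :
    ∃ c : ℝ, ∫ x in lev p g m a, (f x - c) ^ 2 ∂(mu ρ) ≤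
      4 * (cH * a ^ 2) * ∫ x in lev p g m a, ‖fderiv ℝ f x‖ ^ 2 ∂(mu ρ) := by
  obtain ⟨U, hU⟩ : ∃ U : Set (V κ), U = lev p g m a := ⟨_, rfl⟩
  have hD : GD (G p g) (U.indicator ρ) := by
    rw [hU]
    exact gd_lev hρ m a
  have hUm : MeasurableSet U := by
    rw [hU]
    exact (lev_closed m a).measurableSet
  have hsupp : ∀ x, U.indicator ρ x ≠ 0 → x ∈ lev p g m a := by
    intro x hx
    by_contra hc
    refine hx ?_
    have : x ∉ U := by rw [hU]; exact hc
    rw [Set.indicator_of_notMem this]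
  rw [← hU] at hne ⊢
  have hres : mu (U.indicator ρ) = (mu ρ).restrict U := mu_indicator ρ U hUm
  have hle : ∀ x, U.indicator ρ x ≤ ρ x :=
    fun x => Set.indicator_le_self' (fun _ _ => hρ.nonneg _) x
  have hbU : Bdd (U.indicator ρ) := by
    obtain ⟨R, hR⟩ := hbd
    refine ⟨R, fun x hx => le_antisymm ?_ (hD.nonneg x)⟩
    rw [← hR x hx]
    exact hle x
  have hfinU : mu (U.indicator ρ) univ ≠ ⊤ := by
    have := (mu_mono ρ (U.indicator ρ) hle univ).trans_eq h1
    exact ne_top_of_le_ne_top ENNReal.one_ne_top this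
  have hneU : mu (U.indicator ρ) ≠ 0 := by
    intro h0
    rw [hres] at h0
    refine hne ?_
    rw [← Measure.restrict_apply_univ, h0]
    simp
  have hLC : LC (U.indicator ρ) := ⟨hD.nonneg, hD.meas, hD.logc, hbU, hfinU, hneU⟩
  have hcH := cH_pos
  have hodd : ∀ i, ∀ f : V κ → ℝ, ContDiff ℝ 1 f → (∀ x, f (rf i x) = - f x) →
      ∫ x, f x ^ 2 ∂(mu (U.indicator ρ)) ≤
        cH * a ^ 2 * ∫ x, ‖fderiv ℝ f x‖ ^ 2 ∂(mu (U.indicator ρ)) := by
    intro i f hf ho
    obtain ⟨S, hS⟩ : ∃ S : Finset A, S = blk g (g (p i)) := ⟨_, rfl⟩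
    have hiS : p i ∈ S := by rw [hS, mem_blk]
    have hdm : ∀ c, dm p c = m (g c) := fun c => by
      unfold dm
      rw [hm]
    have hm1 := dm_ge (p := p) i
    rw [hdm] at hm1
    refine hardy hD hLC hSw a ha i (S.erase (p i)) (Finset.notMem_erase _ _) (fun d hd => ?_)
      (fun d hd => ?_) (fun x hx => ?_) f hf ho
    · have h2 := Finset.mem_of_mem_erase hd
      rw [hS, mem_blk] at h2
      exact h2.symm
    · have h2 := Finset.mem_of_mem_erase hd
      rw [hS, mem_blk] at h2
      rw [hdm, hdm, h2]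
    · have h2 := hsupp x hx (g (p i))
      rw [hdm]
      have h3 : ‖P p (p i) x‖ + nS p (S.erase (p i)) x = nS p S x := by
        unfold nS
        exact Finset.add_sum_erase S (fun c => ‖P p c x‖) hiS
      have h4 : (((S.erase (p i)).card : ℝ) + 1) = S.card := by
        exact_mod_cast Finset.card_erase_add_one hiS
      rw [h3, h4]
      have h5 : 0 < Real.sqrt (m (g (p i))) := Real.sqrt_pos.2 (by linarith)
      have h6 : Real.sqrt (m (g (p i))) * nS p S x ≤
          Real.sqrt (m (g (p i))) * (a * Real.sqrt (m (g (p i))) * S.card) := by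
        have h7 : Real.sqrt (m (g (p i))) * (a * Real.sqrt (m (g (p i))) * S.card) =
            a * (S.card * (Real.sqrt (m (g (p i))) * Real.sqrt (m (g (p i))))) := by ring
        rw [h7, Real.mul_self_sqrt (Nat.cast_nonneg _)]
        unfold NN nb at h2
        rw [← hS] at h2
        push_cast at h2
        exact h2
      exact le_of_mul_le_mul_left h6 h5
  obtain ⟨c, hc⟩ := par hLC (fun i x => hD.inv (rf i) (rf_mem i) x) (cH * a ^ 2) (by positivity)
    hodd f hf
  rw [hres] at hc
  exact ⟨c, hc⟩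

omit [DecidableEq κ] in
/-- the tail of one block -/
theorem tail_blk (hρ : RD p g ρ) (hb : Bdd ρ) (h1 : mu ρ univ = 1) (m : B → ℕ)
    (hm : ∀ a, (Finset.univ.filter fun i => p i = a).card = m (g a)) (β : B)
    (hpos : 1 ≤ nb g m β) (s : ℝ) (hs : 0 < s) (hv : ∀ i, ∫ x, x i ^ 2 ∂(mu ρ) ≤ s) (l : ℝ)
    (hl : 1 ≤ l) :
    mu ρ {x | l * (540 * Real.sqrt s) * nb g m β < NN p (blk g β) (m β) x} ≤
      ENNReal.ofReal (Real.exp (-(3 * nb g m β * (l - 1)))) := by
  obtain ⟨ρ', hρ', hb', hmap⟩ := marginal hρ hb h1 β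
  obtain ⟨p', hp'⟩ : ∃ p' : {i // g (p i) = β} → A, p' = fun i => p i.1 := ⟨_, rfl⟩
  rw [← hp'] at hρ'
  have hcrd : ∀ a ∈ blk g β, (Finset.univ.filter fun i => p' i = a).card = m β := by
    intro a ha
    rw [mem_blk] at ha
    have hma : (Finset.univ.filter fun i => p i = a).card = m β := by rw [hm a, ha]
    rw [← hma]
    refine Finset.card_bij (fun i _ => i.1) ?_ ?_ ?_
    · intro i hi
      rw [Finset.mem_filter, hp'] at hi
      rw [Finset.mem_filter]
      exact ⟨Finset.mem_univ _, hi.2⟩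
    · intro i _ j _ hij
      exact Subtype.ext hij
    · intro i hi
      rw [Finset.mem_filter] at hi
      refine ⟨⟨i, by rw [hi.2, ha]⟩, ?_, rfl⟩
      rw [Finset.mem_filter, hp']
      exact ⟨Finset.mem_univ _, hi.2⟩
  have hOB : OB p' g (blk g β) (m β) := by
    refine ⟨fun i => ?_, fun a ha c hc => ?_, ?_, hcrd⟩
    · rw [mem_blk, hp']
      exact i.2
    · rw [mem_blk] at ha hc
      rw [ha, hc]
    · by_contra hcon
      have : m β = 0 := by omega
      unfold nb at hpos
      rw [this, mul_zero] at hpos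
      omega
  have hcard : Fintype.card {i // g (p i) = β} = nb g m β := hOB.card
  have hmeas : Measurable (rs (κ := κ) fun i => g (p i) = β) :=
    (LinearMap.continuous_of_finiteDimensional _).measurable
  have h1' : mu ρ' univ = 1 := by
    rw [← hmap, Measure.map_apply hmeas MeasurableSet.univ, preimage_univ, h1]
  have hv' : ∀ i : {i // g (p i) = β}, ∫ x, x i ^ 2 ∂(mu ρ') ≤ s := by
    intro i
    have hc : Continuous fun x : V {i // g (p i) = β} => x i ^ 2 := by fun_prop
    rw [← hmap, integral_map hmeas.aemeasurable hc.aestronglyMeasurable]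
    exact hv i.1
  have hn : 1 ≤ Fintype.card {i // g (p i) = β} := by rw [hcard]; exact hpos
  have key := tail hOB hρ' hn hb' h1' s hs hv' l hl
  rw [hcard] at key
  refine le_trans (le_of_eq ?_) key
  have hset : MeasurableSet {x : V {i // g (p i) = β} |
      l * (540 * Real.sqrt s) * nb g m β < NN p' (blk g β) (m β) x} :=
    measurableSet_lt measurable_const (NN_cont _ _).measurable
  rw [← hmap, Measure.map_apply hmeas hset]
  congr 1
  ext x
  show l * (540 * Real.sqrt s) * nb g m β < NN p (blk g β) (m β) x ↔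
    l * (540 * Real.sqrt s) * nb g m β < NN p' (blk g β) (m β) (rs (fun i => g (p i) = β) x)
  have h2 : NN p' (blk g β) (m β) (rs (fun i => g (p i) = β) x) = NN p (blk g β) (m β) x := by
    unfold NN nS
    congr 1
    refine Finset.sum_congr rfl fun a ha => ?_
    rw [mem_blk] at ha
    have h3 : ‖P p' a (rs (fun i => g (p i) = β) x)‖ ^ 2 = ‖P p a x‖ ^ 2 := by
      rw [norm_sq_P, norm_sq_P,
        ← Fintype.sum_subtype_add_sum_subtype (fun i => g (p i) = β) fun i =>
          if p i = a then x i ^ 2 else 0]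
      have h4 : ∑ i : {i // ¬ g (p i) = β}, (if p i.1 = a then x i.1 ^ 2 else 0) = 0 := by
        refine Finset.sum_eq_zero fun i _ => ?_
        rw [if_neg]
        intro h5
        exact i.2 (by rw [h5]; exact ha)
      rw [h4, add_zero]
      refine Finset.sum_congr rfl fun i _ => ?_
      rw [hp']
      rfl
    exact (sq_eq_sq₀ (norm_nonneg _) (norm_nonneg _)).1 h3
  rw [h2]

variable [Fintype B]

omit [DecidableEq κ] in
/-- the tail of all blocks -/
theorem tails (hρ : RD p g ρ) (hb : Bdd ρ) (h1 : mu ρ univ = 1) (m : B → ℕ)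
    (hm : ∀ a, (Finset.univ.filter fun i => p i = a).card = m (g a))
    (hpos : ∀ β, 1 ≤ nb g m β) (T : ℝ) (hT0 : 0 ≤ T)
    (hT : ∑ β, Real.exp (-(T * nb g m β)) ≤ 1) (s : ℝ) (hs : 0 < s)
    (hv : ∀ i, ∫ x, x i ^ 2 ∂(mu ρ) ≤ s) (t : ℝ) (ht : 0 ≤ t) :
    mu ρ (lev p g m ((1 + T + t) * (540 * Real.sqrt s)))ᶜ ≤
      ENNReal.ofReal (Real.exp (-(t / 2))) := by
  have h2 : (lev p g m ((1 + T + t) * (540 * Real.sqrt s)))ᶜ ⊆
      ⋃ β ∈ (Finset.univ : Finset B),
        {x | (1 + T + t) * (540 * Real.sqrt s) * nb g m β < NN p (blk g β) (m β) x} := by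
    intro x hx
    have h3 : ¬ ∀ β, NN p (blk g β) (m β) x ≤ (1 + T + t) * (540 * Real.sqrt s) * nb g m β := hx
    push Not at h3
    obtain ⟨β, hβ⟩ := h3
    exact mem_biUnion (Finset.mem_univ β) hβ
  refine (measure_mono h2).trans ((measure_biUnion_finset_le _ _).trans ?_)
  have h3 : ∀ β ∈ (Finset.univ : Finset B),
      mu ρ {x | (1 + T + t) * (540 * Real.sqrt s) * nb g m β < NN p (blk g β) (m β) x} ≤
        ENNReal.ofReal (Real.exp (-(t / 2)) * Real.exp (-(T * nb g m β))) := by
    intro β _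
    refine (tail_blk hρ hb h1 m hm β (hpos β) s hs hv (1 + T + t) (by linarith)).trans ?_
    refine ENNReal.ofReal_le_ofReal ?_
    rw [← Real.exp_add, Real.exp_le_exp]
    have h4 : (1 : ℝ) ≤ nb g m β := by exact_mod_cast hpos β
    have h5 : 0 ≤ T * nb g m β := mul_nonneg hT0 (by linarith)
    have h6 : t ≤ nb g m β * t := le_mul_of_one_le_left ht h4
    nlinarith
  refine (Finset.sum_le_sum h3).trans ?_
  rw [← ENNReal.ofReal_sum_of_nonneg fun β _ => by positivity]
  refine ENNReal.ofReal_le_ofReal ?_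
  rw [← Finset.mul_sum]
  exact mul_le_of_le_one_right (Real.exp_pos _).le hT

/-- the constant -/
noncomputable def CC : ℝ := 640000 * cH * 540 ^ 2

theorem CC_pos : 0 < CC := by
  unfold CC
  have := cH_pos
  positivity

/-- the bound for bounded support, second moments -/
theorem core (hSw : Sw p g) (m : B → ℕ)
    (hm : ∀ a, (Finset.univ.filter fun i => p i = a).card = m (g a))
    (hpos : ∀ β, 1 ≤ nb g m β) (T : ℝ) (hT0 : 0 ≤ T)
    (hT : ∑ β, Real.exp (-(T * nb g m β)) ≤ 1) : SC (G p g) (CC * (1 + T) ^ 2) := by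
  intro ρ hρ hbd h1 s hs hmom f hf hf1
  have hprob : IsProbabilityMeasure (mu ρ) := ⟨h1⟩
  have hcH := cH_pos
  have hss : 0 < Real.sqrt s := Real.sqrt_pos.2 hs
  have hRD : RD p g ρ := GD.rd hSw hρ
  have hball : ∃ R, (mu ρ) (Metric.closedBall 0 R)ᶜ = 0 := by
    obtain ⟨R, hR⟩ := hbd
    refine ⟨R, ?_⟩
    rw [mu, withDensity_apply_eq_zero' (hρ.meas.ennreal_ofReal.aemeasurable)]
    refine measure_mono_null ?_ (measure_empty (μ := (volume : Measure (V κ))))
    intro x hx
    refine hx.1 ?_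
    have : R < ‖x‖ := by simpa using hx.2
    simp [hR x this]
  have hcoord : ∀ i : κ, ∫ x, x i ^ 2 ∂(mu ρ) ≤ s := by
    intro i
    have h2 := hmom (EuclideanSpace.single i 1)
    have h3 : ∀ x : V κ, ⟪EuclideanSpace.single i (1:ℝ), x⟫_ℝ = x i := by
      intro x
      rw [EuclideanSpace.inner_single_left]
      simp
    simp_rw [h3] at h2
    simpa using h2
  have htail := tails hRD hbd h1 m hm hpos T hT0 hT s hs hcoord
  have hmain := Pool.Agent.TH594.KP.Mul.multi0 (mu ρ) hball
    (fun t => lev p g m ((1 + T + t) * (540 * Real.sqrt s)))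
    (fun t => (lev_closed m _).measurableSet)
    (fun t t' htt => lev_mono m (mul_le_mul_of_nonneg_right (by linarith) (by positivity)))
    (fun t ht => htail t (by linarith))
    (16 * cH * 540 ^ 2 * (1 + T) ^ 2 * s) (by positivity)
    (fun t ht h hh => by
      have hne : mu ρ (lev p g m ((1 + T + t) * (540 * Real.sqrt s))) ≠ 0 := by
        intro h0
        have h2 := htail t (by linarith)
        have h3 : mu ρ (lev p g m ((1 + T + t) * (540 * Real.sqrt s))) +
            mu ρ (lev p g m ((1 + T + t) * (540 * Real.sqrt s)))ᶜ = 1 := by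
          rw [measure_add_measure_compl (lev_closed m _).measurableSet, h1]
        rw [h0, zero_add] at h3
        rw [h3] at h2
        have h4 : (1 : ℝ≥0∞) ≤ ENNReal.ofReal (Real.exp (-(t / 2))) := h2
        rw [ENNReal.one_le_ofReal, Real.one_le_exp_iff] at h4
        linarith
      obtain ⟨c, hc⟩ := loc hρ hbd h1 hSw m hm ((1 + T + t) * (540 * Real.sqrt s))
        (by positivity) hne h hh
      refine ⟨c, hc.trans (mul_le_mul_of_nonneg_right ?_ (integral_nonneg fun x => by positivity))⟩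
      have e1 : ((1 + T + t) * (540 * Real.sqrt s)) ^ 2 = (1 + T + t) ^ 2 * 540 ^ 2 * s := by
        have : ((1 + T + t) * (540 * Real.sqrt s)) ^ 2 =
            (1 + T + t) ^ 2 * 540 ^ 2 * (Real.sqrt s ^ 2) := by
          ring
        rw [this, Real.sq_sqrt hs.le]
      rw [e1]
      have h5 : (1 + T + t) ^ 2 ≤ 4 * ((1 + T) ^ 2 * t ^ 2) := by
        have h6 : 1 + T + t ≤ 2 * ((1 + T) * t) := by nlinarith
        calc (1 + T + t) ^ 2 ≤ (2 * ((1 + T) * t)) ^ 2 := pow_le_pow_left₀ (by positivity) h6 2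
          _ = _ := by ring
      have h7 : (1 + T + t) ^ 2 * 540 ^ 2 * s ≤ 4 * ((1 + T) ^ 2 * t ^ 2) * 540 ^ 2 * s := by
        gcongr
      calc 4 * (cH * ((1 + T + t) ^ 2 * 540 ^ 2 * s))
          ≤ 4 * (cH * (4 * ((1 + T) ^ 2 * t ^ 2) * 540 ^ 2 * s)) := by gcongr
        _ = 16 * cH * 540 ^ 2 * (1 + T) ^ 2 * s * t ^ 2 := by ring)
    f hf hf1
  refine hmain.trans (le_of_eq ?_)
  unfold CC
  ring

end Pool.Agent.TH610.RB
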