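import Pool.Agent.TH610.RB.Geo

/-!
# Derivatives and divergences of vector fields which are combinations of the parts
-/

set_option autoImplicit false

namespace Pool.Agent.TH610.RB

open MeasureTheory Set Filter
open scoped ENNReal InnerProductSpace Topology

variable {κ A : Type} [Fintype κ] [DecidableEq A]

theorem hd_sq (u : ℝ) : HasDerivAt (fun u : ℝ => (max u 0) ^ 2) (2 * max u 0) u := by
  rcases lt_trichotomy u 0 with h | h | h
  · have h1 : (fun u : ℝ => (max u 0) ^ 2) =ᶠ[nhds u] fun _ => 0 := by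
      filter_upwards [Iio_mem_nhds h] with v hv
      rw [max_eq_right (le_of_lt hv)]
      norm_num
    rw [max_eq_right h.le, mul_zero]
    exact (hasDerivAt_const u (0 : ℝ)).congr_of_eventuallyEq h1
  · subst h
    have h1 : HasDerivWithinAt (fun u : ℝ => (max u 0) ^ 2) 0 (Iic 0) 0 := by
      refine (hasDerivWithinAt_const (0 : ℝ) (Iic 0) (0 : ℝ)).congr ?_ ?_
      · intro v hv
        rw [max_eq_right hv]
        norm_num
      · norm_num
    have h2 : HasDerivWithinAt (fun u : ℝ => (max u 0) ^ 2) 0 (Ici 0) 0 := by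
      have h3 : HasDerivWithinAt (fun u : ℝ => u ^ 2) 0 (Ici 0) 0 := by
        have h4 := (hasDerivAt_pow 2 (0 : ℝ)).hasDerivWithinAt (s := Ici 0)
        simpa using h4
      refine h3.congr ?_ ?_
      · intro v hv
        rw [max_eq_left hv]
      · norm_num
    have h5 := h1.union h2
    rw [Iic_union_Ici, hasDerivWithinAt_univ] at h5
    simpa using h5
  · have h1 : (fun u : ℝ => (max u 0) ^ 2) =ᶠ[nhds u] fun u => u ^ 2 := by
      filter_upwards [Ioi_mem_nhds h] with v hv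
      rw [max_eq_left (le_of_lt hv)]
    rw [max_eq_left h.le]
    have h2 : HasDerivAt (fun u : ℝ => u ^ 2) (2 * u) u := by
      have h4 := hasDerivAt_pow 2 u
      simpa using h4
    exact h2.congr_of_eventuallyEq h1

theorem cd_sq : ContDiff ℝ 1 (fun u : ℝ => (max u 0) ^ 2) := by
  rw [contDiff_one_iff_deriv]
  refine ⟨fun u => (hd_sq u).differentiableAt, ?_⟩
  have : deriv (fun u : ℝ => (max u 0) ^ 2) = fun u => 2 * max u 0 :=
    funext fun u => (hd_sq u).deriv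
  rw [this]
  fun_prop

/-- divergence of a vector field -/
noncomputable def dv (w : V κ → V κ) (x : V κ) : ℝ :=
  LinearMap.trace ℝ (V κ) (fderiv ℝ w x : V κ →ₗ[ℝ] V κ)

theorem trace_smulRight (φ : V κ →L[ℝ] ℝ) (v : V κ) :
    LinearMap.trace ℝ (V κ) ((φ.smulRight v : V κ →L[ℝ] V κ) : V κ →ₗ[ℝ] V κ) = φ v := by
  classical
  rw [LinearMap.trace_eq_sum_inner _ (EuclideanSpace.basisFun κ ℝ)]
  have h : v = ∑ k, (v k) • (EuclideanSpace.single k (1 : ℝ) : V κ) := by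
    ext j
    simp [Finset.sum_apply, Pi.single_apply]
  have h2 : φ v = ∑ k, (v k) * φ (EuclideanSpace.single k (1 : ℝ)) := by
    conv_lhs => rw [h]
    rw [map_sum]
    refine Finset.sum_congr rfl ?_
    intro k _
    rw [map_smul, smul_eq_mul]
  rw [h2]
  refine Finset.sum_congr rfl fun k _ => ?_
  rw [EuclideanSpace.basisFun_apply, EuclideanSpace.inner_single_left]
  simp [mul_comm]

theorem dv_smul (φ : V κ → ℝ) (L : V κ →L[ℝ] V κ) (x : V κ) (hφ : DifferentiableAt ℝ φ x) :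
    dv (fun x => φ x • L x) x =
      φ x * LinearMap.trace ℝ (V κ) (L : V κ →ₗ[ℝ] V κ) + fderiv ℝ φ x (L x) := by
  have h1 : HasFDerivAt (fun x => φ x • L x) (φ x • L + (fderiv ℝ φ x).smulRight (L x)) x :=
    hφ.hasFDerivAt.smul L.hasFDerivAt
  unfold dv
  rw [h1.fderiv, ContinuousLinearMap.toLinearMap_add, ContinuousLinearMap.toLinearMap_smul, map_add, map_smul,
    trace_smulRight, smul_eq_mul]

theorem dv_const (φ : V κ → ℝ) (v : V κ) (x : V κ) (hφ : DifferentiableAt ℝ φ x) :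
    dv (fun x => φ x • v) x = fderiv ℝ φ x v := by
  have h1 : HasFDerivAt (fun x => φ x • v) ((fderiv ℝ φ x).smulRight v) x :=
    hφ.hasFDerivAt.smul_const v
  unfold dv
  rw [h1.fderiv, trace_smulRight]

theorem dv_add (v w : V κ → V κ) (x : V κ) (hv : DifferentiableAt ℝ v x)
    (hw : DifferentiableAt ℝ w x) : dv (fun x => v x + w x) x = dv v x + dv w x := by
  unfold dv
  rw [fderiv_fun_add hv hw, ContinuousLinearMap.toLinearMap_add, map_add]

theorem dv_sub (v w : V κ → V κ) (x : V κ) (hv : DifferentiableAt ℝ v x)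
    (hw : DifferentiableAt ℝ w x) : dv (fun x => v x - w x) x = dv v x - dv w x := by
  unfold dv
  rw [fderiv_fun_sub hv hw, ContinuousLinearMap.toLinearMap_sub, map_sub]

theorem dv_sum {ι : Type} (S : Finset ι) (w : ι → V κ → V κ) (x : V κ)
    (hw : ∀ i ∈ S, DifferentiableAt ℝ (w i) x) :
    dv (fun x => ∑ i ∈ S, w i x) x = ∑ i ∈ S, dv (w i) x := by
  unfold dv
  rw [fderiv_fun_sum hw, ContinuousLinearMap.toLinearMap_sum, map_sum]

/-! ### functions of the squared norm of a part -/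

theorem hf_nsq (p : κ → A) (a : A) (x : V κ) :
    HasFDerivAt (fun x => ‖P p a x‖ ^ 2)
      ((2 : ℝ) • (innerSL ℝ (P p a x)).comp (P p a : V κ →L[ℝ] V κ)) x := by
  have h1 := ((P p a).hasFDerivAt (x := x)).norm_sq
  rw [← Nat.cast_smul_eq_nsmul ℝ] at h1
  simpa using h1

theorem cd_nsq (p : κ → A) (a : A) : ContDiff ℝ 1 fun x : V κ => ‖P p a x‖ ^ 2 :=
  ((P p a).contDiff).norm_sq ℝ

theorem fd_nsq (p : κ → A) (a : A) (x v : V κ) :
    fderiv ℝ (fun x => ‖P p a x‖ ^ 2) x v = 2 * ⟪P p a x, v⟫_ℝ := by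
  rw [(hf_nsq p a x).fderiv]
  show (2 : ℝ) * ⟪P p a x, P p a v⟫_ℝ = _
  rw [← inner_P, P_self]

theorem fd_comp (p : κ → A) (a : A) (ζ : ℝ → ℝ) (d : ℝ) (x v : V κ)
    (h : HasDerivAt ζ d (‖P p a x‖ ^ 2)) :
    fderiv ℝ (fun x => ζ (‖P p a x‖ ^ 2)) x v = d * (2 * ⟪P p a x, v⟫_ℝ) := by
  have h1 : HasFDerivAt (fun x : V κ => ζ (‖P p a x‖ ^ 2))
      (d • ((2 : ℝ) • (innerSL ℝ (P p a x)).comp (P p a : V κ →L[ℝ] V κ))) x :=
    h.comp_hasFDerivAt x (hf_nsq p a x)
  rw [h1.fderiv]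
  show d * ((2 : ℝ) * ⟪P p a x, P p a v⟫_ℝ) = _
  rw [← inner_P, P_self]

/-! ### the cutoff functions -/

/-- cutoff of the inward motion -/
noncomputable def tt (R s : ℝ) : ℝ := (max (1 - s / R ^ 2) 0) ^ 2

/-- switching on the inward motion -/
noncomputable def hh (r s : ℝ) : ℝ := (max (s - r ^ 2) 0) ^ 2 / (r ^ 2 + s) ^ 2

theorem tt_nonneg (R s : ℝ) : 0 ≤ tt R s := sq_nonneg _

theorem tt_zero {R s : ℝ} (hR : 0 < R) (hs : R ^ 2 ≤ s) : tt R s = 0 := by
  unfold tt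
  have h1 : 1 ≤ s / R ^ 2 := by rwa [one_le_div (by positivity)]
  rw [max_eq_right (by linarith)]
  norm_num

theorem hh_nonneg (r s : ℝ) : 0 ≤ hh r s := by unfold hh; positivity

theorem hh_zero {r s : ℝ} (hs : s ≤ r ^ 2) : hh r s = 0 := by
  unfold hh
  rw [max_eq_right (by linarith)]
  norm_num

theorem hh_le {r s : ℝ} (hr : 0 < r) (hs : 0 ≤ s) : hh r s ≤ 1 := by
  unfold hh
  rw [div_le_one (by positivity)]
  refine pow_le_pow_left₀ (le_max_right _ _) (max_le ?_ (by positivity)) 2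
  have : 0 < r ^ 2 := by positivity
  linarith

theorem hh_ge {r s : ℝ} (hr : 0 < r) (hs : 3 * r ^ 2 ≤ s) : 1 / 4 ≤ hh r s := by
  unfold hh
  have h0 : 0 < r ^ 2 := by positivity
  have hs0 : 0 < r ^ 2 + s := by linarith
  rw [max_eq_left (by linarith), ← div_pow]
  have h1 : 1 / 2 ≤ (s - r ^ 2) / (r ^ 2 + s) := by
    rw [div_le_div_iff₀ (by norm_num) hs0]
    linarith
  calc (1 : ℝ) / 4 = (1 / 2) ^ 2 := by norm_num
    _ ≤ _ := pow_le_pow_left₀ (by norm_num) h1 2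

theorem tt_mul (R q : ℝ) (hR : 0 < R) (hq : 0 ≤ q) : tt R (q ^ 2) * q ≤ 2 / 5 * R := by
  obtain ⟨u, hu⟩ : ∃ u, u = q / R := ⟨_, rfl⟩
  have hu0 : 0 ≤ u := by rw [hu]; positivity
  have hq' : q = u * R := by rw [hu]; field_simp
  have e : tt R (q ^ 2) = (max (1 - u ^ 2) 0) ^ 2 := by
    unfold tt
    rw [hu, div_pow]
  rw [e, hq']
  rcases le_total (u ^ 2) 1 with h | h
  · rw [max_eq_left (by linarith)]
    have hu1 : u ≤ 1 := by nlinarith
    have h1 : (1 - u ^ 2) ^ 2 * u ≤ 2 / 5 := by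
      have h2 : (1 - u ^ 2) ^ 2 * u ≤ (1 - u ^ 2) * u := by
        have h3 : 0 ≤ (1 - u ^ 2) * u := mul_nonneg (by linarith) hu0
        nlinarith [mul_nonneg h3 (sq_nonneg u)]
      have h3 : (1 - u ^ 2) * u ≤ 2 / 5 := by
        nlinarith [mul_nonneg hu0 (sq_nonneg (u - 577 / 1000)), sq_nonneg (u - 577 / 1000)]
      exact h2.trans h3
    calc (1 - u ^ 2) ^ 2 * (u * R) = ((1 - u ^ 2) ^ 2 * u) * R := by ring
      _ ≤ 2 / 5 * R := mul_le_mul_of_nonneg_right h1 hR.le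
  · rw [max_eq_right (by linarith)]
    have : 0 ≤ 2 / 5 * R := by positivity
    simpa using this

theorem hd_tt (R s : ℝ) : HasDerivAt (tt R) (-(2 / R ^ 2) * max (1 - s / R ^ 2) 0) s := by
  have h1 : HasDerivAt (fun s : ℝ => 1 - s / R ^ 2) (-(1 / R ^ 2)) s := by
    simpa using ((hasDerivAt_id s).div_const (R ^ 2)).const_sub 1
  have h2 := (hd_sq (1 - s / R ^ 2)).comp s h1
  have e : 2 * max (1 - s / R ^ 2) 0 * -(1 / R ^ 2) = -(2 / R ^ 2) * max (1 - s / R ^ 2) 0 := by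
    ring
  rw [e] at h2
  exact h2

theorem cd_tt (R : ℝ) (p : κ → A) (a : A) : ContDiff ℝ 1 fun x : V κ => tt R (‖P p a x‖ ^ 2) :=
  cd_sq.comp (contDiff_const.sub ((cd_nsq p a).div_const _))

theorem cd_hh {r : ℝ} (hr : 0 < r) (p : κ → A) (a : A) :
    ContDiff ℝ 1 fun x : V κ => hh r (‖P p a x‖ ^ 2) := by
  unfold hh
  refine ContDiff.div (cd_sq.comp ((cd_nsq p a).sub contDiff_const))
    ((contDiff_const.add (cd_nsq p a)).pow 2) fun x => ?_
  positivity

theorem cd_is {r : ℝ} (hr : 0 < r) (p : κ → A) (a : A) :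
    ContDiff ℝ 1 fun x : V κ => (Real.sqrt (r ^ 2 + ‖P p a x‖ ^ 2))⁻¹ := by
  refine ContDiff.inv ?_ fun x => ?_
  · exact (contDiff_const.add (cd_nsq p a)).sqrt fun x => by positivity
  · have : 0 < r ^ 2 + ‖P p a x‖ ^ 2 := by positivity
    exact (Real.sqrt_pos.2 this).ne'

end Pool.Agent.TH610.RB
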