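import Pool.Agent.TH610.RB.Fd

/-!
# The first vector field: an atom far from the origin moves outwards, the others move inwards
-/

set_option autoImplicit false

namespace Pool.Agent.TH610.RB

open MeasureTheory Set Filter
open scoped ENNReal InnerProductSpace Topology

variable {κ A B : Type} [Fintype κ] [DecidableEq A]
variable {p : κ → A} {g : A → B} {ρ : V κ → ℝ}

/-- the inverse of the regularised norm of the part -/
noncomputable def al (p : κ → A) (a : A) (r : ℝ) (x : V κ) : ℝ :=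
  (Real.sqrt (r ^ 2 + ‖P p a x‖ ^ 2))⁻¹

/-- the coefficient of the inward motion of the atom `d` -/
noncomputable def be (p : κ → A) (a d : A) (r R : ℝ) (x : V κ) : ℝ :=
  hh r (‖P p a x‖ ^ 2) * tt R (‖P p d x‖ ^ 2)

/-- the first field: the atom `a` moves outwards, the atoms in `S` move inwards -/
noncomputable def w1 (p : κ → A) (a : A) (S : Finset A) (r R c : ℝ) (x : V κ) : V κ :=
  al p a r x • P p a x - ∑ d ∈ S, (c * be p a d r R x) • P p d x

theorem al_pos {r : ℝ} (hr : 0 < r) (a : A) (x : V κ) : 0 < al p a r x := by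
  unfold al
  have : 0 < r ^ 2 + ‖P p a x‖ ^ 2 := by positivity
  have := Real.sqrt_pos.2 this
  positivity

theorem al_mul_le {r : ℝ} (hr : 0 < r) (a : A) (x : V κ) : al p a r x * ‖P p a x‖ ≤ 1 := by
  unfold al
  have h0 : 0 < r ^ 2 + ‖P p a x‖ ^ 2 := by positivity
  have h1 := Real.sqrt_pos.2 h0
  rw [inv_mul_le_iff₀ h1, mul_one]
  refine Real.le_sqrt_of_sq_le ?_
  have : 0 < r ^ 2 := by positivity
  linarith

theorem al_mul_ge {r : ℝ} (hr : 0 < r) (a : A) (x : V κ) (hx : r ≤ ‖P p a x‖) :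
    2 / 5 ≤ al p a r x * ‖P p a x‖ := by
  unfold al
  have h0 : 0 < r ^ 2 + ‖P p a x‖ ^ 2 := by positivity
  have h1 := Real.sqrt_pos.2 h0
  have hp : 0 < ‖P p a x‖ := lt_of_lt_of_le hr hx
  rw [inv_mul_eq_div, le_div_iff₀ h1]
  have h2 : Real.sqrt (r ^ 2 + ‖P p a x‖ ^ 2) ≤ 5 / 2 * ‖P p a x‖ := by
    refine Real.sqrt_le_left (by positivity) |>.mpr ?_
    have : r ^ 2 ≤ ‖P p a x‖ ^ 2 := pow_le_pow_left₀ hr.le hx 2
    nlinarith
  linarith

theorem al_le {r : ℝ} (hr : 0 < r) (a : A) (x : V κ) : al p a r x ≤ r⁻¹ := by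
  unfold al
  have h1 : r ≤ Real.sqrt (r ^ 2 + ‖P p a x‖ ^ 2) := by
    refine Real.le_sqrt_of_sq_le ?_
    have := sq_nonneg ‖P p a x‖
    linarith
  exact inv_anti₀ hr h1

theorem al_le_far {r : ℝ} (hr : 0 < r) (a : A) (x : V κ) (hx : 3 * r ^ 2 ≤ ‖P p a x‖ ^ 2) :
    al p a r x ≤ (2 * r)⁻¹ := by
  unfold al
  have h1 : 2 * r ≤ Real.sqrt (r ^ 2 + ‖P p a x‖ ^ 2) := by
    refine Real.le_sqrt_of_sq_le ?_
    nlinarith
  exact inv_anti₀ (by positivity) h1

theorem be_nonneg (a d : A) (r R : ℝ) (x : V κ) : 0 ≤ be p a d r R x :=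
  mul_nonneg (hh_nonneg _ _) (tt_nonneg _ _)

theorem be_mul {r R : ℝ} (hr : 0 < r) (hR : 0 < R) (a d : A) (x : V κ) :
    be p a d r R x * ‖P p d x‖ ≤ 2 / 5 * R := by
  unfold be
  have h1 := tt_mul R ‖P p d x‖ hR (norm_nonneg _)
  have h2 : 0 ≤ tt R (‖P p d x‖ ^ 2) * ‖P p d x‖ := mul_nonneg (tt_nonneg _ _) (norm_nonneg _)
  have h3 := hh_le hr (sq_nonneg ‖P p a x‖)
  have h4 := hh_nonneg r (‖P p a x‖ ^ 2)
  calc hh r (‖P p a x‖ ^ 2) * tt R (‖P p d x‖ ^ 2) * ‖P p d x‖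
      = hh r (‖P p a x‖ ^ 2) * (tt R (‖P p d x‖ ^ 2) * ‖P p d x‖) := by ring
    _ ≤ 1 * (2 / 5 * R) := mul_le_mul h3 h1 h2 (by norm_num)
    _ = _ := one_mul _

theorem cd_al {r : ℝ} (hr : 0 < r) (a : A) : ContDiff ℝ 1 (al (κ := κ) p a r) := cd_is hr p a

theorem cd_be {r : ℝ} (hr : 0 < r) (R : ℝ) (a d : A) :
    ContDiff ℝ 1 (be (κ := κ) p a d r R) := (cd_hh hr p a).mul (cd_tt R p d)

theorem cd_w1 {r : ℝ} (hr : 0 < r) (R c : ℝ) (a : A) (S : Finset A) :
    ContDiff ℝ 1 (w1 (κ := κ) p a S r R c) := by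
  unfold w1
  refine ContDiff.sub ((cd_al hr a).smul (P p a).contDiff) (ContDiff.sum fun d _ => ?_)
  exact (contDiff_const.mul (cd_be hr R a d)).smul (P p d).contDiff

theorem sum_be {r R c : ℝ} (hr : 0 < r) (hR : 0 < R) (hc : 0 ≤ c) (a : A) (S : Finset A)
    (hS : c * R * S.card ≤ 1) (x : V κ) :
    ∑ d ∈ S, c * be p a d r R x * ‖P p d x‖ ≤ 2 / 5 := by
  have h1 : ∀ d ∈ S, c * be p a d r R x * ‖P p d x‖ ≤ c * (2 / 5 * R) := fun d _ => by
    rw [mul_assoc]
    exact mul_le_mul_of_nonneg_left (be_mul hr hR a d x) hc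
  refine (Finset.sum_le_sum h1).trans ?_
  rw [Finset.sum_const, nsmul_eq_mul]
  nlinarith

theorem w1_norm {r R c : ℝ} (hr : 0 < r) (hR : 0 < R) (hc : 0 ≤ c) (a : A) (S : Finset A)
    (hS : c * R * S.card ≤ 1) (x : V κ) : ‖w1 p a S r R c x‖ ≤ 2 := by
  unfold w1
  refine (norm_sub_le _ _).trans ?_
  have h1 : ‖al p a r x • P p a x‖ ≤ 1 := by
    rw [norm_smul, Real.norm_of_nonneg (al_pos hr a x).le]
    exact al_mul_le hr a x
  have h2 : ‖∑ d ∈ S, (c * be p a d r R x) • P p d x‖ ≤ 2 / 5 := by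
    refine (norm_sum_le _ _).trans ?_
    refine le_trans (le_of_eq ?_) (sum_be (p := p) hr hR hc a S hS x)
    refine Finset.sum_congr rfl fun d _ => ?_
    rw [norm_smul, Real.norm_of_nonneg (mul_nonneg hc (be_nonneg a d r R x))]
  linarith

theorem w1_dir {r R c : ℝ} (hR : 0 < R) (hrR : R ≤ r) (hc : 0 ≤ c) (a : A)
    (S : Finset A) (haS : a ∉ S) (hSg : ∀ d ∈ S, g a = g d) (hS : c * R * S.card ≤ 1)
    (h : RD p g ρ) (hd : Differentiable ℝ ρ) (x : V κ) : fderiv ℝ ρ x (w1 p a S r R c x) ≤ 0 := by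
  have hr : 0 < r := lt_of_lt_of_le hR hrR
  obtain ⟨L, hL⟩ : ∃ L, L = fderiv ℝ ρ x := ⟨_, rfl⟩
  have hLa : L (P p a x) ≤ 0 := by rw [hL]; exact h.radial hd a x
  rw [← hL]
  have e1 : L (w1 p a S r R c x) =
      al p a r x * L (P p a x) - ∑ d ∈ S, c * be p a d r R x * L (P p d x) := by
    unfold w1
    rw [map_sub, map_sum, map_smul, smul_eq_mul]
    congr 1
    refine Finset.sum_congr rfl fun d _ => ?_
    rw [map_smul, smul_eq_mul]
  rcases le_or_gt (‖P p a x‖ ^ 2) (r ^ 2) with h1 | h1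
  · have h2 : ∀ d, be p a d r R x = 0 := fun d => by
      unfold be
      rw [hh_zero h1, zero_mul]
    rw [e1]
    simp only [h2, mul_zero, zero_mul, Finset.sum_const_zero, sub_zero]
    exact mul_nonpos_of_nonneg_of_nonpos (al_pos hr a x).le hLa
  · have hra : r ≤ ‖P p a x‖ := (abs_le_of_sq_le_sq' h1.le (norm_nonneg _)).2
    have hpa : 0 < ‖P p a x‖ := lt_of_lt_of_le hr hra
    have h2 : ∀ d ∈ S, c * be p a d r R x * ‖P p d x‖ * L (P p a x) ≤
        ‖P p a x‖ * (c * be p a d r R x * L (P p d x)) := by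
      intro d hdS
      have hb := mul_nonneg hc (be_nonneg (p := p) a d r R x)
      by_cases h3 : ‖P p d x‖ ≤ R
      · have hne : a ≠ d := fun h4 => haS (h4 ▸ hdS)
        have h4 := h.trans hd hne (hSg d hdS) x (h3.trans (hrR.trans hra))
        rw [← hL] at h4
        calc c * be p a d r R x * ‖P p d x‖ * L (P p a x)
            = c * be p a d r R x * (‖P p d x‖ * L (P p a x)) := by ring
          _ ≤ c * be p a d r R x * (‖P p a x‖ * L (P p d x)) :=
              mul_le_mul_of_nonneg_left h4 hb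
          _ = _ := by ring
      · have h4 : be p a d r R x = 0 := by
          unfold be
          rw [tt_zero hR (pow_le_pow_left₀ hR.le (not_le.1 h3).le 2), mul_zero]
        rw [h4]
        simp
    have h3 : ‖P p a x‖ * L (w1 p a S r R c x) ≤
        L (P p a x) * (al p a r x * ‖P p a x‖ - ∑ d ∈ S, c * be p a d r R x * ‖P p d x‖) := by
      rw [e1, mul_sub, mul_sub, Finset.mul_sum, Finset.mul_sum]
      have h4 := Finset.sum_le_sum h2
      have e2 : ∑ d ∈ S, L (P p a x) * (c * be p a d r R x * ‖P p d x‖) =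
          ∑ d ∈ S, c * be p a d r R x * ‖P p d x‖ * L (P p a x) :=
        Finset.sum_congr rfl fun d _ => by ring
      rw [e2]
      have e3 : ‖P p a x‖ * (al p a r x * L (P p a x)) =
          L (P p a x) * (al p a r x * ‖P p a x‖) := by ring
      rw [e3]
      linarith
    have h4 : L (P p a x) * (al p a r x * ‖P p a x‖ -
        ∑ d ∈ S, c * be p a d r R x * ‖P p d x‖) ≤ 0 := by
      refine mul_nonpos_of_nonpos_of_nonneg hLa ?_
      have h5 := sum_be (p := p) hr hR hc a S hS x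
      have h6 := al_mul_ge (p := p) hr a x hra
      linarith
    have h5 := h3.trans h4
    by_contra hcon
    rw [not_le] at hcon
    have := mul_pos hpa hcon
    linarith

/-! ### the divergence -/

/-- the number of coordinates of an atom -/
noncomputable def dm (p : κ → A) (a : A) : ℝ := ((Finset.univ.filter fun i => p i = a).card : ℝ)

theorem trace_P' (a : A) : LinearMap.trace ℝ (V κ) (P p a : V κ →ₗ[ℝ] V κ) = dm p a := trace_P p a

/-- the divergence of `tt • P` -/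
noncomputable def dt (m R s : ℝ) : ℝ :=
  max (1 - s / R ^ 2) 0 * (m * max (1 - s / R ^ 2) 0 - 4 * (s / R ^ 2))

theorem dt_ge {m R s : ℝ} (hm : 1 ≤ m) (hR : 0 < R) (hs : 0 ≤ s) : -1 ≤ dt m R s := by
  unfold dt
  obtain ⟨u, hu⟩ : ∃ u, u = s / R ^ 2 := ⟨_, rfl⟩
  have hu0 : 0 ≤ u := by rw [hu]; positivity
  rw [← hu]
  rcases le_total u 1 with h | h
  · rw [max_eq_left (by linarith)]
    have h1 : 1 - u ≤ m * (1 - u) := by nlinarith
    nlinarith [sq_nonneg (5 * u - 3), mul_nonneg (sub_nonneg.2 h) (sub_nonneg.2 h1)]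
  · rw [max_eq_right (by linarith)]
    norm_num

theorem dt_ge' {m R s : ℝ} (hm : 1 ≤ m) (hR : 0 < R) (hs : 0 ≤ s) (hs1 : s ≤ (R / 4) ^ 2) :
    5 / 8 * m ≤ dt m R s := by
  unfold dt
  obtain ⟨u, hu⟩ : ∃ u, u = s / R ^ 2 := ⟨_, rfl⟩
  have hu0 : 0 ≤ u := by rw [hu]; positivity
  have hu1 : u ≤ 1 / 16 := by
    rw [hu, div_le_iff₀ (by positivity)]
    calc s ≤ (R / 4) ^ 2 := hs1
      _ = 1 / 16 * R ^ 2 := by ring
  rw [← hu, max_eq_left (by linarith)]
  have h1 : 15 / 16 ≤ 1 - u := by linarith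
  have h2 : 15 / 16 * (15 / 16) * m ≤ (1 - u) * (1 - u) * m :=
    mul_le_mul_of_nonneg_right (mul_le_mul h1 h1 (by norm_num) (by linarith)) (by linarith)
  have h3 : (1 - u) * (4 * u) ≤ 1 / 4 := by nlinarith
  nlinarith

theorem dv_w1 {r R c : ℝ} (hr : 0 < r) (a : A) (S : Finset A) (haS : a ∉ S) (x : V κ) :
    dv (w1 p a S r R c) x ≤ al p a r x * dm p a -
      ∑ d ∈ S, c * hh r (‖P p a x‖ ^ 2) * dt (dm p d) R (‖P p d x‖ ^ 2) := by
  have hda : DifferentiableAt ℝ (al (κ := κ) p a r) x := (cd_al hr a).differentiable one_ne_zero x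
  have hdb : ∀ d, DifferentiableAt ℝ (be (κ := κ) p a d r R) x := fun d =>
    (cd_be hr R a d).differentiable one_ne_zero x
  have hdP : ∀ d, DifferentiableAt ℝ (fun x : V κ => P p d x) x := fun d =>
    (P p d).differentiableAt
  have hw : w1 (κ := κ) p a S r R c = fun x => al p a r x • P p a x -
      ∑ d ∈ S, (c * be p a d r R x) • P p d x := by
    funext x
    rfl
  have hS1 : DifferentiableAt ℝ (fun x : V κ => al p a r x • P p a x) x := hda.smul (hdP a)
  have hS2 : ∀ d ∈ S, DifferentiableAt ℝ (fun x : V κ => (c * be p a d r R x) • P p d x) x :=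
    fun d _ => ((hdb d).const_mul c).smul (hdP d)
  have hS3 : DifferentiableAt ℝ (fun x : V κ => ∑ d ∈ S, (c * be p a d r R x) • P p d x) x :=
    DifferentiableAt.fun_sum hS2
  rw [hw, dv_sub (fun x => al p a r x • P p a x) (fun x => ∑ d ∈ S, (c * be p a d r R x) • P p d x)
    x hS1 hS3, dv_smul (al p a r) (P p a) x hda,
    dv_sum S (fun d x => (c * be p a d r R x) • P p d x) x hS2, trace_P']
  have h1 : fderiv ℝ (al p a r) x (P p a x) ≤ 0 := by
    refine fd_le ((cd_al hr a).differentiable one_ne_zero) x _ 1 one_pos fun t ht _ => ?_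
    unfold al
    have e : P p a (x + t • P p a x) = (1 + t) • P p a x := by
      rw [map_add, map_smul, P_self]
      module
    rw [e, norm_smul, Real.norm_of_nonneg (by positivity)]
    have h0 : 0 < r ^ 2 + ‖P p a x‖ ^ 2 := by positivity
    refine inv_anti₀ (Real.sqrt_pos.2 h0) (Real.sqrt_le_sqrt ?_)
    have h2 : ‖P p a x‖ ^ 2 ≤ ((1 + t) * ‖P p a x‖) ^ 2 := by
      refine pow_le_pow_left₀ (norm_nonneg _) ?_ 2
      exact le_mul_of_one_le_left (norm_nonneg _) (by linarith)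
    linarith
  have h2 : ∀ d ∈ S, dv (fun x => (c * be p a d r R x) • P p d x) x =
      c * hh r (‖P p a x‖ ^ 2) * dt (dm p d) R (‖P p d x‖ ^ 2) := by
    intro d hd
    have hne : a ≠ d := fun h4 => haS (h4 ▸ hd)
    rw [dv_smul (fun x => c * be p a d r R x) (P p d) x ((hdb d).const_mul c), trace_P',
      fderiv_const_mul (hdb d)]
    have h3 : fderiv ℝ (be p a d r R) x (P p d x) = hh r (‖P p a x‖ ^ 2) *
        (-(2 / R ^ 2) * max (1 - ‖P p d x‖ ^ 2 / R ^ 2) 0 * (2 * ‖P p d x‖ ^ 2)) := by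
      have d1 : DifferentiableAt ℝ (fun x : V κ => hh r (‖P p a x‖ ^ 2)) x :=
        (cd_hh hr p a).differentiable one_ne_zero x
      have d2 : DifferentiableAt ℝ (fun x : V κ => tt R (‖P p d x‖ ^ 2)) x :=
        (cd_tt R p d).differentiable one_ne_zero x
      have e1 : be (κ := κ) p a d r R = fun x => hh r (‖P p a x‖ ^ 2) * tt R (‖P p d x‖ ^ 2) := rfl
      rw [e1, fderiv_fun_mul d1 d2]
      show hh r (‖P p a x‖ ^ 2) * fderiv ℝ (fun x : V κ => tt R (‖P p d x‖ ^ 2)) x (P p d x) +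
        tt R (‖P p d x‖ ^ 2) * fderiv ℝ (fun x : V κ => hh r (‖P p a x‖ ^ 2)) x (P p d x) = _
      have e2 : fderiv ℝ (fun x : V κ => hh r (‖P p a x‖ ^ 2)) x (P p d x) = 0 := by
        have h5 : HasDerivAt (fun t : ℝ => x + t • P p d x) (P p d x) 0 := by
          simpa using ((hasDerivAt_id (0 : ℝ)).smul_const (P p d x)).const_add x
        have h6 : HasDerivAt (fun t : ℝ => hh r (‖P p a (x + t • P p d x)‖ ^ 2))
            (fderiv ℝ (fun x : V κ => hh r (‖P p a x‖ ^ 2)) x (P p d x)) 0 := by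
          have h7 : HasFDerivAt (fun x : V κ => hh r (‖P p a x‖ ^ 2))
              (fderiv ℝ (fun x : V κ => hh r (‖P p a x‖ ^ 2)) x) (x + (0 : ℝ) • P p d x) := by
            simpa using d1.hasFDerivAt
          exact h7.comp_hasDerivAt 0 h5
        have h8 : (fun t : ℝ => hh r (‖P p a (x + t • P p d x)‖ ^ 2)) =
            fun _ => hh r (‖P p a x‖ ^ 2) := by
          funext t
          rw [map_add, map_smul, P_ne p hne, smul_zero, add_zero]
        rw [h8] at h6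
        exact h6.unique (hasDerivAt_const _ _)
      rw [e2, mul_zero, add_zero, fd_comp p d (tt R) _ x (P p d x) (hd_tt R _)]
      have e3 : ⟪P p d x, P p d x⟫_ℝ = ‖P p d x‖ ^ 2 := real_inner_self_eq_norm_sq _
      rw [e3]
    show c * be p a d r R x * dm p d + c * fderiv ℝ (be p a d r R) x (P p d x) = _
    rw [h3]
    unfold be dt tt
    ring
  rw [Finset.sum_congr rfl h2]
  linarith

theorem dv_w1_le {r R c : ℝ} (hR : 0 < R) (hrR : 12 * R ≤ r) (hc : 0 ≤ c) (a : A) (S : Finset A)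
    (haS : a ∉ S) (hS : c * R * S.card ≤ 1) (m : ℝ) (hm : 1 ≤ m) (hma : dm p a = m)
    (hmS : ∀ d ∈ S, dm p d = m) (x : V κ) : dv (w1 p a S r R c) x ≤ 2 * m / R := by
  have hr : 0 < r := by linarith
  refine (dv_w1 hr a S haS x).trans ?_
  rw [hma]
  have h1 : al p a r x * m ≤ r⁻¹ * m := mul_le_mul_of_nonneg_right (al_le hr a x) (by linarith)
  have h2 : r⁻¹ * m ≤ m / R := by
    rw [inv_mul_eq_div]
    exact div_le_div_of_nonneg_left (by linarith) hR (by linarith)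
  have h3 : ∀ d ∈ S, -c ≤ c * hh r (‖P p a x‖ ^ 2) * dt (dm p d) R (‖P p d x‖ ^ 2) := by
    intro d hd
    rw [hmS d hd]
    have h4 := dt_ge hm hR (sq_nonneg ‖P p d x‖)
    have h5 := hh_le hr (sq_nonneg ‖P p a x‖)
    have h6 := hh_nonneg r (‖P p a x‖ ^ 2)
    have h7 : c * hh r (‖P p a x‖ ^ 2) ≤ c := by nlinarith
    have h8 : 0 ≤ c * hh r (‖P p a x‖ ^ 2) := mul_nonneg hc h6
    nlinarith
  have h4 := Finset.sum_le_sum h3
  rw [Finset.sum_const, nsmul_eq_mul] at h4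
  have h5 : (S.card : ℝ) * c ≤ 1 / R := by
    rw [le_div_iff₀ hR]
    linarith
  have h6 : 1 / R ≤ m / R := div_le_div_of_nonneg_right hm hR.le
  have h7 : 2 * m / R = m / R + m / R := by ring
  rw [h7]
  linarith

theorem dv_w1_far {r R k : ℝ} (hR : 0 < R) (hrR : r = 12 * R) (hk : 40 ≤ k) (a : A)
    (S : Finset A) (haS : a ∉ S) (hS' : k - 1 ≤ S.card) (m : ℝ) (hm : 1 ≤ m)
    (hma : dm p a = m) (hmS : ∀ d ∈ S, dm p d = m) (x : V κ)
    (hx : 3 * r ^ 2 ≤ ‖P p a x‖ ^ 2) (hsum : nS p S x ≤ R / 24 * k) :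
    dv (w1 p a S r R (k * R)⁻¹) x ≤ -(m / (24 * R)) := by
  classical
  have hr : 0 < r := by linarith
  have hk0 : 0 < k := by linarith
  refine (dv_w1 hr a S haS x).trans ?_
  rw [hma]
  have h1 : al p a r x * m ≤ (2 * r)⁻¹ * m :=
    mul_le_mul_of_nonneg_right (al_le_far hr a x hx) (by linarith)
  obtain ⟨Bd, hBd⟩ : ∃ Bd : Finset A, Bd = S.filter fun d => R / 4 < ‖P p d x‖ := ⟨_, rfl⟩
  have hBS : Bd ⊆ S := by rw [hBd]; exact Finset.filter_subset _ _
  have hBcard : (Bd.card : ℝ) ≤ k / 6 := by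
    have h1 : (Bd.card : ℝ) * (R / 4) ≤ ∑ d ∈ Bd, ‖P p d x‖ := by
      rw [← nsmul_eq_mul]
      refine Finset.card_nsmul_le_sum _ _ _ fun d hd => ?_
      rw [hBd, Finset.mem_filter] at hd
      exact hd.2.le
    have h2 : ∑ d ∈ Bd, ‖P p d x‖ ≤ ∑ d ∈ S, ‖P p d x‖ :=
      Finset.sum_le_sum_of_subset_of_nonneg hBS fun d _ _ => norm_nonneg _
    have h3 : (Bd.card : ℝ) * (R / 4) ≤ k / 6 * (R / 4) := by
      refine (h1.trans (h2.trans hsum)).trans (le_of_eq ?_)
      ring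
    exact le_of_mul_le_mul_right h3 (by positivity)
  have hsplit : m * k / 3 ≤ ∑ d ∈ S, dt (dm p d) R (‖P p d x‖ ^ 2) := by
    have h2 : -(Bd.card : ℝ) ≤ ∑ d ∈ Bd, dt (dm p d) R (‖P p d x‖ ^ 2) := by
      have : (Bd.card : ℝ) * (-1) ≤ ∑ d ∈ Bd, dt (dm p d) R (‖P p d x‖ ^ 2) := by
        rw [← nsmul_eq_mul]
        refine Finset.card_nsmul_le_sum _ _ _ fun d hd => ?_
        rw [hmS d (hBS hd)]
        exact dt_ge hm hR (sq_nonneg _)
      linarith
    have h3 : ((S.card : ℝ) - Bd.card) * (5 / 8 * m) ≤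
        ∑ d ∈ S \ Bd, dt (dm p d) R (‖P p d x‖ ^ 2) := by
      have h4 : ((S.card : ℝ) - Bd.card) = ((S \ Bd).card : ℝ) := by
        rw [Finset.card_sdiff_of_subset hBS, Nat.cast_sub (Finset.card_le_card hBS)]
      rw [h4, ← nsmul_eq_mul]
      refine Finset.card_nsmul_le_sum _ _ _ fun d hd => ?_
      rw [Finset.mem_sdiff] at hd
      rw [hmS d hd.1]
      refine dt_ge' hm hR (sq_nonneg _) (pow_le_pow_left₀ (norm_nonneg _) ?_ 2)
      by_contra hcon
      rw [not_le] at hcon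
      refine hd.2 ?_
      rw [hBd, Finset.mem_filter]
      exact ⟨hd.1, hcon⟩
    rw [← Finset.sum_sdiff hBS]
    have h4 : (k - 1 - k / 6) * (5 / 8 * m) ≤ ((S.card : ℝ) - Bd.card) * (5 / 8 * m) :=
      mul_le_mul_of_nonneg_right (by linarith) (by linarith)
    nlinarith
  have h2 : (12 * R)⁻¹ * m ≤
      ∑ d ∈ S, (k * R)⁻¹ * hh r (‖P p a x‖ ^ 2) * dt (dm p d) R (‖P p d x‖ ^ 2) := by
    rw [← Finset.mul_sum]
    have h3 := hh_ge hr hx
    have h4 : (k * R)⁻¹ * (1 / 4) ≤ (k * R)⁻¹ * hh r (‖P p a x‖ ^ 2) :=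
      mul_le_mul_of_nonneg_left h3 (by positivity)
    have h5 : 0 ≤ m * k / 3 := by positivity
    calc (12 * R)⁻¹ * m = (k * R)⁻¹ * (1 / 4) * (m * k / 3) := by field_simp; norm_num
      _ ≤ _ := mul_le_mul h4 hsplit h5 (by positivity)
  have h3 : (2 * r)⁻¹ * m - (12 * R)⁻¹ * m = -(m / (24 * R)) := by
    rw [hrR]
    field_simp
    ring
  linarith

end Pool.Agent.TH610.RB
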