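import Pool.Agent.TH610.RB.Field1

/-!
# The second vector field: inside one atom, pushing the coordinate `i` away from zero
-/

set_option autoImplicit false

namespace Pool.Agent.TH610.RB

open MeasureTheory Set Filter
open scoped ENNReal InnerProductSpace Topology

variable {κ A B : Type} [Fintype κ] [DecidableEq A] [DecidableEq κ]
variable {p : κ → A} {g : A → B} {ρ : V κ → ℝ}

/-- the coefficient of the coordinate direction -/
noncomputable def ph (R u : ℝ) : ℝ := 2 - u / Real.sqrt (R ^ 2 + u ^ 2)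

/-- the coefficient of the inward motion -/
noncomputable def et (p : κ → A) (i : κ) (R : ℝ) (x : V κ) : ℝ :=
  x i / (‖P p (p i) x‖ ^ 2 + R ^ 2)

/-- the second field -/
noncomputable def w2 (p : κ → A) (i : κ) (R : ℝ) (x : V κ) : V κ :=
  ph R (x i) • EuclideanSpace.single i (1 : ℝ) - et p i R x • P p (p i) x

theorem ph_bd {R : ℝ} (hR : 0 < R) (u : ℝ) : 1 ≤ ph R u ∧ ph R u ≤ 3 := by
  unfold ph
  have h0 : 0 < R ^ 2 + u ^ 2 := by positivity
  have h1 := Real.sqrt_pos.2 h0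
  have h2 : |u| ≤ Real.sqrt (R ^ 2 + u ^ 2) := by
    refine Real.le_sqrt_of_sq_le ?_
    rw [sq_abs]
    have : 0 < R ^ 2 := by positivity
    linarith
  have h3 := abs_le.1 h2
  constructor
  · have : u / Real.sqrt (R ^ 2 + u ^ 2) ≤ 1 := by
      rw [div_le_one h1]
      exact h3.2
    linarith
  · have : -1 ≤ u / Real.sqrt (R ^ 2 + u ^ 2) := by
      rw [le_div_iff₀ h1]
      linarith [h3.1]
    linarith

theorem ph_hd {R : ℝ} (hR : 0 < R) (u : ℝ) :
    HasDerivAt (ph R) (-(R ^ 2 / ((R ^ 2 + u ^ 2) * Real.sqrt (R ^ 2 + u ^ 2)))) u := by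
  have h0 : 0 < R ^ 2 + u ^ 2 := by positivity
  have h1 := Real.sqrt_pos.2 h0
  have e0 : Real.sqrt (R ^ 2 + u ^ 2) ^ 2 = R ^ 2 + u ^ 2 := Real.sq_sqrt h0.le
  have h2 : HasDerivAt (fun u : ℝ => R ^ 2 + u ^ 2) (2 * u) u := by
    simpa using (hasDerivAt_pow 2 u).const_add (R ^ 2)
  have h3 : HasDerivAt (fun u : ℝ => Real.sqrt (R ^ 2 + u ^ 2))
      (2 * u / (2 * Real.sqrt (R ^ 2 + u ^ 2))) u := h2.sqrt h0.ne'
  have h4 := ((hasDerivAt_id u).div h3 h1.ne').const_sub 2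
  have e : -((1 * Real.sqrt (R ^ 2 + u ^ 2) - id u * (2 * u / (2 * Real.sqrt (R ^ 2 + u ^ 2)))) /
      Real.sqrt (R ^ 2 + u ^ 2) ^ 2) =
      -(R ^ 2 / ((R ^ 2 + u ^ 2) * Real.sqrt (R ^ 2 + u ^ 2))) := by
    obtain ⟨q, hq⟩ : ∃ q, q = Real.sqrt (R ^ 2 + u ^ 2) := ⟨_, rfl⟩
    rw [← hq] at e0 h1 ⊢
    rw [← e0, neg_inj, id]
    have hq0 : q ≠ 0 := h1.ne'
    rw [div_eq_div_iff (by positivity) (by positivity)]
    field_simp
    nlinarith [e0]
  rw [e] at h4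
  exact h4

omit [DecidableEq κ] in
theorem sq_le_P (i : κ) (x : V κ) : x i ^ 2 ≤ ‖P p (p i) x‖ ^ 2 := by
  rw [norm_sq_P]
  have h1 := Finset.single_le_sum (f := fun j => if p j = p i then x j ^ 2 else 0)
    (s := Finset.univ) (fun j _ => by
      show 0 ≤ if p j = p i then x j ^ 2 else 0
      split_ifs
      · exact sq_nonneg _
      · exact le_rfl) (Finset.mem_univ i)
  simpa using h1

theorem P_single (i : κ) :
    P p (p i) (EuclideanSpace.single i (1 : ℝ)) = EuclideanSpace.single i (1 : ℝ) := by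
  ext j
  rw [P_apply]
  by_cases h : j = i
  · subst h
    simp
  · simp [h]

theorem inner_P_single (i : κ) (x : V κ) :
    ⟪P p (p i) x, EuclideanSpace.single i (1 : ℝ)⟫_ℝ = x i := by
  rw [inner_P, P_single, EuclideanSpace.inner_single_right]
  simp

omit [DecidableEq κ] in
theorem cd_ph {R : ℝ} (hR : 0 < R) (i : κ) : ContDiff ℝ 1 fun x : V κ => ph R (x i) := by
  have h1 : ContDiff ℝ 1 fun x : V κ => x i := (EuclideanSpace.proj (𝕜 := ℝ) i).contDiff
  unfold ph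
  refine contDiff_const.sub (h1.div ((contDiff_const.add (h1.pow 2)).sqrt fun x => ?_) fun x => ?_)
  · positivity
  · have : 0 < R ^ 2 + x i ^ 2 := by positivity
    exact (Real.sqrt_pos.2 this).ne'

omit [DecidableEq κ] in
theorem cd_et {R : ℝ} (hR : 0 < R) (i : κ) : ContDiff ℝ 1 (et (κ := κ) p i R) := by
  have h1 : ContDiff ℝ 1 fun x : V κ => x i := (EuclideanSpace.proj (𝕜 := ℝ) i).contDiff
  exact h1.div ((cd_nsq p (p i)).add contDiff_const) fun x => by positivity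

theorem cd_w2 {R : ℝ} (hR : 0 < R) (i : κ) : ContDiff ℝ 1 (w2 (κ := κ) p i R) :=
  ((cd_ph hR i).smul contDiff_const).sub ((cd_et hR i).smul (P p (p i)).contDiff)

theorem w2_norm {R : ℝ} (hR : 0 < R) (i : κ) (x : V κ) : ‖w2 p i R x‖ ≤ 4 := by
  unfold w2
  refine (norm_sub_le _ _).trans ?_
  obtain ⟨h1, h2⟩ := ph_bd hR (x i)
  have h3 : ‖ph R (x i) • (EuclideanSpace.single i (1 : ℝ) : V κ)‖ ≤ 3 := by
    rw [norm_smul, PiLp.norm_single, norm_one, mul_one, Real.norm_of_nonneg (by linarith)]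
    exact h2
  have h4 : ‖et p i R x • P p (p i) x‖ ≤ 1 := by
    rw [norm_smul]
    unfold et
    obtain ⟨q, hq⟩ : ∃ q, q = ‖P p (p i) x‖ := ⟨_, rfl⟩
    have hq0 : 0 ≤ q := by rw [hq]; exact norm_nonneg _
    have h5 : |x i| ≤ q := by
      have := sq_le_P (p := p) i x
      rw [← hq] at this
      exact abs_le_of_sq_le_sq this hq0
    rw [← hq, norm_div, Real.norm_eq_abs, Real.norm_of_nonneg (by positivity), div_mul_eq_mul_div,
      div_le_one (by positivity)]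
    have : |x i| * q ≤ q * q := mul_le_mul_of_nonneg_right h5 hq0
    have hR2 : 0 < R ^ 2 := by positivity
    nlinarith
  linarith

theorem P_w2 (i : κ) (R : ℝ) (x : V κ) : P p (p i) (w2 p i R x) = w2 p i R x := by
  unfold w2
  rw [map_sub, map_smul, map_smul, P_single, P_self]

theorem w2_inner {R : ℝ} (hR : 0 < R) (i : κ) (x : V κ) (hx : 0 ≤ x i) :
    0 ≤ ⟪P p (p i) x, w2 p i R x⟫_ℝ := by
  unfold w2
  rw [inner_sub_right, inner_smul_right, inner_smul_right, inner_P_single,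
    real_inner_self_eq_norm_sq]
  unfold et
  obtain ⟨h1, -⟩ := ph_bd hR (x i)
  obtain ⟨s, hs⟩ : ∃ s, s = ‖P p (p i) x‖ ^ 2 := ⟨_, rfl⟩
  have hs0 : 0 ≤ s := by rw [hs]; positivity
  rw [← hs]
  have h2 : x i / (s + R ^ 2) * s ≤ x i := by
    rw [div_mul_eq_mul_div, div_le_iff₀ (by positivity)]
    have : 0 ≤ x i * R ^ 2 := by positivity
    nlinarith
  have h3 : x i ≤ ph R (x i) * x i := le_mul_of_one_le_left hx h1
  linarith

theorem w2_dir {R : ℝ} (hR : 0 < R) (i : κ) (h : RD p g ρ) (hd : Differentiable ℝ ρ) (x : V κ)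
    (hx : 0 < x i) : fderiv ℝ ρ x (w2 p i R x) ≤ 0 := by
  obtain ⟨v, hv⟩ : ∃ v, v = w2 p i R x := ⟨_, rfl⟩
  have hPv : P p (p i) v = v := by rw [hv]; exact P_w2 i R x
  have hin : 0 ≤ ⟪P p (p i) x, v⟫_ℝ := by rw [hv]; exact w2_inner hR i x hx.le
  rw [← hv]
  have hs : 0 < ‖P p (p i) x‖ ^ 2 := by
    have h1 := sq_le_P (p := p) i x
    have h2 : 0 < x i ^ 2 := by positivity
    linarith
  obtain ⟨c, hc⟩ : ∃ c, c = ⟪P p (p i) x, v⟫_ℝ / ‖P p (p i) x‖ ^ 2 := ⟨_, rfl⟩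
  have hc0 : 0 ≤ c := by rw [hc]; exact div_nonneg hin hs.le
  have h1 : fderiv ℝ ρ x (v - c • P p (p i) x) = 0 := by
    refine h.tang hd (p i) x _ ?_ ?_
    · rw [map_sub, map_smul, hPv, P_self]
    · have e1 : ⟪v - c • P p (p i) x, x⟫_ℝ = ⟪v, x⟫_ℝ - c * ‖P p (p i) x‖ ^ 2 := by
        rw [inner_sub_left, real_inner_smul_left, inner_PP]
      have e2 : ⟪v, x⟫_ℝ = ⟪P p (p i) x, v⟫_ℝ := by
        conv_lhs => rw [← hPv]
        rw [inner_P, real_inner_comm]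
      rw [e1, e2, hc, div_mul_cancel₀ _ hs.ne', sub_self]
  rw [map_sub, map_smul, smul_eq_mul, sub_eq_zero] at h1
  rw [h1]
  exact mul_nonpos_of_nonneg_of_nonpos hc0 (h.radial hd (p i) x)

theorem dv_w2 {R : ℝ} (hR : 0 < R) (i : κ) (x : V κ) : dv (w2 p i R) x =
    -(R ^ 2 / ((R ^ 2 + x i ^ 2) * Real.sqrt (R ^ 2 + x i ^ 2))) -
      x i / (‖P p (p i) x‖ ^ 2 + R ^ 2) *
        (dm p (p i) + 1 - 2 * ‖P p (p i) x‖ ^ 2 / (‖P p (p i) x‖ ^ 2 + R ^ 2)) := by
  have d1 : DifferentiableAt ℝ (fun x : V κ => ph R (x i)) x :=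
    (cd_ph hR i).differentiable one_ne_zero x
  have d2 : DifferentiableAt ℝ (et (κ := κ) p i R) x := (cd_et hR i).differentiable one_ne_zero x
  have e1 : dv (w2 p i R) x =
      dv (fun x : V κ => ph R (x i) • (EuclideanSpace.single i (1 : ℝ) : V κ)) x -
        dv (fun x : V κ => et p i R x • P p (p i) x) x :=
    dv_sub _ _ x (d1.smul_const _) (d2.smul (P p (p i)).differentiableAt)
  rw [e1, dv_const (fun x : V κ => ph R (x i)) _ x d1, dv_smul (et p i R) (P p (p i)) x d2,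
    trace_P']
  have e2 : fderiv ℝ (fun x : V κ => ph R (x i)) x (EuclideanSpace.single i 1) =
      -(R ^ 2 / ((R ^ 2 + x i ^ 2) * Real.sqrt (R ^ 2 + x i ^ 2))) := by
    have h1 : HasFDerivAt (fun x : V κ => x i) (EuclideanSpace.proj (𝕜 := ℝ) i) x :=
      (EuclideanSpace.proj (𝕜 := ℝ) i).hasFDerivAt
    have h2 := (ph_hd hR (x i)).comp_hasFDerivAt x h1
    have h3 : (ph R ∘ fun x : V κ => x i) = fun x : V κ => ph R (x i) := rfl
    rw [h3] at h2
    rw [h2.fderiv]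
    show _ * ((EuclideanSpace.single i (1 : ℝ) : V κ) i) = _
    rw [PiLp.single_apply, if_pos rfl, mul_one]
  have e3 : fderiv ℝ (et p i R) x (P p (p i) x) = x i / (‖P p (p i) x‖ ^ 2 + R ^ 2) *
      (1 - 2 * ‖P p (p i) x‖ ^ 2 / (‖P p (p i) x‖ ^ 2 + R ^ 2)) := by
    have h5 : HasDerivAt (fun t : ℝ => x + t • P p (p i) x) (P p (p i) x) 0 := by
      simpa using ((hasDerivAt_id (0 : ℝ)).smul_const (P p (p i) x)).const_add x
    have h6 : HasDerivAt (fun t : ℝ => et p i R (x + t • P p (p i) x))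
        (fderiv ℝ (et p i R) x (P p (p i) x)) 0 := by
      have h7 : HasFDerivAt (et p i R) (fderiv ℝ (et p i R) x) (x + (0 : ℝ) • P p (p i) x) := by
        simpa using d2.hasFDerivAt
      exact h7.comp_hasDerivAt 0 h5
    obtain ⟨s, hs⟩ : ∃ s, s = ‖P p (p i) x‖ ^ 2 := ⟨_, rfl⟩
    have hs0 : 0 ≤ s := by rw [hs]; positivity
    have h8 : (fun t : ℝ => et p i R (x + t • P p (p i) x)) =
        fun t : ℝ => ((1 + t) * x i) / ((1 + t) ^ 2 * s + R ^ 2) := by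
      funext t
      unfold et
      have e : P p (p i) (x + t • P p (p i) x) = (1 + t) • P p (p i) x := by
        rw [map_add, map_smul, P_self]
        module
      have e' : (x + t • P p (p i) x) i = (1 + t) * x i := by
        rw [PiLp.add_apply, PiLp.smul_apply, P_apply, if_pos rfl, smul_eq_mul]
        ring
      rw [e, e', norm_smul, mul_pow, Real.norm_eq_abs, sq_abs, ← hs]
    rw [h8] at h6
    rw [← hs]
    have n1 : HasDerivAt (fun t : ℝ => (1 + t) * x i) (x i) 0 := by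
      simpa using ((hasDerivAt_id (0 : ℝ)).const_add 1).mul_const (x i)
    have n2 : HasDerivAt (fun t : ℝ => (1 + t) ^ 2 * s + R ^ 2) (2 * s) 0 := by
      have n3 := ((((hasDerivAt_id (0 : ℝ)).const_add 1).pow 2).mul_const s).add_const (R ^ 2)
      simpa using n3
    have hne : (1 + (0 : ℝ)) ^ 2 * s + R ^ 2 ≠ 0 := by positivity
    have n3 := n1.div n2 hne
    have n4 := h6.unique n3
    rw [n4]
    have hne' : s + R ^ 2 ≠ 0 := by positivity
    simp only [add_zero, one_pow, one_mul]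
    field_simp
    try ring
  rw [e2, e3]
  unfold et
  ring

theorem dv_w2_le {R : ℝ} (hR : 0 < R) (i : κ) (x : V κ) (hx : 0 < x i)
    (hs : ‖P p (p i) x‖ ^ 2 ≤ dm p (p i) * R ^ 2) : dv (w2 p i R) x ≤ -(1 / (3 * R)) := by
  rw [dv_w2 hR]
  have hu := sq_le_P (p := p) i x
  obtain ⟨s, hs'⟩ : ∃ s, s = ‖P p (p i) x‖ ^ 2 := ⟨_, rfl⟩
  obtain ⟨u, hu'⟩ : ∃ u, u = x i := ⟨_, rfl⟩
  rw [← hs'] at hs hu ⊢
  rw [← hu'] at hx hu ⊢
  have hs0 : 0 < s := lt_of_lt_of_le (by positivity) hu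
  have hR2 : 0 < R ^ 2 := by positivity
  have hdm : dm p (p i) = 1 ∨ 2 ≤ dm p (p i) := by
    have h1 : 0 < (Finset.univ.filter fun j => p j = p i).card :=
      Finset.card_pos.2 ⟨i, by simp⟩
    unfold dm
    rcases Nat.lt_or_ge 1 (Finset.univ.filter fun j => p j = p i).card with h | h
    · right
      exact_mod_cast h
    · left
      have : (Finset.univ.filter fun j => p j = p i).card = 1 := le_antisymm h h1
      rw [this]
      norm_num
  obtain ⟨m, hm⟩ : ∃ m, m = dm p (p i) := ⟨_, rfl⟩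
  rw [← hm] at hs hdm ⊢
  have hm1 : 1 ≤ m := by rcases hdm with h | h <;> linarith
  -- the second term
  have h2 : u / (s + R ^ 2) * (m - 1) ≤ u / (s + R ^ 2) * (m + 1 - 2 * s / (s + R ^ 2)) := by
    refine mul_le_mul_of_nonneg_left ?_ (by positivity)
    have : 2 * s / (s + R ^ 2) ≤ 2 := by
      rw [div_le_iff₀ (by positivity)]
      linarith
    linarith
  have h3 : 0 ≤ u / (s + R ^ 2) * (m - 1) := mul_nonneg (by positivity) (by linarith)
  have h0 : 0 < R ^ 2 + u ^ 2 := by positivity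
  have hq := Real.sqrt_pos.2 h0
  rcases le_or_gt u R with h | h
  · -- first case: the first term
    have h4 : R ^ 2 + u ^ 2 ≤ 2 * R ^ 2 := by nlinarith
    have h5 : Real.sqrt (R ^ 2 + u ^ 2) ≤ 3 / 2 * R := by
      refine Real.sqrt_le_left (by positivity) |>.mpr ?_
      nlinarith
    have h6 : 1 / (3 * R) ≤ R ^ 2 / ((R ^ 2 + u ^ 2) * Real.sqrt (R ^ 2 + u ^ 2)) := by
      rw [div_le_div_iff₀ (by positivity) (by positivity)]
      have h7 : (R ^ 2 + u ^ 2) * Real.sqrt (R ^ 2 + u ^ 2) ≤ (2 * R ^ 2) * (3 / 2 * R) :=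
        mul_le_mul h4 h5 hq.le (by positivity)
      nlinarith
    linarith
  · -- second case: the second term
    have hm2 : 2 ≤ m := by
      rcases hdm with h1 | h1
      · exfalso
        rw [h1, one_mul] at hs
        nlinarith
      · exact h1
    have h4 : 1 / (3 * R) ≤ u / (s + R ^ 2) * (m - 1) := by
      rw [div_mul_eq_mul_div, div_le_div_iff₀ (by positivity) (by positivity)]
      have h5 : s + R ^ 2 ≤ (m + 1) * R ^ 2 := by linarith
      have h6 : m + 1 ≤ 3 * (m - 1) := by linarith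
      have h7 : (m + 1) * R ^ 2 ≤ 3 * (m - 1) * R ^ 2 := mul_le_mul_of_nonneg_right h6 hR2.le
      have h8 : R * ((m - 1) * R) ≤ u * ((m - 1) * R) :=
        mul_le_mul_of_nonneg_right h.le (mul_nonneg (by linarith) hR.le)
      nlinarith
    have h5 : 0 ≤ R ^ 2 / ((R ^ 2 + u ^ 2) * Real.sqrt (R ^ 2 + u ^ 2)) := by positivity
    linarith

/-! ### the cutoff in the norm of an atom -/

/-- the cutoff -/
noncomputable def ch (p : κ → A) (a : A) (r : ℝ) (x : V κ) : ℝ :=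
  (max (2 - ‖P p a x‖ ^ 2 / (3 * r ^ 2)) 0) ^ 2

omit [DecidableEq κ] in
theorem ch_cd (a : A) (r : ℝ) : ContDiff ℝ 1 (ch (κ := κ) p a r) :=
  cd_sq.comp (contDiff_const.sub ((cd_nsq p a).div_const _))

omit [DecidableEq κ] in
theorem ch_nonneg (a : A) (r : ℝ) (x : V κ) : 0 ≤ ch p a r x := sq_nonneg _

omit [DecidableEq κ] in
theorem ch_le (a : A) (r : ℝ) (x : V κ) : ch p a r x ≤ 4 := by
  unfold ch
  have h1 : max (2 - ‖P p a x‖ ^ 2 / (3 * r ^ 2)) 0 ≤ 2 := by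
    refine max_le ?_ (by norm_num)
    have : 0 ≤ ‖P p a x‖ ^ 2 / (3 * r ^ 2) := by positivity
    linarith
  have h0 : 0 ≤ max (2 - ‖P p a x‖ ^ 2 / (3 * r ^ 2)) 0 := le_max_right _ _
  nlinarith

omit [DecidableEq κ] in
theorem ch_ge {r : ℝ} (hr : 0 < r) (a : A) (x : V κ) (hx : ‖P p a x‖ ^ 2 < 3 * r ^ 2) :
    1 ≤ ch p a r x := by
  unfold ch
  have h1 : 1 ≤ max (2 - ‖P p a x‖ ^ 2 / (3 * r ^ 2)) 0 := by
    refine le_max_of_le_left ?_
    have : ‖P p a x‖ ^ 2 / (3 * r ^ 2) ≤ 1 := by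
      rw [div_le_one (by positivity)]
      exact hx.le
    linarith
  exact one_le_pow₀ h1

omit [DecidableEq κ] in
theorem ch_zero {r : ℝ} (hr : 0 < r) (a : A) (x : V κ) (hx : 6 * r ^ 2 < ‖P p a x‖ ^ 2) :
    ch p a r x = 0 := by
  unfold ch
  have h1 : max (2 - ‖P p a x‖ ^ 2 / (3 * r ^ 2)) 0 = 0 := by
    refine max_eq_right ?_
    have : 2 ≤ ‖P p a x‖ ^ 2 / (3 * r ^ 2) := by
      rw [le_div_iff₀ (by positivity)]
      linarith
    linarith
  rw [h1]
  norm_num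

theorem hd_c (r s : ℝ) : HasDerivAt (fun s : ℝ => (max (2 - s / (3 * r ^ 2)) 0) ^ 2)
    (2 * max (2 - s / (3 * r ^ 2)) 0 * -(1 / (3 * r ^ 2))) s := by
  have h1 : HasDerivAt (fun s : ℝ => 2 - s / (3 * r ^ 2)) (-(1 / (3 * r ^ 2))) s :=
    ((hasDerivAt_id s).div_const (3 * r ^ 2)).const_sub 2
  exact (hd_sq (2 - s / (3 * r ^ 2))).comp s h1

omit [DecidableEq κ] in
theorem fd_ch (r : ℝ) (a : A) (x v : V κ) (hv : 0 ≤ ⟪P p a x, v⟫_ℝ) :
    fderiv ℝ (ch p a r) x v ≤ 0 := by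
  have h3 := fd_comp p a (fun s : ℝ => (max (2 - s / (3 * r ^ 2)) 0) ^ 2) _ x v
    (hd_c r (‖P p a x‖ ^ 2))
  have h4 : (fun x : V κ => (fun s : ℝ => (max (2 - s / (3 * r ^ 2)) 0) ^ 2)
      (‖P p a x‖ ^ 2)) = ch p a r := rfl
  rw [h4] at h3
  rw [h3]
  have h5 : 0 ≤ 2 * max (2 - ‖P p a x‖ ^ 2 / (3 * r ^ 2)) 0 := by positivity
  have h6 : 0 ≤ 1 / (3 * r ^ 2) := by positivity
  have h7 : 2 * max (2 - ‖P p a x‖ ^ 2 / (3 * r ^ 2)) 0 * -(1 / (3 * r ^ 2)) ≤ 0 := by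
    rw [mul_neg]
    exact neg_nonpos.2 (mul_nonneg h5 h6)
  exact mul_nonpos_of_nonpos_of_nonneg h7 (by linarith)

end Pool.Agent.TH610.RB
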