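import Pool.Agent.TH610.RB.Geo
import Pool.Agent.TH594.KP.Gen

/-!
# The group of isometries of the class
-/

set_option autoImplicit false

namespace Pool.Agent.TH610.RB

open MeasureTheory Set Filter
open scoped ENNReal InnerProductSpace Topology
open Pool.Agent.H212R2.KLS (mu Bdd)
open Pool.Agent.H888R2.KT (LC St zz gs gc pst hs tw)
open Pool.Agent.TH594.KP (GD)

variable {κ A B : Type} [Fintype κ] [DecidableEq A]
variable {p : κ → A} {g : A → B} {ρ : V κ → ℝ}

/-- isometries which rotate the atoms and exchange two atoms of the same block -/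
def G (p : κ → A) (g : A → B) : Set (V κ ≃ₗᵢ[ℝ] V κ) :=
  {e | ∃ a a', g a = g a' ∧ ∀ c x, ‖P p c (e x)‖ = ‖P p (Equiv.swap a a' c) x‖}

theorem RD.gd (h : RD p g ρ) : GD (G p g) ρ where
  nonneg := h.nonneg
  meas := h.meas
  logc := h.logc
  inv := by
    rintro e ⟨a, a', haa, he⟩ x
    exact h.inv a a' haa x (e x) fun c => he c x

/-- the reflection in the hyperplane orthogonal to a vector of the atom `a` -/
theorem refl_P (a : A) (v : V κ) (hv : P p a v = v) (c : A) (x : V κ) :
    ‖P p c ((ℝ ∙ v)ᗮ.reflection x)‖ = ‖P p c x‖ := by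
  have e1 : ∀ x : V κ, (ℝ ∙ v)ᗮ.reflection x =
      x - (2 * (⟪v, x⟫_ℝ / ‖v‖ ^ 2)) • v := by
    intro x
    rw [Submodule.reflection_orthogonal_apply, Submodule.reflection_singleton_apply]
    simp only [RCLike.ofReal_real_eq_id, id_eq]
    module
  by_cases hc : c = a
  · subst hc
    have e2 : P p c ((ℝ ∙ v)ᗮ.reflection x) = (ℝ ∙ v)ᗮ.reflection (P p c x) := by
      rw [e1, e1, map_sub, map_smul, hv]
      have e3 : ⟪v, x⟫_ℝ = ⟪v, P p c x⟫_ℝ := by
        conv_lhs => rw [← hv]
        rw [inner_P]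
      rw [e3]
    rw [e2, LinearIsometryEquiv.norm_map]
  · have e2 : P p c v = 0 := by
      rw [← hv]
      exact P_ne p hc v
    rw [e1, map_sub, map_smul, e2, smul_zero, sub_zero]

theorem refl_mem (a : A) (v : V κ) (hv : P p a v = v) : (ℝ ∙ v)ᗮ.reflection ∈ G p g :=
  ⟨a, a, rfl, fun c x => by rw [Equiv.swap_self]; exact refl_P a v hv c x⟩

theorem refl_sub_P (a : A) (x : V κ) (y : V κ) (hy : P p a y = y) (hn : ‖y‖ = ‖P p a x‖) :
    (ℝ ∙ (P p a x - y))ᗮ.reflection x = x - P p a x + y := by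
  have h1 : (ℝ ∙ (P p a x - y))ᗮ.reflection (P p a x) = y :=
    Submodule.reflection_sub hn.symm
  have h2 : (ℝ ∙ (P p a x - y))ᗮ.reflection (x - P p a x) = x - P p a x := by
    rw [Submodule.reflection_eq_self_iff, Submodule.mem_orthogonal_singleton_iff_inner_right]
    have h3 : P p a x - y = P p a (P p a x - y) := by rw [map_sub, P_self, hy]
    rw [h3, inner_P, map_sub, P_self, sub_self, inner_zero_right]
  have h3 := map_add ((ℝ ∙ (P p a x - y))ᗮ.reflection) (x - P p a x) (P p a x)
  rw [h1, h2, sub_add_cancel] at h3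
  exact h3

theorem GD.flat [Fintype A] (h : GD (G p g) ρ) (x y : V κ) (hn : ∀ c, ‖P p c y‖ = ‖P p c x‖) :
    ρ y = ρ x := by
  classical
  obtain ⟨z, hz⟩ : ∃ z : Finset A → V κ,
      ∀ T, z T = WithLp.toLp 2 fun i => if p i ∈ T then y i else x i := ⟨_, fun _ => rfl⟩
  have hzi : ∀ T i, z T i = if p i ∈ T then y i else x i := fun T i => by rw [hz]
  have key : ∀ T : Finset A, ρ (z T) = ρ x := by
    intro T
    induction T using Finset.induction_on with
    | empty =>
      congr 1
      ext i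
      rw [hzi]
      simp
    | insert a T ha ih =>
      rw [← ih]
      have e1 : P p a (z T) = P p a x := by
        ext i
        rw [P_apply, P_apply, hzi]
        by_cases h1 : p i = a
        · rw [if_pos h1, if_pos h1, if_neg (by rw [h1]; exact ha)]
        · rw [if_neg h1, if_neg h1]
      have e2 := refl_sub_P (p := p) a (z T) (P p a y) (P_self p a y) (by rw [e1]; exact hn a)
      have e3 : z (insert a T) = z T - P p a (z T) + P p a y := by
        ext i
        rw [PiLp.add_apply, PiLp.sub_apply, P_apply, P_apply, hzi, hzi]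
        by_cases h1 : p i = a
        · rw [if_pos h1, if_pos h1, if_pos (by rw [h1]; exact Finset.mem_insert_self _ _)]
          ring
        · rw [if_neg h1, if_neg h1]
          by_cases h2 : p i ∈ T
          · rw [if_pos (Finset.mem_insert_of_mem h2), if_pos h2]
            ring
          · rw [if_neg (fun h3 => h2 ((Finset.mem_insert.1 h3).resolve_left h1)), if_neg h2]
            ring
      rw [e3, ← e2]
      refine h.inv _ (refl_mem a _ ?_) _
      rw [map_sub, P_self, P_self]
  have h1 := key Finset.univ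
  have e : z Finset.univ = y := by
    ext i
    rw [hzi, if_pos (Finset.mem_univ _)]
  rw [e] at h1
  exact h1

theorem GD.rd [Fintype A] (hS : Sw p g) (h : GD (G p g) ρ) : RD p g ρ where
  nonneg := h.nonneg
  meas := h.meas
  logc := h.logc
  inv := by
    intro a a' haa x y hn
    obtain ⟨π, hπ⟩ := hS a a' haa
    obtain ⟨e, he⟩ : ∃ e : V κ ≃ₗᵢ[ℝ] V κ, ∀ x i, e x i = x (π i) :=
      ⟨LinearIsometryEquiv.piLpCongrLeft 2 ℝ ℝ π.symm, fun x i => by
        rw [LinearIsometryEquiv.piLpCongrLeft_apply]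
        rfl⟩
    have h1 : ∀ c x, ‖P p c (e x)‖ = ‖P p (Equiv.swap a a' c) x‖ := by
      intro c x
      have h2 : ‖P p c (e x)‖ ^ 2 = ‖P p (Equiv.swap a a' c) x‖ ^ 2 := by
        rw [norm_sq_P, norm_sq_P]
        refine Fintype.sum_equiv π _ _ fun i => ?_
        rw [he, hπ]
        have h3 : p i = c ↔ Equiv.swap a a' (p i) = Equiv.swap a a' c :=
          (Equiv.apply_eq_iff_eq _).symm
        by_cases h4 : p i = c
        · rw [if_pos h4, if_pos (h3.1 h4)]
        · rw [if_neg h4, if_neg (fun h5 => h4 (h3.2 h5))]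
      exact (sq_eq_sq₀ (norm_nonneg _) (norm_nonneg _)).1 h2
    have h2 : ρ (e x) = ρ x := h.inv e ⟨a, a', haa, h1⟩ x
    rw [← h2]
    refine GD.flat h (e x) y fun c => ?_
    rw [hn c, h1 c x]

end Pool.Agent.TH610.RB
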