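import Pool.Agent.TH610.RB.Par
import Pool.Agent.TH610.RB.Link

/-!
# The flow inequality, the square of an odd function on a half space, and cutoffs

Adapted from modules of the starting files (`W364.SK.Half`) and of `TH594.KP`.
-/

set_option autoImplicit false

namespace Pool.Agent.TH610.RB

open MeasureTheory Set Filter
open scoped ENNReal InnerProductSpace Topology
open Pool.Agent.H212R2.KLS (mu Bdd)
open Pool.Agent.H888R2.KT (LC St zz gs gc pst hs tw)
open Pool.Agent.TH594.KP (GD dv dv_cont)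

variable {κ : Type} [Fintype κ]

/-- the flow inequality: if every smooth density of the class is nonincreasing along `w` on the
support of `F` then `0 ≤ ∫ (∇F · w + F div w) dμ` -/
theorem flow {G : Set (V κ ≃ₗᵢ[ℝ] V κ)} {ρ : V κ → ℝ} (hS : GD G ρ) (hL : LC ρ) (w : V κ → V κ)
    (hw : ContDiff ℝ 1 w) (F : V κ → ℝ) (hF : ContDiff ℝ 1 F) (hFc : HasCompactSupport F)
    (hF0 : ∀ x, 0 ≤ F x)
    (hd : ∀ g : V κ → ℝ, GD G g → ContDiff ℝ 1 g → ∀ x, F x ≠ 0 → fderiv ℝ g x (w x) ≤ 0) :
    0 ≤ ∫ x, (fderiv ℝ F x (w x) + F x * dv w x) ∂(mu ρ) := by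
  have hG : Continuous (fun x => fderiv ℝ F x (w x) + F x * dv w x) :=
    ((hF.continuous_fderiv one_ne_zero).clm_apply hw.continuous).add
      (hF.continuous.mul (dv_cont hw))
  have hGc : HasCompactSupport (fun x => fderiv ℝ F x (w x) + F x * dv w x) := by
    refine HasCompactSupport.intro hFc.isCompact (fun x hx => ?_)
    have h6 : F x = 0 := image_eq_zero_of_notMem_tsupport hx
    have h7 : fderiv ℝ F x = 0 := by
      have h8 : x ∉ tsupport (fderiv ℝ F) := fun h => hx (tsupport_fderiv_subset ℝ h)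
      exact image_eq_zero_of_notMem_tsupport h8
    rw [h6, h7]
    simp
  refine Pool.Agent.TH594.KP.lim ρ hL _ hG hGc (fun h hh => ?_)
  obtain ⟨hSz, hCz⟩ := Pool.Agent.TH594.KP.zz_gd hS hL h hh
  rw [Pool.Agent.TH594.KP.ibp (zz h ρ) F w hCz hF hFc hw]
  rw [neg_nonneg]
  refine integral_nonpos (fun x => ?_)
  show F x * fderiv ℝ (zz h ρ) x (w x) ≤ 0
  by_cases hx : F x = 0
  · rw [hx, zero_mul]
  · exact mul_nonpos_of_nonneg_of_nonpos (hF0 x) (hd _ hSz hCz x hx)

theorem cut (R : ℝ) (hR : 0 < R) : ∃ η : V κ → ℝ, ContDiff ℝ 1 η ∧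
    HasCompactSupport η ∧ (∀ x, ‖x‖ ≤ R → η x = 1 ∧ fderiv ℝ η x = 0) ∧
    ∀ x y, ‖x‖ = ‖y‖ → η x = η y := by
  refine ⟨fun x : V κ => Real.smoothTransition (2 - ‖x‖ ^ 2 / R ^ 2), ?_, ?_, ?_, ?_⟩
  · exact Real.smoothTransition.contDiff.comp
      (contDiff_const.sub ((contDiff_norm_sq ℝ).div_const _))
  · refine HasCompactSupport.intro (isCompact_closedBall (0 : V κ) (2 * R)) fun x hx => ?_
    apply Real.smoothTransition.zero_of_nonpos
    rw [mem_closedBall_zero_iff, not_le] at hx
    have h1 : 2 ≤ ‖x‖ ^ 2 / R ^ 2 := by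
      rw [le_div_iff₀ (by positivity)]
      nlinarith
    linarith
  · intro x hx
    have h1 : Real.smoothTransition (2 - ‖x‖ ^ 2 / R ^ 2) = 1 := by
      apply Real.smoothTransition.one_of_one_le
      have h2 : ‖x‖ ^ 2 / R ^ 2 ≤ 1 := by
        rw [div_le_one (by positivity)]
        exact pow_le_pow_left₀ (norm_nonneg x) hx 2
      linarith
    refine ⟨h1, ?_⟩
    apply IsLocalMax.fderiv_eq_zero
    refine Filter.Eventually.of_forall fun y => ?_
    simp only [h1]
    exact Real.smoothTransition.le_one _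
  · intro x y h
    simp only [h]

theorem ae_mu {ρ : V κ → ℝ} (hm : Measurable ρ) (p : V κ → Prop)
    (h : ∀ x, ρ x ≠ 0 → p x) : ∀ᵐ x ∂(mu ρ), p x := by
  unfold mu
  rw [ae_withDensity_iff (by fun_prop)]
  refine Filter.Eventually.of_forall fun x hx => h x ?_
  intro h0
  rw [h0] at hx
  simp at hx

theorem fd_sq (g : V κ → ℝ) (hg : ContDiff ℝ 1 g) (x v : V κ) :
    fderiv ℝ (fun x => g x ^ 2) x v = 2 * g x * fderiv ℝ g x v := by
  have h1 : HasFDerivAt g (fderiv ℝ g x) x := (hg.differentiable one_ne_zero x).hasFDerivAt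
  have h2 : HasFDerivAt (fun x => g x * g x) (g x • fderiv ℝ g x + g x • fderiv ℝ g x) x :=
    h1.fun_mul h1
  have h3 : (fun x => g x ^ 2) = fun x => g x * g x := by
    funext x
    ring
  rw [h3, h2.fderiv]
  simp only [_root_.add_apply, _root_.smul_apply, smul_eq_mul]
  ring

theorem half [DecidableEq κ] (i : κ) (f : V κ → ℝ) (hf : ContDiff ℝ 1 f)
    (hodd : ∀ x, f (rf i x) = - f x) :
    ContDiff ℝ 1 (fun x : V κ => if 0 < x i then f x ^ 2 else 0) ∧
    ∀ x : V κ, fderiv ℝ (fun x : V κ => if 0 < x i then f x ^ 2 else 0) x =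
      if 0 < x i then (2 * f x) • fderiv ℝ f x else 0 := by
  have hcoord : Continuous (fun x : V κ => x i) := by fun_prop
  have hdiff : Differentiable ℝ f := hf.differentiable (by norm_num)
  have hzero : ∀ x : V κ, x i = 0 → f x = 0 := by
    intro x hx
    have h1 : rf i x = x := by
      ext j
      rw [rf_apply]
      split_ifs with h
      · subst h; rw [hx, neg_zero]
      · rfl
    have h2 := hodd x
    rw [h1] at h2
    linarith
  have hsq : ∀ x : V κ, HasFDerivAt (fun y : V κ => f y ^ 2) ((2 * f x) • fderiv ℝ f x) x := by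
    intro x
    have h := (hdiff x).hasFDerivAt.pow 2
    have e : 2 * f x = 2 • f x ^ (2 - 1) := by
      rw [show (2 : ℕ) - 1 = 1 from rfl, pow_one, two_smul, two_mul]
    rw [e]
    exact h
  have key : ∀ x : V κ, HasFDerivAt (fun x : V κ => if 0 < x i then f x ^ 2 else 0)
      (if 0 < x i then (2 * f x) • fderiv ℝ f x else 0) x := by
    intro x
    rcases lt_trichotomy (x i) 0 with hx | hx | hx
    · rw [if_neg (not_lt.mpr hx.le)]
      have hev : (fun y : V κ => if 0 < y i then f y ^ 2 else 0) =ᶠ[nhds x] fun _ => (0 : ℝ) := by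
        have : ∀ᶠ y : V κ in nhds x, y i < 0 :=
          hcoord.continuousAt.eventually (Iio_mem_nhds hx)
        filter_upwards [this] with y hy
        rw [if_neg (not_lt.mpr hy.le)]
      exact (hasFDerivAt_const (0 : ℝ) x).congr_of_eventuallyEq hev
    · rw [if_neg (by rw [hx]; exact lt_irrefl 0)]
      have h1 := hsq x
      rw [hzero x hx, mul_zero, zero_smul] at h1
      rw [hasFDerivAt_iff_isLittleO] at h1 ⊢
      refine (Asymptotics.isBigO_of_le _ fun y => ?_).trans_isLittleO h1
      have hx0 : ¬ (0 < x i) := by rw [hx]; exact lt_irrefl 0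
      show ‖(if 0 < y i then f y ^ 2 else 0) - (if 0 < x i then f x ^ 2 else 0) -
        (0 : V κ →L[ℝ] ℝ) (y - x)‖ ≤ ‖f y ^ 2 - f x ^ 2 - (0 : V κ →L[ℝ] ℝ) (y - x)‖
      rw [if_neg hx0, hzero x hx, zero_apply]
      by_cases h : 0 < y i
      · rw [if_pos h]
        simp
      · rw [if_neg h]
        simp only [sub_zero, norm_zero]
        exact norm_nonneg _
    · rw [if_pos hx]
      have hev : (fun y : V κ => if 0 < y i then f y ^ 2 else 0) =ᶠ[nhds x]
          fun y => f y ^ 2 := by
        have : ∀ᶠ y : V κ in nhds x, 0 < y i :=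
          hcoord.continuousAt.eventually (Ioi_mem_nhds hx)
        filter_upwards [this] with y hy
        rw [if_pos hy]
      exact (hsq x).congr_of_eventuallyEq hev
  have hfd : ∀ x : V κ, fderiv ℝ (fun x : V κ => if 0 < x i then f x ^ 2 else 0) x =
      if 0 < x i then (2 * f x) • fderiv ℝ f x else 0 := fun x => (key x).fderiv
  refine ⟨?_, hfd⟩
  rw [contDiff_one_iff_fderiv]
  refine ⟨fun x => (key x).differentiableAt, ?_⟩
  have e1 : fderiv ℝ (fun x : V κ => if 0 < x i then f x ^ 2 else 0) =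
      fun x : V κ => if x i ≤ 0 then 0 else (2 * f x) • fderiv ℝ f x := by
    funext x
    rw [hfd]
    by_cases h : 0 < x i
    · rw [if_pos h, if_neg (not_le.mpr h)]
    · rw [if_neg h, if_pos (not_lt.mp h)]
  rw [e1]
  have hA : Continuous (fun x : V κ => (2 * f x) • fderiv ℝ f x) :=
    (continuous_const.mul hf.continuous).smul (hf.continuous_fderiv (by norm_num))
  refine Continuous.if_le continuous_const hA hcoord continuous_const ?_
  intro x hx
  rw [hzero x hx, mul_zero, zero_smul]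

end Pool.Agent.TH610.RB
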