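import Mathlib

/-!
# Densities depending on the norms of the parts of a vector, symmetric inside blocks: geometry

`p i` is the atom of the coordinate `i`, `g a` the block of the atom `a`.  `P p a x` is the part of
`x` in the atom `a`.
-/

set_option autoImplicit false

namespace Pool.Agent.TH610.RB

open MeasureTheory Set Filter
open scoped ENNReal InnerProductSpace Topology

/-- `ℝ^κ` -/
abbrev V (κ : Type) : Type := EuclideanSpace ℝ κ

variable {κ A B : Type} [Fintype κ] [DecidableEq A]

/-- the part of `x` in the atom `a` -/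
noncomputable def P (p : κ → A) (a : A) : V κ →L[ℝ] V κ :=
  LinearMap.toContinuousLinearMap
    { toFun := fun x => WithLp.toLp 2 fun i => if p i = a then x i else 0
      map_add' := fun x y => by ext i; by_cases h : p i = a <;> simp [h]
      map_smul' := fun c x => by ext i; by_cases h : p i = a <;> simp [h] }

theorem P_apply (p : κ → A) (a : A) (x : V κ) (i : κ) :
    P p a x i = if p i = a then x i else 0 := rfl

theorem P_P (p : κ → A) (a c : A) (x : V κ) : P p a (P p c x) = if a = c then P p a x else 0 := by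
  ext i
  by_cases h : a = c
  · subst h
    rw [if_pos rfl, P_apply, P_apply]
    split_ifs <;> rfl
  · rw [if_neg h, P_apply]
    by_cases h1 : p i = a
    · rw [if_pos h1, P_apply, if_neg (fun h2 => h (h1.symm.trans h2))]
      rfl
    · rw [if_neg h1]
      rfl

theorem P_self (p : κ → A) (a : A) (x : V κ) : P p a (P p a x) = P p a x := by
  rw [P_P, if_pos rfl]

theorem P_ne (p : κ → A) {a c : A} (h : a ≠ c) (x : V κ) : P p a (P p c x) = 0 := by
  rw [P_P, if_neg h]

theorem norm_sq_P (p : κ → A) (a : A) (x : V κ) :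
    ‖P p a x‖ ^ 2 = ∑ i, if p i = a then x i ^ 2 else 0 := by
  rw [EuclideanSpace.real_norm_sq_eq]
  refine Finset.sum_congr rfl fun i _ => ?_
  rw [P_apply]
  split_ifs <;> simp

theorem norm_sq_sum [Fintype A] (p : κ → A) (x : V κ) : ‖x‖ ^ 2 = ∑ a, ‖P p a x‖ ^ 2 := by
  simp_rw [norm_sq_P]
  rw [Finset.sum_comm, EuclideanSpace.real_norm_sq_eq]
  refine Finset.sum_congr rfl fun i _ => ?_
  rw [Finset.sum_ite_eq Finset.univ (p i) fun _ => x i ^ 2, if_pos (Finset.mem_univ _)]

theorem sum_P [Fintype A] (p : κ → A) (x : V κ) : ∑ a, P p a x = x := by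
  ext i
  simp only [WithLp.ofLp_sum, Finset.sum_apply, P_apply]
  rw [Finset.sum_ite_eq Finset.univ (p i) fun _ => x i, if_pos (Finset.mem_univ _)]

theorem norm_P_le (p : κ → A) (a : A) (x : V κ) : ‖P p a x‖ ≤ ‖x‖ := by
  have h1 : ‖P p a x‖ ^ 2 ≤ ‖x‖ ^ 2 := by
    rw [norm_sq_P, EuclideanSpace.real_norm_sq_eq]
    refine Finset.sum_le_sum fun i _ => ?_
    split_ifs
    · exact le_rfl
    · positivity
  exact le_of_sq_le_sq h1 (norm_nonneg _)

theorem inner_P (p : κ → A) (a : A) (x y : V κ) : ⟪P p a x, y⟫_ℝ = ⟪x, P p a y⟫_ℝ := by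
  simp only [PiLp.inner_apply, P_apply]
  refine Finset.sum_congr rfl fun i _ => ?_
  split_ifs <;> simp

theorem inner_PP (p : κ → A) (a : A) (x : V κ) : ⟪P p a x, x⟫_ℝ = ‖P p a x‖ ^ 2 := by
  have h1 : ⟪P p a x, x⟫_ℝ = ⟪P p a (P p a x), x⟫_ℝ := by rw [P_self]
  rw [h1, inner_P, real_inner_self_eq_norm_sq]

theorem trace_P (p : κ → A) (a : A) :
    LinearMap.trace ℝ (V κ) (P p a : V κ →ₗ[ℝ] V κ) =
      ((Finset.univ.filter fun i => p i = a).card : ℝ) := by
  classical
  rw [LinearMap.trace_eq_sum_inner _ (EuclideanSpace.basisFun κ ℝ), Finset.card_filter]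
  push_cast
  refine Finset.sum_congr rfl fun i _ => ?_
  rw [EuclideanSpace.basisFun_apply, EuclideanSpace.inner_single_left]
  show (1 : ℝ) * P p a (EuclideanSpace.single i 1) i = _
  rw [P_apply]
  split_ifs <;> simp

/-- the sum of the norms of the parts over a finite set of atoms -/
noncomputable def nS (p : κ → A) (S : Finset A) (x : V κ) : ℝ := ∑ a ∈ S, ‖P p a x‖

/-- log-concave densities which depend on the norms of the parts only and do not change when two
atoms of the same block are exchanged -/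
structure RD (p : κ → A) (g : A → B) (ρ : V κ → ℝ) : Prop where
  nonneg : ∀ x, 0 ≤ ρ x
  meas : Measurable ρ
  logc : ∀ x y : V κ, ∀ t : ℝ, 0 < t → t < 1 → ρ x ^ (1 - t) * ρ y ^ t ≤ ρ ((1 - t) • x + t • y)
  inv : ∀ a a', g a = g a' → ∀ x y, (∀ c, ‖P p c y‖ = ‖P p (Equiv.swap a a' c) x‖) → ρ y = ρ x

/-- permutations of the coordinates which exchange two atoms of the same block -/
def Sw (p : κ → A) (g : A → B) : Prop :=
  ∀ a a', g a = g a' → ∃ π : Equiv.Perm κ, ∀ i, p (π i) = Equiv.swap a a' (p i)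

variable {p : κ → A} {g : A → B} {ρ : V κ → ℝ}

theorem RD.flat (h : RD p g ρ) (a : A) (x y : V κ) (hn : ∀ c, ‖P p c y‖ = ‖P p c x‖) :
    ρ y = ρ x := by
  refine h.inv a a rfl x y fun c => ?_
  rw [Equiv.swap_self]
  exact hn c

theorem fd_le {f : V κ → ℝ} (hd : Differentiable ℝ f) (x v : V κ) (T : ℝ) (hT : 0 < T)
    (h : ∀ t : ℝ, 0 < t → t < T → f (x + t • v) ≤ f x) : fderiv ℝ f x v ≤ 0 := by
  have h1 : HasDerivAt (fun t : ℝ => x + t • v) v 0 := by
    simpa using ((hasDerivAt_id (0 : ℝ)).smul_const v).const_add x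
  have h2 : HasDerivAt (fun t : ℝ => f (x + t • v)) (fderiv ℝ f x v) 0 := by
    have h3 : HasFDerivAt f (fderiv ℝ f x) (x + (0 : ℝ) • v) := by
      simpa using (hd x).hasFDerivAt
    exact h3.comp_hasDerivAt 0 h1
  refine le_of_tendsto h2.tendsto_slope_zero_right ?_
  filter_upwards [Ioo_mem_nhdsGT hT] with t ht
  have h4 := h t ht.1 ht.2
  simp only [zero_add, zero_smul, add_zero, smul_eq_mul]
  exact mul_nonpos_of_nonneg_of_nonpos (inv_nonneg.2 ht.1.le) (sub_nonpos.2 h4)

/-- a convex combination of two points of equal density has larger density -/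
theorem RD.comb (h : RD p g ρ) (y z : V κ) (hyz : ρ z = ρ y) (t : ℝ) (ht0 : 0 < t) (ht1 : t < 1) :
    ρ y ≤ ρ ((1 - t) • y + t • z) := by
  have hlog := h.logc y z t ht0 ht1
  rw [hyz] at hlog
  rcases (h.nonneg y).eq_or_lt with h0 | hpos
  · rw [← h0]
    exact h.nonneg _
  · rw [← Real.rpow_add hpos] at hlog
    simpa using hlog

/-- D1: no change in a tangential direction -/
theorem RD.tang (h : RD p g ρ) (hd : Differentiable ℝ ρ) (a : A) (x v : V κ) (hv : P p a v = v)
    (hx : ⟪v, x⟫_ℝ = 0) : fderiv ℝ ρ x v = 0 := by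
  have hx' : ⟪P p a x, v⟫_ℝ = 0 := by
    rw [inner_P, hv, real_inner_comm, hx]
  have key : ∀ t : ℝ, ρ (x + t • v) = ρ (x + (-t) • v) := by
    intro t
    refine h.flat a (x + (-t) • v) (x + t • v) fun c => ?_
    by_cases hc : c = a
    · subst hc
      rw [map_add, map_add, map_smul, map_smul, hv]
      have e1 : ∀ s : ℝ, ‖P p c x + s • v‖ ^ 2 = ‖P p c x‖ ^ 2 + s ^ 2 * ‖v‖ ^ 2 := by
        intro s
        rw [norm_add_sq_real, inner_smul_right, hx', norm_smul, Real.norm_eq_abs, mul_pow, sq_abs]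
        ring
      have e2 : ‖P p c x + t • v‖ ^ 2 = ‖P p c x + (-t) • v‖ ^ 2 := by
        rw [e1, e1]
        ring
      exact (sq_eq_sq₀ (norm_nonneg _) (norm_nonneg _)).1 e2
    · have e2 : P p c v = 0 := by
        rw [← hv]
        exact P_ne p hc v
      rw [map_add, map_add, map_smul, map_smul, e2, smul_zero, smul_zero]
  have h1 : HasDerivAt (fun t : ℝ => x + t • v) v 0 := by
    simpa using ((hasDerivAt_id (0 : ℝ)).smul_const v).const_add x
  have h2 : HasDerivAt (fun t : ℝ => ρ (x + t • v)) (fderiv ℝ ρ x v) 0 := by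
    have h3 : HasFDerivAt ρ (fderiv ℝ ρ x) (x + (0 : ℝ) • v) := by
      simpa using (hd x).hasFDerivAt
    exact h3.comp_hasDerivAt 0 h1
  have h3 : HasDerivAt (fun t : ℝ => ρ (x + (-t) • v)) (-(fderiv ℝ ρ x v)) 0 := by
    have h4 : HasDerivAt (fun t : ℝ => ρ (x + t • v)) (fderiv ℝ ρ x v) (-(0 : ℝ)) := by
      simpa using h2
    have h5 : HasDerivAt ((fun t : ℝ => ρ (x + t • v)) ∘ fun t : ℝ => -t)
        ((-1 : ℝ) • fderiv ℝ ρ x v) 0 := h4.scomp (0 : ℝ) (hasDerivAt_neg (0 : ℝ))
    have e : (-1 : ℝ) • fderiv ℝ ρ x v = -(fderiv ℝ ρ x v) := by simp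
    rw [e] at h5
    exact h5
  have h4 : (fun t : ℝ => ρ (x + t • v)) = fun t : ℝ => ρ (x + (-t) • v) := funext key
  rw [h4] at h2
  have h5 := h2.unique h3
  linarith

/-- D2: the radial direction -/
theorem RD.radial (h : RD p g ρ) (hd : Differentiable ℝ ρ) (a : A) (x : V κ) :
    fderiv ℝ ρ x (P p a x) ≤ 0 := by
  refine fd_le hd x _ 1 one_pos fun t ht _ => ?_
  obtain ⟨y, hy⟩ : ∃ y, y = x + t • P p a x := ⟨_, rfl⟩
  obtain ⟨z, hz⟩ : ∃ z, z = x - (2 + t) • P p a x := ⟨_, rfl⟩
  rw [← hy]
  have hyz : ρ z = ρ y := by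
    refine h.flat a y z fun c => ?_
    by_cases hc : c = a
    · subst hc
      have e1 : P p c z = -((1 + t) • P p c x) := by
        rw [hz, map_sub, map_smul, P_self]
        module
      have e2 : P p c y = (1 + t) • P p c x := by
        rw [hy, map_add, map_smul, P_self]
        module
      rw [e1, e2, norm_neg]
    · rw [hy, hz, map_add, map_sub, map_smul, map_smul, P_ne p hc, smul_zero, smul_zero, add_zero,
        sub_zero]
  have hD : 0 < 2 + 2 * t := by linarith
  obtain ⟨m, hm⟩ : ∃ m, m = t / (2 + 2 * t) := ⟨_, rfl⟩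
  have hm0 : 0 < m := by rw [hm]; exact div_pos ht hD
  have hm1 : m < 1 := by
    rw [hm, div_lt_one hD]
    linarith
  have hmD : m * (2 + 2 * t) = t := by
    rw [hm]
    field_simp
  have e : (1 - m) • y + m • z = x := by
    rw [hy, hz]
    have e1 : (1 - m) • (x + t • P p a x) + m • (x - (2 + t) • P p a x) =
        x + (t - m * (2 + 2 * t)) • P p a x := by module
    rw [e1, hmD, sub_self, zero_smul, add_zero]
  have h1 := h.comb y z hyz m hm0 hm1
  rw [e] at h1
  exact h1

/-- D3: transfer from a smaller atom to a larger one -/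
theorem RD.trans (h : RD p g ρ) (hd : Differentiable ℝ ρ) {a c : A} (hac : a ≠ c)
    (hg : g a = g c) (x : V κ) (hle : ‖P p c x‖ ≤ ‖P p a x‖) :
    ‖P p c x‖ * fderiv ℝ ρ x (P p a x) ≤ ‖P p a x‖ * fderiv ℝ ρ x (P p c x) := by
  rcases (norm_nonneg (P p c x)).eq_or_lt with h0 | hq
  · have h1 : P p c x = 0 := norm_eq_zero.1 h0.symm
    rw [h1]
    simp
  obtain ⟨P', hP'⟩ : ∃ P' : ℝ, P' = ‖P p a x‖ := ⟨_, rfl⟩
  obtain ⟨Q, hQ⟩ : ∃ Q : ℝ, Q = ‖P p c x‖ := ⟨_, rfl⟩
  rw [← hP', ← hQ] at hle ⊢
  rw [← hQ] at hq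
  have hP0 : 0 < P' := lt_of_lt_of_le hq hle
  have key : fderiv ℝ ρ x (Q • P p a x - P' • P p c x) ≤ 0 := by
    refine fd_le hd x _ (1 / P') (by positivity) fun t ht ht1 => ?_
    have htP : t * P' < 1 := by
      rw [lt_div_iff₀ hP0] at ht1
      exact ht1
    have htQ : t * Q < 1 := lt_of_le_of_lt (mul_le_mul_of_nonneg_left hle ht.le) htP
    obtain ⟨y, hy⟩ : ∃ y, y = x + t • (Q • P p a x - P' • P p c x) := ⟨_, rfl⟩
    rw [← hy]
    obtain ⟨z, hz⟩ : ∃ z, z = x + ((Q - t * P' * Q) / P' - 1) • P p a x +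
      ((P' + t * P' * Q) / Q - 1) • P p c x := ⟨_, rfl⟩
    have eya : P p a y = (1 + t * Q) • P p a x := by
      rw [hy, map_add, map_smul, map_sub, map_smul, map_smul, P_self, P_ne p hac]
      module
    have eyc : P p c y = (1 - t * P') • P p c x := by
      rw [hy, map_add, map_smul, map_sub, map_smul, map_smul, P_self, P_ne p hac.symm]
      module
    have eyd : ∀ d, d ≠ a → d ≠ c → P p d y = P p d x := by
      intro d h1 h2
      rw [hy, map_add, map_smul, map_sub, map_smul, map_smul, P_ne p h1, P_ne p h2]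
      module
    have eza : P p a z = ((Q - t * P' * Q) / P') • P p a x := by
      rw [hz, map_add, map_add, map_smul, map_smul, P_self, P_ne p hac]
      module
    have ezc : P p c z = ((P' + t * P' * Q) / Q) • P p c x := by
      rw [hz, map_add, map_add, map_smul, map_smul, P_self, P_ne p hac.symm]
      module
    have ezd : ∀ d, d ≠ a → d ≠ c → P p d z = P p d x := by
      intro d h1 h2
      rw [hz, map_add, map_add, map_smul, map_smul, P_ne p h1, P_ne p h2]
      module
    have hyz : ρ z = ρ y := by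
      refine h.inv a c hg y z fun d => ?_
      by_cases h1 : d = a
      · subst h1
        rw [Equiv.swap_apply_left, eza, eyc, norm_smul, norm_smul, ← hP', ← hQ,
          Real.norm_of_nonneg, Real.norm_of_nonneg]
        · field_simp
        · linarith
        · have : 0 ≤ Q - t * P' * Q := by nlinarith
          positivity
      · by_cases h2 : d = c
        · subst h2
          rw [Equiv.swap_apply_right, ezc, eya, norm_smul, norm_smul, ← hP', ← hQ,
            Real.norm_of_nonneg, Real.norm_of_nonneg]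
          · field_simp
          · positivity
          · positivity
        · rw [Equiv.swap_apply_of_ne_of_ne h1 h2, ezd d h1 h2, eyd d h1 h2]
    have hD : 0 < P' - Q + 2 * (t * P' * Q) := by
      have : 0 < t * P' * Q := by positivity
      linarith
    obtain ⟨m, hm⟩ : ∃ m, m = t * P' * Q / (P' - Q + 2 * (t * P' * Q)) := ⟨_, rfl⟩
    have hm0 : 0 < m := by rw [hm]; positivity
    have hm1 : m < 1 := by
      rw [hm, div_lt_one hD]
      have : 0 < t * P' * Q := by positivity
      linarith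
    have hmD : m * (P' - Q + 2 * (t * P' * Q)) = t * P' * Q := by
      rw [hm, div_mul_cancel₀ _ hD.ne']
    have e : (1 - m) • y + m • z = x := by
      have e1 : (1 - m) • y + m • z = x +
          ((1 - m) * (t * Q) + m * ((Q - t * P' * Q) / P' - 1)) • P p a x +
          (-((1 - m) * (t * P')) + m * ((P' + t * P' * Q) / Q - 1)) • P p c x := by
        rw [hy, hz]
        module
      have e2 : (1 - m) * (t * Q) + m * ((Q - t * P' * Q) / P' - 1) = 0 := by
        have : (1 - m) * (t * Q) + m * ((Q - t * P' * Q) / P' - 1) =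
            (t * P' * Q - m * (P' - Q + 2 * (t * P' * Q))) / P' := by
          field_simp
          ring
        rw [this, hmD, sub_self, zero_div]
      have e3 : -((1 - m) * (t * P')) + m * ((P' + t * P' * Q) / Q - 1) = 0 := by
        have : -((1 - m) * (t * P')) + m * ((P' + t * P' * Q) / Q - 1) =
            (m * (P' - Q + 2 * (t * P' * Q)) - t * P' * Q) / Q := by
          field_simp
          ring
        rw [this, hmD, sub_self, zero_div]
      rw [e1, e2, e3, zero_smul, zero_smul, add_zero, add_zero]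
    have h1 := h.comb y z hyz m hm0 hm1
    rw [e] at h1
    exact h1
  rw [map_sub, map_smul, map_smul, smul_eq_mul, smul_eq_mul] at key
  linarith

end Pool.Agent.TH610.RB
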