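import Pool.Agent.TH610.RB.Flow
import Pool.Agent.TH610.RB.Field2

/-!
# The Hardy type inequality for functions which are odd in one coordinate
-/

set_option autoImplicit false

namespace Pool.Agent.TH610.RB

open MeasureTheory Set Filter
open scoped ENNReal InnerProductSpace Topology
open Pool.Agent.H212R2.KLS (mu Bdd)
open Pool.Agent.H888R2.KT (LC St zz gs gc pst hs tw)
open Pool.Agent.TH594.KP (GD)

variable {κ : Type} [Fintype κ]

theorem fd_int {ρ : V κ → ℝ} (hL : LC ρ) (w : V κ → V κ) (hw : Continuous w) (F : V κ → ℝ)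
    (hF : ContDiff ℝ 1 F) (hFc : HasCompactSupport F) :
    Integrable (fun x => fderiv ℝ F x (w x)) (mu ρ) := by
  have hfin : IsFiniteMeasure (mu ρ) := ⟨lt_top_iff_ne_top.2 hL.fin⟩
  refine Continuous.integrable_of_hasCompactSupport
    ((hF.continuous_fderiv one_ne_zero).clm_apply hw) ?_
  refine (hFc.fderiv (𝕜 := ℝ)).mono ?_
  intro x hx
  rw [Function.mem_support] at hx ⊢
  intro h0
  apply hx
  rw [h0]
  rfl

/-- consequence of the flow inequality -/
theorem conf {G : Set (V κ ≃ₗᵢ[ℝ] V κ)} {ρ : V κ → ℝ} (hS : GD G ρ) (hL : LC ρ) (w : V κ → V κ)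
    (hw : ContDiff ℝ 1 w) (F : V κ → ℝ) (hF : ContDiff ℝ 1 F) (hFc : HasCompactSupport F)
    (hF0 : ∀ x, 0 ≤ F x)
    (hd : ∀ g : V κ → ℝ, GD G g → ContDiff ℝ 1 g → ∀ x, F x ≠ 0 → fderiv ℝ g x (w x) ≤ 0)
    (N : Set (V κ)) (hN : MeasurableSet N) (α β : ℝ)
    (hpt : ∀ x, ρ x ≠ 0 → F x * dv w x ≤ -α * F x + β * N.indicator F x) :
    α * ∫ x, F x ∂(mu ρ) ≤ ∫ x, fderiv ℝ F x (w x) ∂(mu ρ) + β * ∫ x in N, F x ∂(mu ρ) := by
  have hfin : IsFiniteMeasure (mu ρ) := ⟨lt_top_iff_ne_top.2 hL.fin⟩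
  have hflow : 0 ≤ ∫ x, (fderiv ℝ F x (w x) + F x * dv w x) ∂(mu ρ) :=
    flow hS hL w hw F hF hFc hF0 hd
  have hdc : Continuous (dv w) := Pool.Agent.TH594.KP.dv_cont hw
  have i1 := fd_int hL w hw.continuous F hF hFc
  have i2 : Integrable (fun x => F x * dv w x) (mu ρ) :=
    Continuous.integrable_of_hasCompactSupport (hF.continuous.mul hdc) hFc.mul_right
  have i3 : Integrable F (mu ρ) := hF.continuous.integrable_of_hasCompactSupport hFc
  have i4 : Integrable (N.indicator F) (mu ρ) := i3.indicator hN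
  have h1 : ∫ x, F x * dv w x ∂(mu ρ) ≤ ∫ x, (-α * F x + β * N.indicator F x) ∂(mu ρ) :=
    integral_mono_ae i2 ((i3.const_mul _).add (i4.const_mul _)) (ae_mu hS.meas _ hpt)
  rw [integral_add (i3.const_mul _) (i4.const_mul _), integral_const_mul, integral_const_mul,
    integral_indicator hN] at h1
  rw [integral_add i1 i2] at hflow
  linarith

variable {A B : Type} [Fintype A] [DecidableEq A] [DecidableEq κ]
variable {p : κ → A} {g : A → B} {ρ : V κ → ℝ}

/-- constant in the Hardy inequality -/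
def cH : ℝ := 46000000000000

theorem cH_pos : 0 < cH := by
  unfold cH
  norm_num

omit [Fintype A] [DecidableEq κ] in
theorem dm_ge (i : κ) : 1 ≤ dm p (p i) := by
  unfold dm
  have h1 : 0 < (Finset.univ.filter fun j => p j = p i).card :=
    Finset.card_pos.2 ⟨i, by simp⟩
  exact_mod_cast h1

omit [Fintype A] in
theorem norm_P_rf (i : κ) (c : A) (x : V κ) : ‖P p c (rf i x)‖ = ‖P p c x‖ :=
  refl_P (p i) _ (P_single i) c x

omit [Fintype A] in
theorem rf_mem (i : κ) : rf i ∈ G p g := refl_mem (p i) _ (P_single i)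

theorem hardy (hS : GD (G p g) ρ) (hL : LC ρ) (hSw : Sw p g) (a : ℝ) (ha : 0 < a) (i : κ)
    (S : Finset A) (haS : p i ∉ S) (hSg : ∀ d ∈ S, g (p i) = g d)
    (hmS : ∀ d ∈ S, dm p d = dm p (p i))
    (hsupp : ∀ x, ρ x ≠ 0 →
      ‖P p (p i) x‖ + nS p S x ≤ a * Real.sqrt (dm p (p i)) * (S.card + 1))
    (f : V κ → ℝ) (hf : ContDiff ℝ 1 f) (hodd : ∀ x, f (rf i x) = - f x) :
    ∫ x, f x ^ 2 ∂(mu ρ) ≤ cH * a ^ 2 * ∫ x, ‖fderiv ℝ f x‖ ^ 2 ∂(mu ρ) := by
  obtain ⟨m, hm⟩ : ∃ m, m = dm p (p i) := ⟨_, rfl⟩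
  have hm1 : 1 ≤ m := by rw [hm]; exact dm_ge i
  obtain ⟨k, hk⟩ : ∃ k : ℝ, k = S.card + 1 := ⟨_, rfl⟩
  have hk1 : 1 ≤ k := by
    rw [hk]
    have : (0 : ℝ) ≤ S.card := Nat.cast_nonneg _
    linarith
  have hsm1 : 1 ≤ Real.sqrt m := by
    rw [show (1 : ℝ) = Real.sqrt 1 from Real.sqrt_one.symm]
    exact Real.sqrt_le_sqrt hm1
  have hsm2 : Real.sqrt m ^ 2 = m := Real.sq_sqrt (by linarith)
  obtain ⟨R, hR⟩ : ∃ R : ℝ, R = 24 * (a * Real.sqrt m) := ⟨_, rfl⟩
  obtain ⟨r, hr⟩ : ∃ r : ℝ, r = 12 * R := ⟨_, rfl⟩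
  obtain ⟨R2, hR2⟩ : ∃ R2 : ℝ, R2 = 720 * a := ⟨_, rfl⟩
  have hR0 : 0 < R := by rw [hR]; positivity
  have hr0 : 0 < r := by rw [hr]; positivity
  have hR20 : 0 < R2 := by rw [hR2]; positivity
  rw [← hm, ← hk] at hsupp
  have hfin : IsFiniteMeasure (mu ρ) := ⟨lt_top_iff_ne_top.2 hL.fin⟩
  obtain ⟨R0, hR0'⟩ := hL.bdd
  have hR1 : 0 < max R0 1 := lt_max_of_lt_right one_pos
  obtain ⟨η, hη1, hη2, hη3, hη4⟩ := cut (κ := κ) (max R0 1) hR1
  obtain ⟨q, hq⟩ : ∃ q : V κ → ℝ, q = fun x => f x * η x := ⟨_, rfl⟩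
  have hqc : ContDiff ℝ 1 q := by rw [hq]; exact hf.mul hη1
  have hqs : HasCompactSupport q := by rw [hq]; exact hη2.mul_left
  have hqodd : ∀ x, q (rf i x) = - q x := by
    intro x
    rw [hq]
    simp only
    rw [hodd, hη4 _ _ ((rf i).norm_map x)]
    ring
  have hball : ∀ x, ρ x ≠ 0 → ‖x‖ ≤ max R0 1 := by
    intro x hx
    by_contra hc
    rw [not_le] at hc
    exact hx (hR0' x ((le_max_left _ _).trans_lt hc))
  have hgf : ∀ x, ρ x ≠ 0 → q x = f x := by
    intro x hx
    rw [hq]
    simp only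
    rw [(hη3 x (hball x hx)).1, mul_one]
  have hdgf : ∀ x, ρ x ≠ 0 → fderiv ℝ q x = fderiv ℝ f x := by
    intro x hx
    have e1 : fderiv ℝ q x = f x • fderiv ℝ η x + η x • fderiv ℝ f x := by
      rw [hq]
      exact fderiv_fun_mul (hf.differentiable (by norm_num) x)
        (hη1.differentiable (by norm_num) x)
    rw [e1, (hη3 x (hball x hx)).1, (hη3 x (hball x hx)).2, smul_zero, zero_add, one_smul]
  have hI1 : ∫ x, f x ^ 2 ∂(mu ρ) = ∫ x, q x ^ 2 ∂(mu ρ) :=
    integral_congr_ae (ae_mu hS.meas _ fun x hx => by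
      show f x ^ 2 = q x ^ 2
      rw [hgf x hx])
  have hI2 : ∫ x, ‖fderiv ℝ f x‖ ^ 2 ∂(mu ρ) = ∫ x, ‖fderiv ℝ q x‖ ^ 2 ∂(mu ρ) :=
    integral_congr_ae (ae_mu hS.meas _ fun x hx => by
      show ‖fderiv ℝ f x‖ ^ 2 = ‖fderiv ℝ q x‖ ^ 2
      rw [hdgf x hx])
  rw [hI1, hI2]
  clear hI1 hI2 hdgf hgf hq hodd hf
  -- integrability
  have hqfd : Continuous (fderiv ℝ q) := hqc.continuous_fderiv one_ne_zero
  have hsq_cs : HasCompactSupport (fun x => q x ^ 2) := by
    have : (fun x => q x ^ 2) = fun x => q x * q x := by funext x; ring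
    rw [this]
    exact hqs.mul_left
  have hsq_c : Continuous (fun x => q x ^ 2) := hqc.continuous.pow 2
  have iq2 : Integrable (fun x => q x ^ 2) (mu ρ) :=
    hsq_c.integrable_of_hasCompactSupport hsq_cs
  have iqd : Integrable (fun x => |q x| * ‖fderiv ℝ q x‖) (mu ρ) := by
    refine Continuous.integrable_of_hasCompactSupport (hqc.continuous.abs.mul hqfd.norm) ?_
    have h1 : HasCompactSupport fun x => |q x| := hqs.abs
    exact h1.mul_right
  have hdd_c : Continuous (fun x => ‖fderiv ℝ q x‖ ^ 2) := hqfd.norm.pow 2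
  have idd : Integrable (fun x => ‖fderiv ℝ q x‖ ^ 2) (mu ρ) := by
    refine hdd_c.integrable_of_hasCompactSupport ?_
    refine (hqs.fderiv (𝕜 := ℝ)).mono ?_
    intro x hx
    rw [Function.mem_support] at hx ⊢
    intro h0
    apply hx
    rw [h0]
    simp
  obtain ⟨G2, hG2⟩ : ∃ G2, G2 = ∫ x, q x ^ 2 ∂(mu ρ) := ⟨_, rfl⟩
  obtain ⟨GD', hGD⟩ : ∃ GD', GD' = ∫ x, |q x| * ‖fderiv ℝ q x‖ ∂(mu ρ) := ⟨_, rfl⟩
  obtain ⟨DD, hDD⟩ : ∃ DD, DD = ∫ x, ‖fderiv ℝ q x‖ ^ 2 ∂(mu ρ) := ⟨_, rfl⟩
  rw [← hG2, ← hDD]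
  have hGD0 : 0 ≤ GD' := by
    rw [hGD]
    exact integral_nonneg fun x => by positivity
  have hc0 : 0 ≤ (k * R)⁻¹ := by positivity
  have hcS : (k * R)⁻¹ * R * S.card ≤ 1 := by
    have e : (k * R)⁻¹ * R * S.card = S.card / k := by field_simp
    rw [e, div_le_one (by linarith), hk]
    linarith
  have hqw : ∀ (w : V κ → V κ) (C : ℝ) (x : V κ), ‖w x‖ ≤ C →
      q x * fderiv ℝ q x (w x) ≤ C * (|q x| * ‖fderiv ℝ q x‖) := by
    intro w C x hC
    have h1 := (fderiv ℝ q x).le_opNorm (w x)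
    rw [Real.norm_eq_abs] at h1
    calc q x * fderiv ℝ q x (w x) ≤ |q x * fderiv ℝ q x (w x)| := le_abs_self _
      _ = |q x| * |fderiv ℝ q x (w x)| := abs_mul _ _
      _ ≤ |q x| * (‖fderiv ℝ q x‖ * C) :=
          mul_le_mul_of_nonneg_left (h1.trans (mul_le_mul_of_nonneg_left hC
            (norm_nonneg _))) (abs_nonneg _)
      _ = _ := by ring
  obtain ⟨N, hN⟩ : ∃ N : Set (V κ), N = {x | ‖P p (p i) x‖ ^ 2 < 3 * r ^ 2} := ⟨_, rfl⟩
  have hNm : MeasurableSet N := by
    rw [hN]
    exact (isOpen_lt ((P p (p i)).continuous.norm.pow 2) continuous_const).measurableSet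
  -- first step
  have step1 : G2 ≤ 2304 * a * GD' + 49 * ∫ x in N, q x ^ 2 ∂(mu ρ) := by
    obtain ⟨w, hw⟩ : ∃ w : V κ → V κ, w = w1 p (p i) S r R (k * R)⁻¹ := ⟨_, rfl⟩
    have hwc : ContDiff ℝ 1 w := by rw [hw]; exact cd_w1 hr0 R _ (p i) S
    have h1 := conf hS hL w hwc (fun x => q x ^ 2) (hqc.pow 2) hsq_cs (fun x => sq_nonneg _)
      (by
        intro u hu huc x _
        rw [hw]
        exact w1_dir hR0 (by rw [hr]; linarith) hc0 (p i) S haS hSg hcS (GD.rd hSw hu)
          (huc.differentiable one_ne_zero) x) N hNm (m / (24 * R)) (49 * (m / (24 * R)))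
      (by
        intro x hx
        show q x ^ 2 * dv w x ≤ -(m / (24 * R)) * q x ^ 2 +
          49 * (m / (24 * R)) * N.indicator (fun x => q x ^ 2) x
        by_cases hxN : x ∈ N
        · rw [indicator_of_mem hxN]
          have h2 : dv w x ≤ 2 * m / R := by
            rw [hw]
            exact dv_w1_le hR0 (by rw [hr]) hc0 (p i) S haS hcS m hm1 hm.symm
              (fun d hd => (hmS d hd).trans hm.symm) x
          have h3 := mul_le_mul_of_nonneg_left h2 (sq_nonneg (q x))
          have h4 : -(m / (24 * R)) * q x ^ 2 + 49 * (m / (24 * R)) * q x ^ 2 =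
              q x ^ 2 * (2 * m / R) := by
            field_simp
            ring
          rw [h4]
          exact h3
        · rw [indicator_of_notMem hxN, mul_zero, add_zero]
          have hfar : 3 * r ^ 2 ≤ ‖P p (p i) x‖ ^ 2 := by
            rw [hN] at hxN
            exact not_lt.1 hxN
          have hs := hsupp x hx
          have hn0 : 0 ≤ nS p S x := by
            unfold nS
            exact Finset.sum_nonneg fun d _ => norm_nonneg _
          have hp0 := norm_nonneg (P p (p i) x)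
          have e24 : a * Real.sqrt m * k = R / 24 * k := by
            rw [hR]
            ring
          rw [e24] at hs
          have hk40 : 40 ≤ k := by
            have h2 : ‖P p (p i) x‖ ≤ R / 24 * k := by linarith
            have h3 : ‖P p (p i) x‖ ^ 2 ≤ (R / 24 * k) ^ 2 := pow_le_pow_left₀ hp0 h2 2
            have h4 : 3 * (12 * R) ^ 2 ≤ (R / 24 * k) ^ 2 := by
              rw [← hr]
              linarith
            by_contra hcon
            rw [not_le] at hcon
            have h5 : R / 24 * k ≤ R / 24 * 40 :=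
              mul_le_mul_of_nonneg_left hcon.le (by positivity)
            have h6 : (R / 24 * k) ^ 2 ≤ (R / 24 * 40) ^ 2 :=
              pow_le_pow_left₀ (by positivity) h5 2
            nlinarith
          have h2 : dv w x ≤ -(m / (24 * R)) := by
            rw [hw]
            exact dv_w1_far hR0 hr hk40 (p i) S haS (by rw [hk]; linarith) m hm1 hm.symm
              (fun d hd => (hmS d hd).trans hm.symm) x hfar (by linarith)
          have h3 := mul_le_mul_of_nonneg_left h2 (sq_nonneg (q x))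
          linarith)
    have h2 : ∫ x, fderiv ℝ (fun x => q x ^ 2) x (w x) ∂(mu ρ) ≤ 4 * GD' := by
      rw [hGD, ← integral_const_mul]
      refine integral_mono (fd_int hL w hwc.continuous _ (hqc.pow 2) hsq_cs)
        (iqd.const_mul _) fun x => ?_
      show fderiv ℝ (fun x => q x ^ 2) x (w x) ≤ 4 * (|q x| * ‖fderiv ℝ q x‖)
      rw [fd_sq q hqc]
      have := hqw w 2 x (by rw [hw]; exact w1_norm hr0 hR0 hc0 (p i) S hcS x)
      linarith
    have h3 : 24 * R / m * (m / (24 * R) * G2) ≤ 24 * R / m *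
        (4 * GD' + 49 * (m / (24 * R)) * ∫ x in N, q x ^ 2 ∂(mu ρ)) := by
      refine mul_le_mul_of_nonneg_left ?_ (by positivity)
      rw [hG2]
      linarith
    have h4 : 24 * R / m * (m / (24 * R) * G2) = G2 := by
      field_simp
    have h5 : 24 * R / m * (4 * GD' + 49 * (m / (24 * R)) * ∫ x in N, q x ^ 2 ∂(mu ρ)) =
        24 * R / m * 4 * GD' + 49 * ∫ x in N, q x ^ 2 ∂(mu ρ) := by
      field_simp
    rw [h4, h5] at h3
    have h6 : 24 * R / m * 4 ≤ 2304 * a := by
      rw [div_mul_eq_mul_div, div_le_iff₀ (by linarith), hR]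
      have h7 : Real.sqrt m ≤ m := by nlinarith
      have h8 : a * Real.sqrt m ≤ a * m := mul_le_mul_of_nonneg_left h7 ha.le
      nlinarith
    have h7 := mul_le_mul_of_nonneg_right h6 hGD0
    linarith
  -- second step
  have step2 : ∫ x in N, q x ^ 2 ∂(mu ρ) ≤ 138240 * a * GD' := by
    obtain ⟨hh1, hh2⟩ := half i q hqc hqodd
    obtain ⟨H, hH⟩ : ∃ H : V κ → ℝ, H = fun x : V κ => if 0 < x i then q x ^ 2 else 0 := ⟨_, rfl⟩
    rw [← hH] at hh1 hh2
    have hHv : ∀ x, H x = if 0 < x i then q x ^ 2 else 0 := fun x => by rw [hH]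
    have hH0 : ∀ x, 0 ≤ H x := fun x => by
      rw [hHv]
      split_ifs
      · exact sq_nonneg _
      · exact le_rfl
    have hHs : HasCompactSupport H := by
      refine hsq_cs.mono ?_
      intro x hx
      rw [Function.mem_support] at hx ⊢
      intro h0
      apply hx
      rw [hHv]
      split_ifs
      · exact h0
      · rfl
    obtain ⟨w, hw⟩ : ∃ w : V κ → V κ, w = w2 p i R2 := ⟨_, rfl⟩
    have hwc : ContDiff ℝ 1 w := by rw [hw]; exact cd_w2 hR20 i
    have hFc : ContDiff ℝ 1 fun x => ch p (p i) r x * H x := (ch_cd (p i) r).mul hh1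
    have hFs : HasCompactSupport fun x => ch p (p i) r x * H x := hHs.mul_left
    have hF0 : ∀ x, 0 ≤ ch p (p i) r x * H x := fun x => mul_nonneg (ch_nonneg _ _ _) (hH0 x)
    have hxi : ∀ x, H x ≠ 0 → 0 < x i := by
      intro x hx
      by_contra hcon
      apply hx
      rw [hHv, if_neg hcon]
    have h1 := conf hS hL w hwc (fun x => ch p (p i) r x * H x) hFc hFs hF0
      (by
        intro u hu huc x hx
        rw [hw]
        exact w2_dir hR20 i (GD.rd hSw hu) (huc.differentiable one_ne_zero) x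
          (hxi x (right_ne_zero_of_mul hx))) ∅ MeasurableSet.empty (1 / (3 * R2)) 0
      (by
        intro x _
        show ch p (p i) r x * H x * dv w x ≤ -(1 / (3 * R2)) * (ch p (p i) r x * H x) +
          0 * (∅ : Set (V κ)).indicator (fun x => ch p (p i) r x * H x) x
        rw [zero_mul, add_zero]
        by_cases h0 : ch p (p i) r x * H x = 0
        · rw [h0, zero_mul, mul_zero]
        · have h2 : ‖P p (p i) x‖ ^ 2 ≤ dm p (p i) * R2 ^ 2 := by
            rw [← hm]
            by_contra hcon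
            rw [not_le] at hcon
            refine h0 ?_
            rw [ch_zero hr0 (p i) x, zero_mul]
            refine lt_of_le_of_lt ?_ hcon
            have e : 6 * r ^ 2 = 497664 * (a ^ 2 * m) := by
              rw [hr, hR, ← hsm2]
              rw [Real.sqrt_sq (Real.sqrt_nonneg m)]
              ring
            have e2 : m * R2 ^ 2 = 518400 * (a ^ 2 * m) := by
              rw [hR2]
              ring
            rw [e, e2]
            exact mul_le_mul_of_nonneg_right (by norm_num) (by positivity)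
          have h3 : dv w x ≤ -(1 / (3 * R2)) := by
            rw [hw]
            exact dv_w2_le hR20 i x (hxi x (right_ne_zero_of_mul h0)) h2
          have h4 := mul_le_mul_of_nonneg_left h3 (hF0 x)
          linarith)
    rw [zero_mul, add_zero] at h1
    have h2 : ∫ x, fderiv ℝ (fun x => ch p (p i) r x * H x) x (w x) ∂(mu ρ) ≤ 32 * GD' := by
      rw [hGD, ← integral_const_mul]
      refine integral_mono (fd_int hL w hwc.continuous _ hFc hFs) (iqd.const_mul _) fun x => ?_
      show fderiv ℝ (fun x => ch p (p i) r x * H x) x (w x) ≤ 32 * (|q x| * ‖fderiv ℝ q x‖)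
      have h3 : fderiv ℝ (fun x => ch p (p i) r x * H x) x =
          ch p (p i) r x • fderiv ℝ H x + H x • fderiv ℝ (ch p (p i) r) x :=
        fderiv_fun_mul ((ch_cd (p i) r).differentiable one_ne_zero x)
          (hh1.differentiable one_ne_zero x)
      rw [h3]
      simp only [_root_.add_apply, _root_.smul_apply, smul_eq_mul]
      have h4 : H x * fderiv ℝ (ch p (p i) r) x (w x) ≤ 0 := by
        by_cases h0 : H x = 0
        · rw [h0, zero_mul]
        · refine mul_nonpos_of_nonneg_of_nonpos (hH0 x) (fd_ch r (p i) x _ ?_)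
          rw [hw]
          exact w2_inner hR20 i x (hxi x h0).le
      have h5 : 0 ≤ |q x| * ‖fderiv ℝ q x‖ := by positivity
      have h6 : fderiv ℝ H x (w x) ≤ 8 * (|q x| * ‖fderiv ℝ q x‖) := by
        rw [hh2]
        split_ifs
        · show 2 * q x * fderiv ℝ q x (w x) ≤ _
          have := hqw w 4 x (by rw [hw]; exact w2_norm hR20 i x)
          linarith
        · show (0 : ℝ) ≤ _
          positivity
      have h7 : ch p (p i) r x * fderiv ℝ H x (w x) ≤
          ch p (p i) r x * (8 * (|q x| * ‖fderiv ℝ q x‖)) :=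
        mul_le_mul_of_nonneg_left h6 (ch_nonneg _ _ _)
      have h8 : ch p (p i) r x * (8 * (|q x| * ‖fderiv ℝ q x‖)) ≤
          4 * (8 * (|q x| * ‖fderiv ℝ q x‖)) :=
        mul_le_mul_of_nonneg_right (ch_le _ _ _) (by positivity)
      linarith
    have iF : Integrable (fun x => ch p (p i) r x * H x) (mu ρ) :=
      hFc.continuous.integrable_of_hasCompactSupport hFs
    have h3 : ∫ x, ch p (p i) r x * H x ∂(mu ρ) ≤ 69120 * a * GD' := by
      have h4 : 3 * R2 * (1 / (3 * R2) * ∫ x, ch p (p i) r x * H x ∂(mu ρ)) ≤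
          3 * R2 * (32 * GD') := mul_le_mul_of_nonneg_left (h1.trans h2) (by positivity)
      have h5 : 3 * R2 * (1 / (3 * R2) * ∫ x, ch p (p i) r x * H x ∂(mu ρ)) =
          ∫ x, ch p (p i) r x * H x ∂(mu ρ) := by
        field_simp
      rw [h5, hR2] at h4
      linarith
    have key := Pool.Agent.H888R2.KT.N10x.int_comp hS.meas (rf i)
      (fun x => hS.inv (rf i) (rf_mem i) x) (fun x => ch p (p i) r x * H x)
    have h4 : ∫ x in N, q x ^ 2 ∂(mu ρ) ≤
        ∫ x, (ch p (p i) r x * H x + ch p (p i) r (rf i x) * H (rf i x)) ∂(mu ρ) := by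
      rw [← integral_indicator hNm]
      have iF' : Integrable (fun x => ch p (p i) r (rf i x) * H (rf i x)) (mu ρ) := by
        refine Continuous.integrable_of_hasCompactSupport
          (hFc.continuous.comp (rf i).continuous) ?_
        exact hFs.comp_homeomorph (rf i).toHomeomorph
      refine integral_mono (iq2.indicator hNm) (iF.add iF') fun x => ?_
      show N.indicator (fun x => q x ^ 2) x ≤
        ch p (p i) r x * H x + ch p (p i) r (rf i x) * H (rf i x)
      have h5 : 0 ≤ ch p (p i) r x * H x := hF0 x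
      have h6 : 0 ≤ ch p (p i) r (rf i x) * H (rf i x) := hF0 (rf i x)
      by_cases hxN : x ∈ N
      · rw [indicator_of_mem hxN]
        have hx3 : ‖P p (p i) x‖ ^ 2 < 3 * r ^ 2 := by
          rw [hN] at hxN
          exact hxN
        rcases lt_trichotomy (x i) 0 with hx | hx | hx
        · have h7 : H (rf i x) = q x ^ 2 := by
            rw [hHv, rf_apply, if_pos rfl, if_pos (by linarith), hqodd]
            ring
          have h8 : 1 ≤ ch p (p i) r (rf i x) := ch_ge hr0 (p i) _ (by rw [norm_P_rf]; exact hx3)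
          rw [h7]
          have := le_mul_of_one_le_left (sq_nonneg (q x)) h8
          linarith
        · have h7 : q x = 0 := by
            have h8 : rf i x = x := by
              ext j
              rw [rf_apply]
              split_ifs with h
              · subst h; rw [hx, neg_zero]
              · rfl
            have h9 := hqodd x
            rw [h8] at h9
            linarith
          rw [h7]
          have : (0 : ℝ) ^ 2 = 0 := by norm_num
          rw [this]
          linarith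
        · have h7 : H x = q x ^ 2 := by
            rw [hHv, if_pos hx]
          have h8 : 1 ≤ ch p (p i) r x := ch_ge hr0 (p i) _ hx3
          rw [h7] at h5 ⊢
          have := le_mul_of_one_le_left (sq_nonneg (q x)) h8
          linarith
      · rw [indicator_of_notMem hxN]
        linarith
    have iF' : Integrable (fun x => ch p (p i) r (rf i x) * H (rf i x)) (mu ρ) := by
      refine Continuous.integrable_of_hasCompactSupport
        (hFc.continuous.comp (rf i).continuous) ?_
      exact hFs.comp_homeomorph (rf i).toHomeomorph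
    rw [integral_add iF iF'] at h4
    have h5 : ∫ x, ch p (p i) r (rf i x) * H (rf i x) ∂(mu ρ) =
        ∫ x, ch p (p i) r x * H x ∂(mu ρ) := key
    rw [h5] at h4
    linarith
  -- conclusion
  have hDD0 : 0 ≤ DD := by
    rw [hDD]
    exact integral_nonneg fun x => sq_nonneg _
  have hGDle : 6776064 * a * GD' ≤ 1 / 2 * G2 + 1 / 2 * (6776064 * a) ^ 2 * DD := by
    rw [hGD, hG2, hDD, ← integral_const_mul, ← integral_const_mul, ← integral_const_mul,
      ← integral_add (iq2.const_mul _) (idd.const_mul _)]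
    refine integral_mono (iqd.const_mul _) ((iq2.const_mul _).add (idd.const_mul _)) fun x => ?_
    show 6776064 * a * (|q x| * ‖fderiv ℝ q x‖) ≤
      1 / 2 * q x ^ 2 + 1 / 2 * (6776064 * a) ^ 2 * ‖fderiv ℝ q x‖ ^ 2
    have h1 := sq_nonneg (|q x| - 6776064 * a * ‖fderiv ℝ q x‖)
    rw [← sq_abs (q x)]
    nlinarith
  have h1 : G2 ≤ (6776064 * a) ^ 2 * DD := by linarith
  refine h1.trans (mul_le_mul_of_nonneg_right ?_ hDD0)
  rw [mul_pow]
  refine mul_le_mul_of_nonneg_right ?_ (sq_nonneg _)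
  unfold cH
  norm_num

end Pool.Agent.TH610.RB
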