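import Pool.Agent.TH610.RB.Geo
import Pool.Agent.H888R2.KT.N9
import Pool.Agent.H888R2.KT.N10

/-!
# Unconditional log-concave densities: from odd functions to all functions

Adapted from the modules `W586.SK.Even` and `W608.SK.PAR` of the starting files to an arbitrary
index type.
-/

set_option autoImplicit false

namespace Pool.Agent.TH610.RB

open MeasureTheory Set
open scoped ENNReal InnerProductSpace
open Pool.Agent.H212R2.KLS (mu Bdd)
open Pool.Agent.H888R2.KT (LC zz gs gc pst hs)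
open Pool.Agent.H888R2.KT
open Pool.Agent.H888R2.KT.N9x

theorem hs_eq {κ : Type} [Fintype κ] [dk : DecidableEq κ] (v : V κ → ℝ) (x : V κ) : hs v x =
    ∑ i, ‖fderiv ℝ (fun z => fderiv ℝ v z (EuclideanSpace.single i 1)) x‖ ^ 2 := by
  unfold hs
  refine Finset.sum_congr rfl fun i _ => ?_
  have e : @EuclideanSpace.single κ ℝ _ (fun a b => Classical.propDecidable (a = b)) i (1:ℝ) =
      EuclideanSpace.single i (1:ℝ) := by
    have hd : (fun a b => Classical.propDecidable (a = b) : DecidableEq κ) = dk :=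
      Subsingleton.elim _ _
    rw [hd]
  rw [e]

variable {κ : Type} [Fintype κ] [DecidableEq κ]

/-- the reflection of the coordinate `i` -/
noncomputable def rf (i : κ) : V κ ≃ₗᵢ[ℝ] V κ :=
  (ℝ ∙ (EuclideanSpace.single i (1 : ℝ) : V κ))ᗮ.reflection

theorem rf_eq (i : κ) (x : V κ) : rf i x = x - (2 * x i) • EuclideanSpace.single i (1 : ℝ) := by
  unfold rf
  rw [Submodule.reflection_orthogonal_apply, Submodule.reflection_singleton_apply]
  simp only [EuclideanSpace.inner_single_left, map_one, one_mul, PiLp.norm_single, norm_one,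
    one_pow, div_one]
  module

theorem rf_apply (i : κ) (x : V κ) (j : κ) : rf i x j = if j = i then -x j else x j := by
  rw [rf_eq]
  by_cases h : j = i
  · subst h
    simp
    ring
  · simp [h]

theorem rf_rf (i : κ) (x : V κ) : rf i (rf i x) = x := by
  ext j
  rw [rf_apply, rf_apply]
  split_ifs <;> simp

theorem rf_comm (i j : κ) (x : V κ) : rf i (rf j x) = rf j (rf i x) := by
  ext k
  simp only [rf_apply]
  split_ifs <;> rfl

theorem rf_single (i : κ) :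
    rf i (EuclideanSpace.single i (1 : ℝ)) = -(EuclideanSpace.single i (1 : ℝ)) := by
  ext j
  rw [rf_apply]
  by_cases h : j = i
  · subst h; simp
  · simp [h]

omit [DecidableEq κ] in
theorem St0 {ρ : V κ → ℝ} (hS : LC ρ) (L : ℝ) (e : Fin 0 → V κ) : St e L ρ := by
  intro x y
  have h1 := hS.logc x y (1 / 2) (by norm_num) (by norm_num)
  have h2 : (1 - 1 / 2 : ℝ) • x + (1 / 2 : ℝ) • y = (1 / 2 : ℝ) • (x + y) := by
    rw [smul_add]; norm_num
  rw [h2] at h1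
  have h3 : (1 - 1 / 2 : ℝ) = 1 / 2 := by norm_num
  rw [h3] at h1
  have h4 : 0 ≤ ρ x ^ (1 / 2 : ℝ) * ρ y ^ (1 / 2 : ℝ) :=
    mul_nonneg (Real.rpow_nonneg (hS.nonneg x) _) (Real.rpow_nonneg (hS.nonneg y) _)
  have h5 := pow_le_pow_left₀ h4 h1 2
  rw [mul_pow] at h5
  have h6 : ∀ a : ℝ, 0 ≤ a → (a ^ (1 / 2 : ℝ)) ^ 2 = a := by
    intro a ha
    rw [← Real.sqrt_eq_rpow, Real.sq_sqrt ha]
  rw [h6 _ (hS.nonneg x), h6 _ (hS.nonneg y)] at h5
  simpa using h5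

theorem odd_dir (v : V κ → ℝ) (hv : ContDiff ℝ 2 v) (i : κ)
    (he : ∀ x, v (rf i x) = v x) (z : V κ) :
    fderiv ℝ v (rf i z) (EuclideanSpace.single i 1) = -(fderiv ℝ v z (EuclideanSpace.single i 1)) := by
  have hd : Differentiable ℝ v := hv.differentiable (by norm_num)
  have h1 : HasFDerivAt (fun x => v (rf i x))
      ((fderiv ℝ v (rf i z)).comp ((rf i).toContinuousLinearEquiv : V κ →L[ℝ] V κ)) z :=
    (hd (rf i z)).hasFDerivAt.comp z ((rf i).toContinuousLinearEquiv.hasFDerivAt)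
  have h2 : (fun x => v (rf i x)) = v := funext he
  rw [h2] at h1
  have h3 := h1.fderiv
  rw [h3]
  simp only [ContinuousLinearMap.comp_apply]
  have h4 : ((rf i).toContinuousLinearEquiv : V κ →L[ℝ] V κ) (EuclideanSpace.single i (1 : ℝ)) =
      -(EuclideanSpace.single i (1 : ℝ)) := rf_single i
  rw [h4, map_neg, neg_neg]

theorem even {ρ : V κ → ℝ} (hρ : LC ρ) (hrf : ∀ i x, ρ (rf i x) = ρ x) (L : ℝ) (hL : 0 < L)
    (hodd : ∀ i, ∀ f : V κ → ℝ, ContDiff ℝ 1 f → (∀ x, f (rf i x) = - f x) →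
      ∫ x, f x ^ 2 ∂(mu ρ) ≤ L * ∫ x, ‖fderiv ℝ f x‖ ^ 2 ∂(mu ρ))
    (u : V κ → ℝ) (hu0 : ContDiff ℝ 1 u) (heu : ∀ i x, u (rf i x) = u x) :
    ∃ c : ℝ, ∫ x, (u x - c) ^ 2 ∂(mu ρ) ≤ 4 * L * ∫ x, ‖fderiv ℝ u x‖ ^ 2 ∂(mu ρ) := by
  obtain ⟨R, hR0, hR⟩ : ∃ R : ℝ, 0 < R ∧ ∀ x, R < ‖x‖ → ρ x = 0 := by
    obtain ⟨R₀, hR₀⟩ := hρ.bdd
    exact ⟨max R₀ 1, lt_of_lt_of_le one_pos (le_max_right _ _), fun x hx =>
      hR₀ x (lt_of_le_of_lt (le_max_left _ _) hx)⟩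
  have hS : ∀ u : V κ → ℝ, (∀ i x, u (rf i x) = u x) →
      ∀ i x, gs L (pst L ρ u) (rf i x) = gs L (pst L ρ u) x := by
    intro u hu i x
    exact equiv hρ L (rf i) (hrf i) u (hu i) x
  -- integrated inequality
  have hB : ∀ v : V κ → ℝ, (∀ i x, v (rf i x) = v x) → ContDiff ℝ 2 v →
      ∫ x, ‖fderiv ℝ v x‖ ^ 2 ∂(mu ρ) ≤ L * ∫ x, hs v x ∂(mu ρ) := by
    intro v hev hv
    have hdi : ∀ i : κ, ContDiff ℝ 1 (fun z => fderiv ℝ v z (EuclideanSpace.single i (1 : ℝ))) :=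
      fun i => (hv.fderiv_right (m := 1) (by norm_num)).clm_apply contDiff_const
    have h1 : ∫ x, ‖fderiv ℝ v x‖ ^ 2 ∂(mu ρ) =
        ∑ i : κ, ∫ x, (fderiv ℝ v x (EuclideanSpace.single i 1)) ^ 2 ∂(mu ρ) := by
      rw [← integral_finsetSum]
      · refine integral_congr_ae (Filter.Eventually.of_forall fun x => ?_)
        exact Pool.Agent.H888R2.KT.N8x.norm_sq_clm _
      · intro i _
        exact int_cont hρ ((hdi i).continuous.pow 2)
    have h2 : ∫ x, hs v x ∂(mu ρ) = ∑ i : κ,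
        ∫ x, ‖fderiv ℝ (fun z => fderiv ℝ v z (EuclideanSpace.single i 1)) x‖ ^ 2 ∂(mu ρ) := by
      rw [← integral_finsetSum]
      · refine integral_congr_ae (Filter.Eventually.of_forall fun x => ?_)
        exact hs_eq v x
      · intro i _
        exact int_cont hρ (grad_cont (hdi i))
    rw [h1, h2, Finset.mul_sum]
    refine Finset.sum_le_sum fun i _ => ?_
    exact hodd i _ (hdi i) (fun z => odd_dir v hv i (hev i) z)
  -- contraction of the Dirichlet form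
  have hD : ∀ u : V κ → ℝ, (∀ i x, u (rf i x) = u x) → ContDiff ℝ 1 u →
      ContDiff ℝ 2 (gs L (pst L ρ u)) ∧
      2 * ∫ x, ‖fderiv ℝ (gs L (pst L ρ u)) x‖ ^ 2 ∂(mu ρ) ≤
        ∫ x, ‖fderiv ℝ u x‖ ^ 2 ∂(mu ρ) := by
    intro u hu hu1
    obtain ⟨h1, h2⟩ := key hρ (fun j : Fin 0 => (j.elim0 : V κ)) ⟨fun j => j.elim0, fun j => j.elim0⟩
      L hL (St0 hρ L _) L hL u hu1
    refine ⟨h1, le_trans ?_ h2⟩
    have h1' : ContDiff ℝ 1 (gs L (pst L ρ u)) := h1.of_le (by norm_num)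
    have h3 := hB _ (hS u hu) h1
    have e1 : ∫ x, (‖fderiv ℝ (gs L (pst L ρ u)) x‖ ^ 2 + L * hs (gs L (pst L ρ u)) x +
        L / L * ∑ j : Fin 0, (fderiv ℝ (gs L (pst L ρ u)) x ((fun j : Fin 0 => (j.elim0 : V κ)) j)) ^ 2)
          ∂(mu ρ) =
        ∫ x, ‖fderiv ℝ (gs L (pst L ρ u)) x‖ ^ 2 ∂(mu ρ) +
          L * ∫ x, hs (gs L (pst L ρ u)) x ∂(mu ρ) := by
      have i2 : Integrable (fun x => L * hs (gs L (pst L ρ u)) x) (mu ρ) :=
        int_cont hρ (continuous_const.mul (hs_cont h1))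
      rw [← integral_const_mul, ← integral_add (int_cont hρ (grad_cont h1')) i2]
      refine integral_congr_ae (Filter.Eventually.of_forall fun x => ?_)
      simp
    rw [e1]
    linarith
  -- induction
  have hind : ∀ m : ℕ, ∀ u : V κ → ℝ, (∀ i x, u (rf i x) = u x) → ContDiff ℝ 1 u →
      W ρ u ≤ (4 * L + (2 * R ^ 2 - 4 * L) * (1 / 2) ^ m) * ∫ x, ‖fderiv ℝ u x‖ ^ 2 ∂(mu ρ) := by
    intro m
    induction m with
    | zero =>
      intro u _ hu1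
      obtain ⟨c, hc⟩ := ball_poincare hρ R hR0 hR u hu1
      have := W_le hρ hu1.continuous c
      calc W ρ u ≤ _ := this
        _ ≤ _ := hc
        _ = _ := by ring
    | succ m ih =>
      intro u hu hu1
      obtain ⟨h1, h2⟩ := hD u hu hu1
      have h1' : ContDiff ℝ 1 (gs L (pst L ρ u)) := h1.of_le (by norm_num)
      have h3 := ih _ (hS u hu) h1'
      obtain ⟨h4, h5⟩ := l2step hρ L hL u hu1
      have h6 : W ρ u ≤ W ρ (gs L (pst L ρ u)) +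
          2 * L * ∫ x, ‖fderiv ℝ u x‖ ^ 2 ∂(mu ρ) := by
        unfold W
        rw [h4]
        linarith
      have hcoef : 0 ≤ 4 * L + (2 * R ^ 2 - 4 * L) * (1 / 2 : ℝ) ^ m := by
        have hp0 : (0 : ℝ) < (1 / 2) ^ m := by positivity
        have hp1 : (1 / 2 : ℝ) ^ m ≤ 1 := pow_le_one₀ (by norm_num) (by norm_num)
        have : 4 * L + (2 * R ^ 2 - 4 * L) * (1 / 2 : ℝ) ^ m =
          4 * L * (1 - (1 / 2 : ℝ) ^ m) + 2 * R ^ 2 * (1 / 2 : ℝ) ^ m := by ring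
        rw [this]
        have h7 : 0 ≤ 1 - (1 / 2 : ℝ) ^ m := by linarith
        positivity
      have h8 : ∫ x, ‖fderiv ℝ (gs L (pst L ρ u)) x‖ ^ 2 ∂(mu ρ) ≤
          1 / 2 * ∫ x, ‖fderiv ℝ u x‖ ^ 2 ∂(mu ρ) := by linarith
      have h9 := mul_le_mul_of_nonneg_left h8 hcoef
      calc W ρ u ≤ _ := h6
        _ ≤ (4 * L + (2 * R ^ 2 - 4 * L) * (1 / 2) ^ m) *
            (1 / 2 * ∫ x, ‖fderiv ℝ u x‖ ^ 2 ∂(mu ρ)) +
            2 * L * ∫ x, ‖fderiv ℝ u x‖ ^ 2 ∂(mu ρ) := by linarith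
        _ = _ := by rw [pow_succ]; ring
  refine ⟨(∫ x, u x ∂(mu ρ)) / (mu ρ).real univ, ?_⟩
  rw [W_eq hρ hu0.continuous]
  have hlim : Filter.Tendsto (fun m : ℕ => (4 * L + (2 * R ^ 2 - 4 * L) * (1 / 2 : ℝ) ^ m) *
      ∫ x, ‖fderiv ℝ u x‖ ^ 2 ∂(mu ρ)) Filter.atTop
      (nhds ((4 * L + (2 * R ^ 2 - 4 * L) * 0) * ∫ x, ‖fderiv ℝ u x‖ ^ 2 ∂(mu ρ))) := by
    have h1 : Filter.Tendsto (fun m : ℕ => (1 / 2 : ℝ) ^ m) Filter.atTop (nhds 0) :=
      tendsto_pow_atTop_nhds_zero_of_lt_one (by norm_num) (by norm_num)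
    exact ((h1.const_mul _).const_add _).mul_const _
  rw [mul_zero, add_zero] at hlim
  exact ge_of_tendsto' hlim fun m => hind m u heu hu0

theorem cd_rf {f : V κ → ℝ} (hf : ContDiff ℝ 1 f) (i : κ) :
    ContDiff ℝ 1 (fun y => f (rf i y)) :=
  hf.comp (rf i).contDiff

theorem fderiv_rf {f : V κ → ℝ} (hf : ContDiff ℝ 1 f) (i : κ) (x : V κ) :
    fderiv ℝ (fun y => f (rf i y)) x =
      (fderiv ℝ f (rf i x)).comp (rf i).toLinearIsometry.toContinuousLinearMap := by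
  have h1 : HasFDerivAt f (fderiv ℝ f (rf i x)) (rf i x) :=
    (hf.differentiable (by norm_num) (rf i x)).hasFDerivAt
  have h2 : HasFDerivAt (fun y : V κ => rf i y)
      ((rf i).toLinearIsometry.toContinuousLinearMap) x :=
    (rf i).toLinearIsometry.toContinuousLinearMap.hasFDerivAt
  exact (h1.comp x h2).fderiv

theorem norm_fderiv_rf {f : V κ → ℝ} (hf : ContDiff ℝ 1 f) (i : κ) (x : V κ) :
    ‖fderiv ℝ (fun y => f (rf i y)) x‖ = ‖fderiv ℝ f (rf i x)‖ := by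
  rw [fderiv_rf hf]
  exact ContinuousLinearMap.opNorm_comp_linearIsometryEquiv _ (rf i)

omit [DecidableEq κ] in
theorem par_dual (a b : V κ →L[ℝ] ℝ) :
    ‖a + b‖ ^ 2 + ‖a - b‖ ^ 2 = 2 * (‖a‖ ^ 2 + ‖b‖ ^ 2) := by
  have h := parallelogram_law_with_norm ℝ ((InnerProductSpace.toDual ℝ (V κ)).symm a)
    ((InnerProductSpace.toDual ℝ (V κ)).symm b)
  rw [← map_add, ← map_sub, LinearIsometryEquiv.norm_map, LinearIsometryEquiv.norm_map,
    LinearIsometryEquiv.norm_map, LinearIsometryEquiv.norm_map] at h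
  nlinarith [h]

theorem step {ρ : V κ → ℝ} (hρ : LC ρ) (L : ℝ) (i : κ) (hrf : ∀ x, ρ (rf i x) = ρ x)
    (ho : ∀ f : V κ → ℝ, ContDiff ℝ 1 f → (∀ x, f (rf i x) = - f x) →
      ∫ x, f x ^ 2 ∂(mu ρ) ≤ L * ∫ x, ‖fderiv ℝ f x‖ ^ 2 ∂(mu ρ))
    (f : V κ → ℝ) (hf : ContDiff ℝ 1 f)
    (he : ∃ c : ℝ, ∫ x, ((f x + f (rf i x)) / 2 - c) ^ 2 ∂(mu ρ) ≤
      L * ∫ x, ‖fderiv ℝ (fun y => (f y + f (rf i y)) / 2) x‖ ^ 2 ∂(mu ρ)) :
    ∃ c : ℝ, ∫ x, (f x - c) ^ 2 ∂(mu ρ) ≤ L * ∫ x, ‖fderiv ℝ f x‖ ^ 2 ∂(mu ρ) := by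
  obtain ⟨c, hc⟩ := he
  refine ⟨c, ?_⟩
  have hg : ContDiff ℝ 1 (fun y => f (rf i y)) := cd_rf hf i
  have hfe : ContDiff ℝ 1 (fun y => (f y + f (rf i y)) / 2) := (hf.add hg).div_const 2
  have hfo : ContDiff ℝ 1 (fun y => (f y - f (rf i y)) / 2) := (hf.sub hg).div_const 2
  have h1 := ho (fun y => (f y - f (rf i y)) / 2) hfo (fun x => by simp only [rf_rf]; ring)
  have key := Pool.Agent.H888R2.KT.N10x.int_comp hρ.meas (rf i) hrf
  -- the square
  have hsq : ∫ x, (f x - c) ^ 2 ∂(mu ρ) =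
      ∫ x, ((f x + f (rf i x)) / 2 - c) ^ 2 ∂(mu ρ) +
        ∫ x, ((f x - f (rf i x)) / 2) ^ 2 ∂(mu ρ) := by
    have e1 := key (fun x => (f x - c) ^ 2)
    have i1 : Integrable (fun x => ((f x + f (rf i x)) / 2 - c) ^ 2) (mu ρ) :=
      int_cont hρ ((hfe.continuous.sub continuous_const).pow 2)
    have i2 : Integrable (fun x => ((f x - f (rf i x)) / 2) ^ 2) (mu ρ) :=
      int_cont hρ (hfo.continuous.pow 2)
    have i3 : Integrable (fun x => (f x - c) ^ 2) (mu ρ) :=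
      int_cont hρ ((hf.continuous.sub continuous_const).pow 2)
    have i4 : Integrable (fun x => (f (rf i x) - c) ^ 2) (mu ρ) :=
      int_cont hρ ((hg.continuous.sub continuous_const).pow 2)
    have e2 : ∫ x, ((f x - c) ^ 2 + (f (rf i x) - c) ^ 2) ∂(mu ρ) =
        ∫ x, 2 * (((f x + f (rf i x)) / 2 - c) ^ 2 + ((f x - f (rf i x)) / 2) ^ 2) ∂(mu ρ) := by
      congr 1
      funext x
      ring
    rw [integral_add i3 i4, integral_const_mul, integral_add i1 i2] at e2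
    have e1' : ∫ x, (f (rf i x) - c) ^ 2 ∂(mu ρ) = ∫ x, (f x - c) ^ 2 ∂(mu ρ) := e1
    linarith
  -- the gradient
  have hgr : ∫ x, ‖fderiv ℝ (fun y => (f y + f (rf i y)) / 2) x‖ ^ 2 ∂(mu ρ) +
      ∫ x, ‖fderiv ℝ (fun y => (f y - f (rf i y)) / 2) x‖ ^ 2 ∂(mu ρ) =
      ∫ x, ‖fderiv ℝ f x‖ ^ 2 ∂(mu ρ) := by
    have e1 : ∫ x, ‖fderiv ℝ f (rf i x)‖ ^ 2 ∂(mu ρ) = ∫ x, ‖fderiv ℝ f x‖ ^ 2 ∂(mu ρ) :=
      key (fun x => ‖fderiv ℝ f x‖ ^ 2)
    have i1 := int_cont hρ (grad_cont hfe)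
    have i2 := int_cont hρ (grad_cont hfo)
    have i3 := int_cont hρ (grad_cont hf)
    have i4 : Integrable (fun x => ‖fderiv ℝ f (rf i x)‖ ^ 2) (mu ρ) :=
      int_cont hρ ((grad_cont hf).comp (rf i).continuous)
    have e2 : ∫ x, 2 * (‖fderiv ℝ (fun y => (f y + f (rf i y)) / 2) x‖ ^ 2 +
        ‖fderiv ℝ (fun y => (f y - f (rf i y)) / 2) x‖ ^ 2) ∂(mu ρ) =
        ∫ x, (‖fderiv ℝ f x‖ ^ 2 + ‖fderiv ℝ f (rf i x)‖ ^ 2) ∂(mu ρ) := by
      congr 1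
      funext x
      have d1 : HasFDerivAt f (fderiv ℝ f x) x :=
        (hf.differentiable (by norm_num) x).hasFDerivAt
      have d2 : HasFDerivAt (fun y => f (rf i y)) (fderiv ℝ (fun y => f (rf i y)) x) x :=
        (hg.differentiable (by norm_num) x).hasFDerivAt
      have d3 : fderiv ℝ (fun y => (f y + f (rf i y)) / 2) x =
          (2 : ℝ)⁻¹ • (fderiv ℝ f x + fderiv ℝ (fun y => f (rf i y)) x) := by
        refine HasFDerivAt.fderiv ?_
        have := (d1.add d2).const_smul (2 : ℝ)⁻¹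
        refine this.congr_of_eventuallyEq (Filter.Eventually.of_forall fun y => ?_)
        simp only [Pi.smul_apply, Pi.add_apply, smul_eq_mul]
        ring
      have d4 : fderiv ℝ (fun y => (f y - f (rf i y)) / 2) x =
          (2 : ℝ)⁻¹ • (fderiv ℝ f x - fderiv ℝ (fun y => f (rf i y)) x) := by
        refine HasFDerivAt.fderiv ?_
        have := (d1.sub d2).const_smul (2 : ℝ)⁻¹
        refine this.congr_of_eventuallyEq (Filter.Eventually.of_forall fun y => ?_)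
        simp only [Pi.smul_apply, Pi.sub_apply, smul_eq_mul]
        ring
      have h3 := par_dual (fderiv ℝ f x) (fderiv ℝ (fun y => f (rf i y)) x)
      rw [norm_fderiv_rf hf] at h3
      rw [d3, d4, norm_smul, norm_smul, mul_pow, mul_pow]
      have h4 : ‖(2 : ℝ)⁻¹‖ ^ 2 = 1 / 4 := by
        rw [Real.norm_eq_abs, sq_abs]; norm_num
      rw [h4]
      linarith
    rw [integral_const_mul, integral_add i1 i2, integral_add i3 i4] at e2
    linarith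
  rw [hsq, ← hgr, mul_add]
  linarith

/-- the Poincaré inequality from the inequality for functions odd in one coordinate -/
theorem par {ρ : V κ → ℝ} (hρ : LC ρ) (hrf : ∀ i x, ρ (rf i x) = ρ x) (L : ℝ) (hL : 0 < L)
    (hodd : ∀ i, ∀ f : V κ → ℝ, ContDiff ℝ 1 f → (∀ x, f (rf i x) = - f x) →
      ∫ x, f x ^ 2 ∂(mu ρ) ≤ L * ∫ x, ‖fderiv ℝ f x‖ ^ 2 ∂(mu ρ))
    (f : V κ → ℝ) (hf : ContDiff ℝ 1 f) :
    ∃ c : ℝ, ∫ x, (f x - c) ^ 2 ∂(mu ρ) ≤ 4 * L * ∫ x, ‖fderiv ℝ f x‖ ^ 2 ∂(mu ρ) := by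
  have hodd4 : ∀ i, ∀ f : V κ → ℝ, ContDiff ℝ 1 f → (∀ x, f (rf i x) = - f x) →
      ∫ x, f x ^ 2 ∂(mu ρ) ≤ 4 * L * ∫ x, ‖fderiv ℝ f x‖ ^ 2 ∂(mu ρ) := by
    intro i f hf ho
    have h1 : 0 ≤ ∫ x, ‖fderiv ℝ f x‖ ^ 2 ∂(mu ρ) := integral_nonneg fun x => sq_nonneg _
    refine (hodd i f hf ho).trans (mul_le_mul_of_nonneg_right (by linarith) h1)
  have main : ∀ S : Finset κ, ∀ f : V κ → ℝ, ContDiff ℝ 1 f →
      (∀ i, i ∉ S → ∀ x, f (rf i x) = f x) →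
      ∃ c : ℝ, ∫ x, (f x - c) ^ 2 ∂(mu ρ) ≤ 4 * L * ∫ x, ‖fderiv ℝ f x‖ ^ 2 ∂(mu ρ) := by
    intro S
    induction S using Finset.induction_on with
    | empty =>
      intro f hf h
      exact even hρ hrf L hL hodd f hf fun i x => h i (Finset.notMem_empty i) x
    | insert i S hi ih =>
      intro f hf h
      refine step hρ (4 * L) i (hrf i) (hodd4 i) f hf ?_
      have hg : ContDiff ℝ 1 (fun y => f (rf i y)) := cd_rf hf i
      have hfe : ContDiff ℝ 1 (fun y => (f y + f (rf i y)) / 2) := (hf.add hg).div_const 2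
      refine ih _ hfe ?_
      intro j hj x
      by_cases hji : j = i
      · subst hji
        simp only [rf_rf]
        ring
      · have hj2 : j ∉ insert i S := fun h1 => hj ((Finset.mem_insert.1 h1).resolve_left hji)
        show (f (rf j x) + f (rf i (rf j x))) / 2 = (f x + f (rf i x)) / 2
        rw [rf_comm i j x, h j hj2 x, h j hj2 (rf i x)]
  exact main Finset.univ f hf fun i hi x => absurd (Finset.mem_univ i) hi

end Pool.Agent.TH610.RB
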