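import Pool.Agent.TH610.RB.Core

/-!
# The concrete spaces
-/

set_option autoImplicit false

namespace Pool.Agent.TH610.RB

open MeasureTheory Set
open scoped ENNReal InnerProductSpace
open Pool.Agent.H212R2.KLS (mu Bdd)
open Pool.Agent.TH594.KP (GD)

/-- the coordinate `i` of the vector `j` of the block `β` -/
abbrev Idx (b : ℕ) (k m : Fin b → ℕ) : Type := Σ β : Fin b, Fin (k β) × Fin (m β)

/-- the vector `j` of the block `β` -/
abbrev At (b : ℕ) (k : Fin b → ℕ) : Type := Σ β : Fin b, Fin (k β)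

variable {b : ℕ} {k m : Fin b → ℕ}

/-- the atom of a coordinate -/
def pp (i : Idx b k m) : At b k := ⟨i.1, i.2.1⟩

/-- the block of an atom -/
def gg (a : At b k) : Fin b := a.1

theorem vn_eq (x : V (Idx b k m)) (β : Fin b) (j : Fin (k β)) :
    Real.sqrt (∑ i, x ⟨β, j, i⟩ ^ 2) = ‖P pp (⟨β, j⟩ : At b k) x‖ := by
  rw [← Real.sqrt_sq (norm_nonneg (P pp (⟨β, j⟩ : At b k) x)), norm_sq_P]
  congr 1
  rw [Fintype.sum_sigma, Finset.sum_eq_single β, Fintype.sum_prod_type, Finset.sum_eq_single j]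
  · exact Finset.sum_congr rfl fun i _ => (if_pos rfl).symm
  · intro l _ hl
    refine Finset.sum_eq_zero fun i _ => ?_
    rw [if_neg]
    intro h
    apply hl
    have h1 : (⟨β, l⟩ : At b k) = ⟨β, j⟩ := h
    simpa using h1
  · intro h
    exact absurd (Finset.mem_univ _) h
  · intro γ _ hγ
    refine Finset.sum_eq_zero fun i _ => ?_
    rw [if_neg]
    intro h
    apply hγ
    have h1 : (⟨γ, i.1⟩ : At b k) = ⟨β, j⟩ := h
    exact (Sigma.mk.inj_iff.1 h1).1
  · intro h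
    exact absurd (Finset.mem_univ _) h

theorem card_blk (β : Fin b) : (blk (gg (k := k)) β).card = k β := by
  have h1 : blk (gg (k := k)) β = Finset.univ.map ⟨fun j : Fin (k β) => (⟨β, j⟩ : At b k),
      fun j l h => by simpa using h⟩ := by
    ext ⟨γ, l⟩
    rw [mem_blk, Finset.mem_map]
    constructor
    · intro h
      have h2 : γ = β := h
      subst h2
      exact ⟨l, Finset.mem_univ _, rfl⟩
    · rintro ⟨j, _, hj⟩
      have h2 : (⟨β, j⟩ : At b k) = ⟨γ, l⟩ := hj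
      exact (Sigma.mk.inj_iff.1 h2).1.symm
  rw [h1, Finset.card_map, Finset.card_univ, Fintype.card_fin]

theorem card_at (a : At b k) :
    (Finset.univ.filter fun i : Idx b k m => pp i = a).card = m (gg a) := by
  obtain ⟨β, j⟩ := a
  have h1 : (Finset.univ.filter fun i : Idx b k m => pp i = ⟨β, j⟩) =
      Finset.univ.map ⟨fun i : Fin (m β) => (⟨β, j, i⟩ : Idx b k m),
      fun i l h => by simpa using h⟩ := by
    ext ⟨γ, l, i⟩
    rw [Finset.mem_filter, Finset.mem_map]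
    constructor
    · rintro ⟨_, h⟩
      have h2 : (⟨γ, l⟩ : At b k) = ⟨β, j⟩ := h
      obtain ⟨h3, h4⟩ := Sigma.mk.inj_iff.1 h2
      subst h3
      have h5 := eq_of_heq h4
      subst h5
      exact ⟨i, Finset.mem_univ _, rfl⟩
    · rintro ⟨i', _, hi⟩
      have h2 : (⟨β, j, i'⟩ : Idx b k m) = ⟨γ, l, i⟩ := hi
      refine ⟨Finset.mem_univ _, ?_⟩
      rw [← h2]
      rfl
  rw [h1, Finset.card_map, Finset.card_univ, Fintype.card_fin]
  rfl

/-- permutations of the blocks which exchange two vectors of the same block -/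
theorem exch (a a' : At b k) (h : gg a = gg a') :
    ∃ F : ∀ β, Equiv.Perm (Fin (k β)), ∀ c : At b k, Equiv.swap a a' c = ⟨c.1, F c.1 c.2⟩ := by
  obtain ⟨β, j⟩ := a
  obtain ⟨β', j'⟩ := a'
  have h1 : β = β' := h
  subst h1
  obtain ⟨F, hF⟩ : ∃ F : ∀ γ, Equiv.Perm (Fin (k γ)),
      F = Function.update (fun γ => (1 : Equiv.Perm (Fin (k γ)))) β (Equiv.swap j j') := ⟨_, rfl⟩
  have e1 : F β = Equiv.swap j j' := by rw [hF, Function.update_self]
  have e2 : ∀ γ, γ ≠ β → F γ = 1 := fun γ hγ => by rw [hF, Function.update_of_ne hγ]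
  refine ⟨F, ?_⟩
  rintro ⟨γ, l⟩
  by_cases hγ : γ = β
  · subst hγ
    show Equiv.swap (⟨γ, j⟩ : At b k) ⟨γ, j'⟩ ⟨γ, l⟩ = ⟨γ, F γ l⟩
    rw [e1]
    by_cases h2 : l = j
    · subst h2
      rw [Equiv.swap_apply_left, Equiv.swap_apply_left]
    · by_cases h3 : l = j'
      · subst h3
        rw [Equiv.swap_apply_right, Equiv.swap_apply_right]
      · rw [Equiv.swap_apply_of_ne_of_ne h2 h3, Equiv.swap_apply_of_ne_of_ne]
        · intro h4
          exact h2 (by simpa using h4)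
        · intro h4
          exact h3 (by simpa using h4)
  · show Equiv.swap (⟨β, j⟩ : At b k) ⟨β, j'⟩ ⟨γ, l⟩ = ⟨γ, F γ l⟩
    rw [e2 γ hγ, Equiv.swap_apply_of_ne_of_ne]
    · rfl
    · intro h4
      exact hγ (Sigma.mk.inj_iff.1 h4).1
    · intro h4
      exact hγ (Sigma.mk.inj_iff.1 h4).1

theorem sw : Sw (pp (m := m)) (gg (k := k)) := by
  intro a a' h
  obtain ⟨F, hF⟩ := exch a a' h
  refine ⟨Equiv.sigmaCongrRight fun β => (F β).prodCongr (Equiv.refl (Fin (m β))), ?_⟩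
  rintro ⟨γ, l, i⟩
  rw [hF]
  rfl

/-- densities which depend on the norms of the vectors only and do not change when vectors of the
same block are permuted are in the class -/
theorem rd_of {ρ : V (Idx b k m) → ℝ} (h0 : ∀ x, 0 ≤ ρ x) (hm : Measurable ρ)
    (hl : ∀ x y : V (Idx b k m), ∀ t : ℝ, 0 < t → t < 1 →
      ρ x ^ (1 - t) * ρ y ^ t ≤ ρ ((1 - t) • x + t • y))
    (hi : ∀ F : ∀ β, Equiv.Perm (Fin (k β)), ∀ x y : V (Idx b k m),
      (∀ β j, Real.sqrt (∑ i, y ⟨β, j, i⟩ ^ 2) = Real.sqrt (∑ i, x ⟨β, F β j, i⟩ ^ 2)) →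
      ρ y = ρ x) : RD pp gg ρ where
  nonneg := h0
  meas := hm
  logc := hl
  inv := by
    intro a a' haa x y hxy
    obtain ⟨F, hF⟩ := exch a a' haa
    refine hi F x y fun β j => ?_
    rw [vn_eq, vn_eq, hxy, hF]

/-- the bound for bounded support, second moments -/
theorem sc (hk : ∀ β, 1 ≤ k β) (hm : ∀ β, 1 ≤ m β) (T : ℝ) (hT0 : 0 ≤ T)
    (hT : ∑ β, Real.exp (-(T * (k β * m β))) ≤ 1) :
    SC (G (pp (m := m)) (gg (k := k))) (CC * (1 + T) ^ 2) := by
  have hnb : ∀ β, nb (gg (k := k)) m β = k β * m β := fun β => by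
    unfold nb
    rw [card_blk]
  refine core sw m card_at (fun β => ?_) T hT0 ?_
  · rw [hnb]
    exact Nat.mul_pos (hk β) (hm β)
  · refine le_trans (le_of_eq (Finset.sum_congr rfl fun β _ => ?_)) hT
    rw [hnb]
    push_cast
    rfl

end Pool.Agent.TH610.RB
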