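import Pool.Agent.TH610.RB.Geo
import Pool.Agent.W712.SK.Up

/-!
# Upper bound of the density when all coordinates are in one block

The density of a point is at most the density at every point of a box: the density as a function
of the norms of the atoms is invariant under permutations and sign changes, and the result of the
starting files (`W712.SK.cube`) applies.
-/

set_option autoImplicit false

namespace Pool.Agent.TH610.RB

open MeasureTheory Set
open scoped ENNReal InnerProductSpace
open Pool.Agent.H212R2.KLS (mu Bdd)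

variable {κ A B : Type} [Fintype κ] [DecidableEq A]
variable {p : κ → A} {g : A → B} {ρ : V κ → ℝ}

/-- all coordinates are in the atoms of `S`, which form a block, with `m` coordinates each -/
structure OB (p : κ → A) (g : A → B) (S : Finset A) (m : ℕ) : Prop where
  mem : ∀ i, p i ∈ S
  blk : ∀ a ∈ S, ∀ c ∈ S, g a = g c
  pos : 1 ≤ m
  crd : ∀ a ∈ S, (Finset.univ.filter fun i => p i = a).card = m

/-- the weighted sum of the norms of the atoms -/
noncomputable def NN (p : κ → A) (S : Finset A) (m : ℕ) (x : V κ) : ℝ := Real.sqrt m * nS p S x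

theorem nS_nonneg (S : Finset A) (x : V κ) : 0 ≤ nS p S x := by
  unfold nS
  exact Finset.sum_nonneg fun d _ => norm_nonneg _

theorem NN_nonneg (S : Finset A) (m : ℕ) (x : V κ) : 0 ≤ NN p S m x :=
  mul_nonneg (Real.sqrt_nonneg _) (nS_nonneg S x)

theorem NN_smul (S : Finset A) (m : ℕ) (l : ℝ) (hl : 0 ≤ l) (x : V κ) :
    NN p S m (l • x) = l * NN p S m x := by
  unfold NN nS
  have h1 : ∀ a ∈ S, ‖P p a (l • x)‖ = l * ‖P p a x‖ := fun a _ => by
    rw [map_smul, norm_smul, Real.norm_of_nonneg hl]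
  rw [Finset.sum_congr rfl h1, ← Finset.mul_sum]
  ring

theorem NN_cont (S : Finset A) (m : ℕ) : Continuous (NN (κ := κ) p S m) := by
  unfold NN nS
  exact continuous_const.mul (continuous_finsetSum _ fun a _ => (P p a).continuous.norm)

theorem OB.card {S : Finset A} {m : ℕ} (h : OB p g S m) : Fintype.card κ = S.card * m := by
  have h1 := Finset.card_eq_sum_card_fiberwise (s := (Finset.univ : Finset κ)) (t := S) (f := p)
    (fun i _ => h.mem i)
  rw [Finset.sum_congr rfl h.crd, Finset.sum_const, smul_eq_mul, Finset.card_univ] at h1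
  exact h1

/-- the sum of the absolute values of the coordinates of an atom -/
theorem sum_abs_le (a : A) (m : ℕ) (hm : (Finset.univ.filter fun i => p i = a).card = m)
    (x : V κ) : ∑ i ∈ Finset.univ.filter (fun i => p i = a), |x i| ≤ Real.sqrt m * ‖P p a x‖ := by
  have h1 := sq_sum_le_card_mul_sum_sq (s := Finset.univ.filter fun i => p i = a)
    (f := fun i => |x i|)
  rw [hm] at h1
  have h2 : ∑ i ∈ Finset.univ.filter (fun i => p i = a), |x i| ^ 2 = ‖P p a x‖ ^ 2 := by
    rw [norm_sq_P, Finset.sum_filter]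
    refine Finset.sum_congr rfl fun i _ => ?_
    rw [sq_abs]
  rw [h2] at h1
  have h3 : (m : ℝ) * ‖P p a x‖ ^ 2 = (Real.sqrt m * ‖P p a x‖) ^ 2 := by
    rw [mul_pow, Real.sq_sqrt (Nat.cast_nonneg m)]
  rw [h3] at h1
  exact le_of_sq_le_sq h1 (by positivity)

theorem OB.abs_le {S : Finset A} {m : ℕ} (h : OB p g S m) (x : V κ) :
    ∑ i, |x i| ≤ NN p S m x := by
  have h1 := Finset.sum_fiberwise_of_maps_to (s := (Finset.univ : Finset κ)) (t := S) (g := p)
    (fun i _ => h.mem i) (fun i => |x i|)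
  rw [← h1]
  unfold NN nS
  rw [Finset.mul_sum]
  exact Finset.sum_le_sum fun a ha => sum_abs_le a m (h.crd a ha) x

theorem OB.sq_le {S : Finset A} {m : ℕ} (h : OB p g S m) (x : V κ) :
    NN p S m x ^ 2 ≤ Fintype.card κ * ∑ i, x i ^ 2 := by
  have h1 := sq_sum_le_card_mul_sum_sq (s := S) (f := fun a => ‖P p a x‖)
  have h2 : ∑ a ∈ S, ‖P p a x‖ ^ 2 = ∑ i, x i ^ 2 := by
    have h3 := Finset.sum_fiberwise_of_maps_to (s := (Finset.univ : Finset κ)) (t := S) (g := p)
      (fun i _ => h.mem i) (fun i => x i ^ 2)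
    rw [← h3]
    refine Finset.sum_congr rfl fun a _ => ?_
    rw [norm_sq_P, Finset.sum_filter]
  rw [h2] at h1
  unfold NN
  rw [mul_pow, Real.sq_sqrt (Nat.cast_nonneg m), h.card]
  push_cast
  have h4 : (m : ℝ) * nS p S x ^ 2 ≤ m * (S.card * ∑ i, x i ^ 2) :=
    mul_le_mul_of_nonneg_left h1 (Nat.cast_nonneg m)
  linarith

/-- the point with atoms of norms `|l a|` -/
noncomputable def dd {S : Finset A} {m : ℕ} (h : OB p g S m) :
    EuclideanSpace ℝ (Fin S.card) →ₗ[ℝ] V κ where
  toFun l := WithLp.toLp 2 fun i => l (S.equivFin ⟨p i, h.mem i⟩) / Real.sqrt m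
  map_add' x y := by
    ext i
    simp [add_div]
  map_smul' c x := by
    ext i
    simp [mul_div_assoc]

theorem dd_apply {S : Finset A} {m : ℕ} (h : OB p g S m) (l : EuclideanSpace ℝ (Fin S.card))
    (i : κ) : dd h l i = l (S.equivFin ⟨p i, h.mem i⟩) / Real.sqrt m := rfl

theorem dd_norm {S : Finset A} {m : ℕ} (h : OB p g S m) (l : EuclideanSpace ℝ (Fin S.card))
    (a : A) (ha : a ∈ S) : ‖P p a (dd h l)‖ = |l (S.equivFin ⟨a, ha⟩)| := by
  have hm0 : (0 : ℝ) < m := by exact_mod_cast h.pos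
  have h1 : ‖P p a (dd h l)‖ ^ 2 = |l (S.equivFin ⟨a, ha⟩)| ^ 2 := by
    rw [norm_sq_P, ← Finset.sum_filter]
    have h2 : ∀ i ∈ Finset.univ.filter (fun i => p i = a),
        dd h l i ^ 2 = l (S.equivFin ⟨a, ha⟩) ^ 2 / m := by
      intro i hi
      rw [Finset.mem_filter] at hi
      have h3 : (⟨p i, h.mem i⟩ : S) = ⟨a, ha⟩ := Subtype.ext hi.2
      rw [dd_apply, h3, div_pow, Real.sq_sqrt (Nat.cast_nonneg m)]
    rw [Finset.sum_congr rfl h2, Finset.sum_const, h.crd a ha, nsmul_eq_mul, sq_abs]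
    field_simp
  exact (sq_eq_sq₀ (norm_nonneg _) (abs_nonneg _)).1 h1

theorem P_zero {S : Finset A} {m : ℕ} (h : OB p g S m) (a : A) (ha : a ∉ S) (x : V κ) :
    P p a x = 0 := by
  ext i
  have h1 : p i ≠ a := fun h1 => ha (by rw [← h1]; exact h.mem i)
  rw [P_apply, if_neg h1]
  rfl

theorem dd_sy {S : Finset A} {m : ℕ} (h : OB p g S m) (hρ : RD p g ρ) :
    Pool.Agent.W586.SK.Sy fun l => ρ (dd h l) where
  nonneg l := hρ.nonneg _
  meas := hρ.meas.comp (LinearMap.continuous_of_finiteDimensional (dd h)).measurable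
  logc x y t ht0 ht1 := by
    rw [map_add, map_smul, map_smul]
    exact hρ.logc _ _ t ht0 ht1
  inv := by
    intro σ
    induction σ using Equiv.Perm.swap_induction_on with
    | one =>
      intro x y hxy
      rcases isEmpty_or_nonempty κ with h0 | ⟨⟨i⟩⟩
      · exact congrArg ρ (Subsingleton.elim _ _)
      · refine hρ.flat (p i) (dd h x) (dd h y) fun c => ?_
        by_cases hc : c ∈ S
        · rw [dd_norm h y c hc, dd_norm h x c hc, hxy]
          rfl
        · rw [P_zero h c hc, P_zero h c hc]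
    | swap_mul σ a b hab ih =>
      intro x y hxy
      obtain ⟨ν, hν⟩ : ∃ ν : EuclideanSpace ℝ (Fin S.card), ∀ j, ν j = x (Equiv.swap a b j) :=
        ⟨WithLp.toLp 2 fun j => x (Equiv.swap a b j), fun j => rfl⟩
      have h1 : ρ (dd h ν) = ρ (dd h x) := by
        refine hρ.inv (S.equivFin.symm a).1 (S.equivFin.symm b).1
          (h.blk _ (S.equivFin.symm a).2 _ (S.equivFin.symm b).2) (dd h x) (dd h ν) fun c => ?_
        by_cases hc : c ∈ S
        · obtain ⟨j, hj⟩ : ∃ j, j = S.equivFin ⟨c, hc⟩ := ⟨_, rfl⟩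
          have hj' : (S.equivFin.symm j).1 = c := by rw [hj, Equiv.symm_apply_apply]
          have h2 : Equiv.swap (S.equivFin.symm a).1 (S.equivFin.symm b).1 c =
              (S.equivFin.symm (Equiv.swap a b j)).1 := by
            rw [← hj']
            by_cases hja : j = a
            · rw [hja, Equiv.swap_apply_left, Equiv.swap_apply_left]
            · by_cases hjb : j = b
              · rw [hjb, Equiv.swap_apply_right, Equiv.swap_apply_right]
              · rw [Equiv.swap_apply_of_ne_of_ne hja hjb, Equiv.swap_apply_of_ne_of_ne]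
                · exact fun h3 => hja (S.equivFin.symm.injective (Subtype.ext h3))
                · exact fun h3 => hjb (S.equivFin.symm.injective (Subtype.ext h3))
          rw [h2, dd_norm h ν c hc, dd_norm h x _ (S.equivFin.symm (Equiv.swap a b j)).2, ← hj, hν,
            Subtype.coe_eta, Equiv.apply_symm_apply]
        · have h2 : Equiv.swap (S.equivFin.symm a).1 (S.equivFin.symm b).1 c = c := by
            refine Equiv.swap_apply_of_ne_of_ne ?_ ?_
            · intro h3
              exact hc (by rw [h3]; exact (S.equivFin.symm a).2)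
            · intro h3
              exact hc (by rw [h3]; exact (S.equivFin.symm b).2)
          rw [h2, P_zero h c hc, P_zero h c hc]
      rw [← h1]
      refine ih ν y fun j => ?_
      rw [hxy, hν]
      rfl

theorem cube {S : Finset A} {m : ℕ} (h : OB p g S m) (hρ : RD p g ρ) (hn : 1 ≤ Fintype.card κ)
    (x y : V κ) (hy : ∀ i, |y i| ≤ NN p S m x / Fintype.card κ) : ρ x ≤ ρ y := by
  have hcard := h.card
  have hk : 1 ≤ S.card := by
    by_contra hcon
    have : S.card = 0 := by omega
    rw [this, zero_mul] at hcard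
    omega
  have hm0 : (0 : ℝ) < m := by exact_mod_cast h.pos
  have hk0 : (0 : ℝ) < S.card := by exact_mod_cast hk
  have hne : Nonempty κ := Fintype.card_pos_iff.1 hn
  obtain ⟨i0⟩ := hne
  obtain ⟨lam, hlam⟩ : ∃ lam : V κ → EuclideanSpace ℝ (Fin S.card),
      ∀ z j, lam z j = ‖P p (S.equivFin.symm j).1 z‖ :=
    ⟨fun z => WithLp.toLp 2 fun j => ‖P p (S.equivFin.symm j).1 z‖, fun z j => rfl⟩
  have h1 : ∀ z, ρ (dd h (lam z)) = ρ z := by
    intro z
    refine hρ.flat (p i0) z (dd h (lam z)) fun c => ?_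
    by_cases hc : c ∈ S
    · rw [dd_norm h _ c hc, hlam, Equiv.symm_apply_apply, abs_norm]
    · rw [P_zero h c hc, P_zero h c hc]
  have h2 : Pool.Agent.W586.SK.nm (lam x) = nS p S x := by
    unfold Pool.Agent.W586.SK.nm nS
    rw [← Finset.sum_coe_sort S, ← Equiv.sum_comp S.equivFin]
    refine Finset.sum_congr rfl fun a _ => ?_
    rw [hlam, Equiv.symm_apply_apply, abs_norm]
  rw [← h1 x, ← h1 y]
  refine Pool.Agent.W712.SK.cube hk (dd_sy h hρ) (lam x) (lam y) fun j => ?_
  rw [h2, hlam, abs_norm]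
  obtain ⟨a, ha⟩ : ∃ a, a = S.equivFin.symm j := ⟨_, rfl⟩
  rw [← ha]
  have hM0 : 0 ≤ NN p S m x / Fintype.card κ := div_nonneg (NN_nonneg S m x) (Nat.cast_nonneg _)
  have h3 : ‖P p a.1 y‖ ^ 2 ≤ (nS p S x / S.card) ^ 2 := by
    rw [norm_sq_P, ← Finset.sum_filter]
    have h4 : ∀ i ∈ Finset.univ.filter (fun i => p i = a.1),
        y i ^ 2 ≤ (NN p S m x / Fintype.card κ) ^ 2 := by
      intro i _
      rw [← sq_abs (y i)]
      exact pow_le_pow_left₀ (abs_nonneg _) (hy i) 2
    refine (Finset.sum_le_sum h4).trans (le_of_eq ?_)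
    rw [Finset.sum_const, h.crd a.1 a.2, nsmul_eq_mul, hcard]
    unfold NN
    push_cast
    rw [div_pow, mul_pow, Real.sq_sqrt hm0.le]
    field_simp
  exact le_of_sq_le_sq h3 (div_nonneg (nS_nonneg S x) hk0.le)

/-- upper bound of the density -/
theorem up {S : Finset A} {m : ℕ} (h : OB p g S m) (hρ : RD p g ρ) (hn : 1 ≤ Fintype.card κ)
    (hμ : mu ρ univ = 1) (x : V κ) :
    ρ x * (2 * (NN p S m x / Fintype.card κ)) ^ Fintype.card κ ≤ 1 := by
  obtain ⟨M, hM⟩ : ∃ M, M = NN p S m x / Fintype.card κ := ⟨_, rfl⟩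
  rw [← hM]
  have hM0 : 0 ≤ M := by
    rw [hM]
    exact div_nonneg (NN_nonneg S m x) (Nat.cast_nonneg _)
  obtain ⟨C, hC⟩ : ∃ C : Set (V κ),
      C = (WithLp.ofLp) ⁻¹' (Set.pi univ fun _ : κ => Icc (-M) M) := ⟨_, rfl⟩
  have hCm : MeasurableSet C := by
    rw [hC]
    exact (PiLp.volume_preserving_ofLp κ).measurable
      (MeasurableSet.univ_pi fun _ => measurableSet_Icc)
  have hvol : volume C = ENNReal.ofReal ((2 * M) ^ Fintype.card κ) := by
    rw [hC, (PiLp.volume_preserving_ofLp κ).measure_preimage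
      (MeasurableSet.univ_pi fun _ => measurableSet_Icc).nullMeasurableSet, volume_pi_pi]
    simp only [Real.volume_Icc, Finset.prod_const, Finset.card_univ]
    rw [ENNReal.ofReal_pow (by linarith)]
    congr 2
    ring
  have h1 : ENNReal.ofReal (ρ x) * volume C ≤ 1 := by
    rw [← hμ]
    unfold mu
    rw [withDensity_apply _ MeasurableSet.univ, Measure.restrict_univ]
    calc ENNReal.ofReal (ρ x) * volume C = ∫⁻ _ in C, ENNReal.ofReal (ρ x) := by
          rw [setLIntegral_const]
      _ ≤ ∫⁻ y in C, ENNReal.ofReal (ρ y) := by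
          apply setLIntegral_mono' hCm
          intro y hy
          apply ENNReal.ofReal_le_ofReal
          apply cube h hρ hn x y
          intro j
          rw [hC] at hy
          have := hy j (mem_univ j)
          rw [← hM]
          exact abs_le.mpr this
      _ ≤ ∫⁻ y, ENNReal.ofReal (ρ y) := setLIntegral_le_lintegral _ _
  rw [hvol, ← ENNReal.ofReal_mul (hρ.nonneg x), ENNReal.ofReal_le_one] at h1
  exact h1

end Pool.Agent.TH610.RB
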